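import Mathlib

/-!
# Stabilisers in `A_n × Q`
-/

set_option autoImplicit false
set_option linter.unusedSectionVars false

open scoped Classical

namespace Pool.Agent.H373.PD

namespace F1

open Equiv

/-- the points -/
abbrev Pt (E Q : Type) (m : ℕ) : Type := (Fin 3 × ((E ⊕ Q) × Fin 2)) ⊕ Fin m

variable {E Q : Type} {m : ℕ}

/-- the action in region `0` -/
noncomputable def act : Perm (E ⊕ Q) →* Perm (Pt E Q m) where
  toFun τ := Perm.sumCongr (Perm.prodExtendRight (0 : Fin 3) (prodCongrLeft fun _ : Fin 2 => τ)) 1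
  map_one' := by
    ext p
    rcases p with ⟨r, w, i⟩ | j
    · by_cases hr : r = 0
      · subst hr
        simp
      · simp [Perm.prodExtendRight_apply_ne _ hr]
    · simp
  map_mul' σ τ := by
    ext p
    rcases p with ⟨r, w, i⟩ | j
    · by_cases hr : r = 0
      · subst hr
        simp
      · simp [Perm.prodExtendRight_apply_ne _ hr]
    · simp

theorem act_zero (τ : Perm (E ⊕ Q)) (w : E ⊕ Q) (i : Fin 2) :
    act (m := m) τ (Sum.inl (0, (w, i))) = Sum.inl (0, (τ w, i)) := by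
  simp [act]

theorem act_ne (τ : Perm (E ⊕ Q)) (r : Fin 3) (hr : r ≠ 0) (w : (E ⊕ Q) × Fin 2) :
    act (m := m) τ (Sum.inl (r, w)) = Sum.inl (r, w) := by
  simp [act, Perm.prodExtendRight_apply_ne _ hr]

/-- the cyclic shift of the regions -/
def tt : Perm (Pt E Q m) := Perm.sumCongr (prodCongr (finRotate 3) (Equiv.refl _)) 1

theorem tt_apply (r : Fin 3) (w : (E ⊕ Q) × Fin 2) :
    tt (m := m) (Sum.inl (r, w)) = Sum.inl (r + 1, w) := by
  simp [tt]

theorem tt_inr (j : Fin m) : tt (E := E) (Q := Q) (Sum.inr j) = Sum.inr j := by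
  simp [tt]

theorem tt_cube : (tt : Perm (Pt E Q m)) ^ 3 = 1 := by
  ext p
  rcases p with ⟨r, w⟩ | j
  · rw [pow_succ, pow_succ, pow_one, Perm.mul_apply, Perm.mul_apply, tt_apply, tt_apply, tt_apply]
    have : r + 1 + 1 + 1 = r := by
      fin_cases r <;> rfl
    rw [this]
    rfl
  · rw [pow_succ, pow_succ, pow_one, Perm.mul_apply, Perm.mul_apply, tt_inr, tt_inr, tt_inr]
    rfl

variable [Fintype E] [Fintype Q]

theorem sign_tt : Perm.sign (tt : Perm (Pt E Q m)) = 1 := by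
  have h := congrArg Perm.sign (tt_cube (E := E) (Q := Q) (m := m))
  rw [map_pow, map_one] at h
  rcases Int.units_eq_one_or (Perm.sign (tt : Perm (Pt E Q m))) with h1 | h1
  · exact h1
  · rw [h1] at h
    exact absurd h (by decide)

theorem sign_act (τ : Perm (E ⊕ Q)) : Perm.sign (act τ : Perm (Pt E Q m)) = 1 := by
  show Perm.sign (Perm.sumCongr (Perm.prodExtendRight (0 : Fin 3)
    (prodCongrLeft fun _ : Fin 2 => τ)) (1 : Perm (Fin m))) = 1
  rw [Perm.sign_sumCongr, Perm.sign_prodExtendRight, Perm.sign_prodCongrLeft, map_one, mul_one]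
  simp

variable [Group E] [Group Q]

/-- left multiplications on `E` -/
def lE : E →* Perm (E ⊕ Q) where
  toFun e := Perm.sumCongr (Equiv.mulLeft e) 1
  map_one' := by
    ext p
    rcases p with p | p <;> simp
  map_mul' e f := by
    ext p
    rcases p with p | p <;> simp [mul_assoc]

/-- left multiplications on `Q` -/
def lQ : Q →* Perm (E ⊕ Q) where
  toFun e := Perm.sumCongr 1 (Equiv.mulLeft e)
  map_one' := by
    ext p
    rcases p with p | p <;> simp
  map_mul' e f := by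
    ext p
    rcases p with p | p <;> simp [mul_assoc]

theorem lE_inl (e e' : E) : lE (Q := Q) e (Sum.inl e') = Sum.inl (e * e') := by simp [lE]
theorem lE_inr (e : E) (q : Q) : lE e (Sum.inr q) = Sum.inr q := by simp [lE]
theorem lQ_inl (q : Q) (e' : E) : lQ q (Sum.inl e') = Sum.inl e' := by simp [lQ]
theorem lQ_inr (q q' : Q) : lQ (E := E) q (Sum.inr q') = Sum.inr (q * q') := by simp [lQ]

/-- the embedding of `E` -/
noncomputable def aa : E →* alternatingGroup (Pt E Q m) :=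
  (act.comp lE).codRestrict _ fun _ => Perm.mem_alternatingGroup.2 (sign_act _)

/-- the embedding of `Q` -/
noncomputable def cc : Q →* alternatingGroup (Pt E Q m) :=
  (act.comp lQ).codRestrict _ fun _ => Perm.mem_alternatingGroup.2 (sign_act _)

/-- the shift -/
noncomputable def ttt : alternatingGroup (Pt E Q m) := ⟨tt, Perm.mem_alternatingGroup.2 sign_tt⟩


theorem aa_zl (e e' : E) (i : Fin 2) :
    ((aa e : alternatingGroup (Pt E Q m)) : Perm (Pt E Q m)) (Sum.inl (0, (Sum.inl e', i))) =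
      Sum.inl (0, (Sum.inl (e * e'), i)) := by
  show act (lE e) (Sum.inl (0, (Sum.inl e', i))) = _
  rw [act_zero, lE_inl]

theorem aa_zr (e : E) (q : Q) (i : Fin 2) :
    ((aa e : alternatingGroup (Pt E Q m)) : Perm (Pt E Q m)) (Sum.inl (0, (Sum.inr q, i))) =
      Sum.inl (0, (Sum.inr q, i)) := by
  show act (lE e) (Sum.inl (0, (Sum.inr q, i))) = _
  rw [act_zero, lE_inr]

theorem aa_ne (e : E) (r : Fin 3) (hr : r ≠ 0) (w : (E ⊕ Q) × Fin 2) :
    ((aa e : alternatingGroup (Pt E Q m)) : Perm (Pt E Q m)) (Sum.inl (r, w)) =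
      Sum.inl (r, w) := by
  show act (lE e) (Sum.inl (r, w)) = _
  rw [act_ne _ _ hr]

theorem cc_zl (q : Q) (e' : E) (i : Fin 2) :
    ((cc q : alternatingGroup (Pt E Q m)) : Perm (Pt E Q m)) (Sum.inl (0, (Sum.inl e', i))) =
      Sum.inl (0, (Sum.inl e', i)) := by
  show act (lQ q) (Sum.inl (0, (Sum.inl e', i))) = _
  rw [act_zero, lQ_inl]

theorem cc_zr (q q' : Q) (i : Fin 2) :
    ((cc q : alternatingGroup (Pt E Q m)) : Perm (Pt E Q m)) (Sum.inl (0, (Sum.inr q', i))) =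
      Sum.inl (0, (Sum.inr (q * q'), i)) := by
  show act (lQ q) (Sum.inl (0, (Sum.inr q', i))) = _
  rw [act_zero, lQ_inr]

theorem cc_ne (q : Q) (r : Fin 3) (hr : r ≠ 0) (w : (E ⊕ Q) × Fin 2) :
    ((cc q : alternatingGroup (Pt E Q m)) : Perm (Pt E Q m)) (Sum.inl (r, w)) =
      Sum.inl (r, w) := by
  show act (lQ q) (Sum.inl (r, w)) = _
  rw [act_ne _ _ hr]

theorem ttt_apply (r : Fin 3) (w : (E ⊕ Q) × Fin 2) :
    ((ttt : alternatingGroup (Pt E Q m)) : Perm (Pt E Q m)) (Sum.inl (r, w)) =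
      Sum.inl (r + 1, w) := tt_apply r w

theorem aa_inj : Function.Injective (aa : E →* alternatingGroup (Pt E Q m)) := by
  intro e e' h
  have h1 := congrArg (fun h : alternatingGroup (Pt E Q m) =>
    (h : Perm (Pt E Q m)) (Sum.inl (0, (Sum.inl 1, 0)))) h
  simp only [aa_zl, mul_one] at h1
  simpa using h1

theorem cc_inj : Function.Injective (cc : Q →* alternatingGroup (Pt E Q m)) := by
  intro e e' h
  have h1 := congrArg (fun h : alternatingGroup (Pt E Q m) =>
    (h : Perm (Pt E Q m)) (Sum.inl (0, (Sum.inr 1, 0)))) h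
  simp only [cc_zr, mul_one] at h1
  simpa using h1

/-- the value at a point -/
theorem ev {x y : alternatingGroup (Pt E Q m)} (h : x = y) (p : Pt E Q m) :
    (x : Perm (Pt E Q m)) p = (y : Perm (Pt E Q m)) p := by rw [h]

/-- the set -/
def SS (π : E →* Q) : Set (alternatingGroup (Pt E Q m)) :=
  {y | ∃ e, y = aa e * (cc (π e))⁻¹ ∨ y = aa e * ttt * (cc (π e))⁻¹}

theorem SS_mul (π : E →* Q) (e : E) (y : alternatingGroup (Pt E Q m)) (hy : y ∈ SS π) :
    aa e * y * (cc (π e))⁻¹ ∈ SS π := by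
  obtain ⟨e', h | h⟩ := hy
  · refine ⟨e * e', Or.inl ?_⟩
    rw [h, map_mul, map_mul, map_mul, mul_inv_rev]
    group
  · refine ⟨e * e', Or.inr ?_⟩
    rw [h, map_mul, map_mul, map_mul, mul_inv_rev]
    group

theorem SS_iff (π : E →* Q) (e : E) (y : alternatingGroup (Pt E Q m)) :
    aa e * y * (cc (π e))⁻¹ ∈ SS π ↔ y ∈ SS π := by
  refine ⟨fun h => ?_, SS_mul π e y⟩
  have h1 := SS_mul π e⁻¹ _ h
  have h2 : aa e⁻¹ * (aa e * y * (cc (π e))⁻¹) * (cc (π e⁻¹))⁻¹ = y := by
    rw [map_inv, map_inv, map_inv, inv_inv]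
    group
  rwa [h2] at h1

theorem core (π : E →* Q) (z : alternatingGroup (Pt E Q m)) (hz : z = 1 ∨ z = ttt) (q : Q)
    (h : z * cc q * ttt * (cc q)⁻¹ ∈ SS π) : z = 1 ∧ q = 1 := by
  rw [← map_inv] at h
  rcases hz with rfl | rfl
  · refine ⟨rfl, ?_⟩
    obtain ⟨e, h | h⟩ := h
    · exfalso
      have h1 := ev h (Sum.inl (0, (Sum.inl 1, 0)))
      rw [← map_inv] at h1
      simp only [Subgroup.coe_mul, Perm.mul_apply, one_mul, cc_zl, ttt_apply, aa_zl] at h1
      rw [cc_ne _ _ (by decide)] at h1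
      simp at h1
    · have h1 := ev h (Sum.inl (0, (Sum.inr 1, 0)))
      have h2 := ev h (Sum.inl (2, (Sum.inl 1, 0)))
      rw [← map_inv] at h1 h2
      simp only [Subgroup.coe_mul, Perm.mul_apply, one_mul, cc_zr, ttt_apply] at h1
      rw [cc_ne _ _ (by decide), aa_ne _ _ (by decide)] at h1
      simp only [Subgroup.coe_mul, Perm.mul_apply, one_mul] at h2
      rw [cc_ne _ _ (by decide), cc_ne _ _ (by decide)] at h2
      simp only [ttt_apply] at h2
      have e3 : (2 : Fin 3) + 1 = 0 := rfl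
      rw [e3, cc_zl, aa_zl] at h2
      simp only [mul_one, Sum.inl.injEq, Prod.mk.injEq, Sum.inr.injEq, and_true, true_and,
        inv_inj] at h1 h2
      rw [h1, ← h2, map_one]
  · exfalso
    obtain ⟨e, h | h⟩ := h
    · have h1 := ev h (Sum.inl (0, (Sum.inl 1, 0)))
      rw [← map_inv] at h1
      simp only [Subgroup.coe_mul, Perm.mul_apply, cc_zl, ttt_apply, aa_zl] at h1
      rw [cc_ne _ _ (by decide)] at h1
      simp only [ttt_apply] at h1
      simp at h1
    · have h1 := ev h (Sum.inl (0, (Sum.inl 1, 0)))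
      rw [← map_inv] at h1
      simp only [Subgroup.coe_mul, Perm.mul_apply, cc_zl, ttt_apply] at h1
      rw [cc_ne _ _ (by decide), aa_ne _ _ (by decide)] at h1
      simp only [ttt_apply] at h1
      simp at h1

theorem stab_iff (π : E →* Q) (x : alternatingGroup (Pt E Q m)) (q : Q) :
    (∀ y, x * y * (cc q)⁻¹ ∈ SS π ↔ y ∈ SS π) ↔ ∃ e, aa e = x ∧ π e = q := by
  constructor
  · intro H
    have h1 : (1 : alternatingGroup (Pt E Q m)) ∈ SS π := ⟨1, Or.inl (by simp)⟩
    have ht : (ttt : alternatingGroup (Pt E Q m)) ∈ SS π := ⟨1, Or.inr (by simp)⟩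
    have h2 : ∃ e, ∃ z, (z = 1 ∨ z = ttt) ∧ x * 1 * (cc q)⁻¹ = aa e * z * (cc (π e))⁻¹ := by
      obtain ⟨e, h | h⟩ := (H 1).2 h1
      · exact ⟨e, 1, Or.inl rfl, by rw [h, mul_one]⟩
      · exact ⟨e, ttt, Or.inr rfl, h⟩
    obtain ⟨e, z, hz, h3⟩ := h2
    rw [mul_one] at h3
    have h4 : x = aa e * (z * cc ((π e)⁻¹ * q)) := by
      have h5 : x = aa e * z * (cc (π e))⁻¹ * cc q := by rw [← h3, inv_mul_cancel_right]
      rw [h5, map_mul, map_inv]
      group
    have h6 : z * cc ((π e)⁻¹ * q) * ttt * (cc ((π e)⁻¹ * q))⁻¹ ∈ SS π := by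
      rw [← SS_iff π e]
      have h7 := (H ttt).2 ht
      have h8 : aa e * (z * cc ((π e)⁻¹ * q) * ttt * (cc ((π e)⁻¹ * q))⁻¹) * (cc (π e))⁻¹ =
          x * ttt * (cc q)⁻¹ := by
        rw [h4]
        have h9 : (cc ((π e)⁻¹ * q) : alternatingGroup (Pt E Q m))⁻¹ * (cc (π e))⁻¹ =
            (cc q)⁻¹ := by
          rw [← mul_inv_rev, ← map_mul, mul_inv_cancel_left]
        rw [← h9]
        group
      rw [h8]
      exact h7
    obtain ⟨h10, h11⟩ := core π z hz _ h6
    refine ⟨e, ?_, ?_⟩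
    · rw [h4, h10, h11, map_one, mul_one, mul_one]
    · exact inv_mul_eq_one.1 h11
  · rintro ⟨e, rfl, rfl⟩ y
    exact SS_iff π e y

end F1

/-- Let `π : E → Q` be a homomorphism of finite groups. There are embeddings `a : E → A_n` and
`c : Q → A_n` and a subset `S` of `A_n`, such that the stabiliser of `S` in `A_n × Q`, where `(x, q)`
acts on `A_n` by `y ↦ x y (c q)⁻¹`, is the image of `E` under `(a, π)`. -/
theorem exists_stab {E Q : Type} [Group E] [Finite E] [Group Q] [Finite Q] (π : E →* Q) (n : ℕ)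
    (hn : 6 * (Nat.card E + Nat.card Q) ≤ n) :
    ∃ (a : E →* alternatingGroup (Fin n)) (c : Q →* alternatingGroup (Fin n))
      (S : Set (alternatingGroup (Fin n))),
      Function.Injective a ∧ Function.Injective c ∧
      ∀ (x : alternatingGroup (Fin n)) (q : Q),
        (∀ y, x * y * (c q)⁻¹ ∈ S ↔ y ∈ S) ↔ ∃ e, a e = x ∧ π e = q := by
  have : Fintype E := Fintype.ofFinite E
  have : Fintype Q := Fintype.ofFinite Q
  obtain ⟨m, rfl⟩ := Nat.exists_eq_add_of_le hn
  have hcard : Fintype.card (F1.Pt E Q m) =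
      Fintype.card (Fin (6 * (Nat.card E + Nat.card Q) + m)) := by
    simp only [F1.Pt, Fintype.card_sum, Fintype.card_prod, Fintype.card_fin, Nat.card_eq_fintype_card]
    ring
  let Φ : alternatingGroup (F1.Pt E Q m) ≃*
      alternatingGroup (Fin (6 * (Nat.card E + Nat.card Q) + m)) :=
    Equiv.altCongrHom (Fintype.equivOfCardEq hcard)
  refine ⟨Φ.toMonoidHom.comp F1.aa, Φ.toMonoidHom.comp F1.cc, Φ '' F1.SS π,
    Φ.injective.comp F1.aa_inj, Φ.injective.comp F1.cc_inj, fun x q => ?_⟩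
  obtain ⟨x, rfl⟩ := Φ.surjective x
  have h1 : (∀ y, Φ x * y * ((Φ.toMonoidHom.comp F1.cc) q)⁻¹ ∈ Φ '' F1.SS π ↔ y ∈ Φ '' F1.SS π) ↔
      ∀ y, x * y * (F1.cc q)⁻¹ ∈ F1.SS π ↔ y ∈ F1.SS π := by
    constructor
    · intro H y
      have h2 := H (Φ y)
      have h3 : Φ x * Φ y * ((Φ.toMonoidHom.comp F1.cc) q)⁻¹ = Φ (x * y * (F1.cc q)⁻¹) := by
        rw [map_mul, map_mul, map_inv]
        rfl
      rw [h3, Φ.injective.mem_set_image, Φ.injective.mem_set_image] at h2
      exact h2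
    · intro H y
      obtain ⟨y, rfl⟩ := Φ.surjective y
      have h3 : Φ x * Φ y * ((Φ.toMonoidHom.comp F1.cc) q)⁻¹ = Φ (x * y * (F1.cc q)⁻¹) := by
        rw [map_mul, map_mul, map_inv]
        rfl
      rw [h3, Φ.injective.mem_set_image, Φ.injective.mem_set_image]
      exact H y
  rw [h1, F1.stab_iff]
  constructor
  · rintro ⟨e, h2, h3⟩
    exact ⟨e, by rw [← h2]; rfl, h3⟩
  · rintro ⟨e, h2, h3⟩
    exact ⟨e, Φ.injective h2, h3⟩

end Pool.Agent.H373.PD
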