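import Pool.Agent.H373.MN.D3

/-!
# Automorphisms and the data for Mackey's condition
-/

set_option autoImplicit false
set_option linter.unusedSectionVars false
set_option linter.style.haveILetI false

open scoped BigOperators Classical

noncomputable section

namespace Pool.Agent.H373.PD

open Pool.Agent.H373.BU hiding Ind

open Pool.Agent.H373.MN

open MonoidAlgebra hiding coeff_sum

variable {R X V G : Type} [CommRing R] [IsDomain R] [Group X] [Group V] [Group G] [Fintype X]
  [Fintype V] (M : Mon R X V G) {u : R} (hu : u * (Fintype.card V : R) = 1)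

theorem F2_me_conj {β β' : X ≃* X} (x : X) (h : ∀ y, β' y = x * β y * x⁻¹) (a : MonoidAlgebra R X) :
    me R β' a = el R x * me R β a * el R x⁻¹ := by
  induction a using MonoidAlgebra.induction_linear with
  | zero => simp
  | add a b ha hb => rw [map_add, map_add, ha, hb, mul_add, add_mul]
  | single y r =>
    rw [me_single, me_single, h, single_eq (β y), mul_smul_comm, smul_mul_assoc, el_mul, el_mul,
      single_eq]

theorem F2_me_central (β : X ≃* X) {c : MonoidAlgebra R X} (hc : ∀ a, c * a = a * c)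
    (a : MonoidAlgebra R X) : me R β c * a = a * me R β c := by
  obtain ⟨b, rfl⟩ := (me R β).surjective a
  rw [← map_mul, hc, map_mul]

/-- inner automorphisms do not matter for central elements -/
theorem me_inner {β β' : X ≃* X} (x : X) (h : ∀ y, β' y = x * β y * x⁻¹)
    {c : MonoidAlgebra R X} (hc : ∀ a, c * a = a * c) : me R β' c = me R β c := by
  rw [F2_me_conj x h, ← F2_me_central β hc, mul_assoc, el_mul_inv, mul_one]

theorem F2_me_ep (β : X ≃* X) (γ : V ≃* V) (h1 : ∀ v, β (M.i v) = M.i (γ v))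
    (h3 : ∀ v, M.lam (γ v) = M.lam v) (u : R) : me R β (M.ep u) = M.ep u := by
  unfold Mon.ep
  rw [map_sum]
  refine Fintype.sum_equiv γ.toEquiv _ _ fun v => ?_
  rw [me_single, h1]
  change _ = MonoidAlgebra.single (M.i (γ v)) (u * ((M.lam (γ v)⁻¹ : Rˣ) : R))
  rw [← map_inv γ, h3]

theorem F2_me_io (β : X ≃* X) (α : G ≃* G) (h2 : ∀ g, β (M.j g) = M.j (α g))
    (a : MonoidAlgebra R G) : me R β (M.io a) = M.io (me R α a) := by
  induction a using MonoidAlgebra.induction_linear with
  | zero => simp
  | add a b ha hb => rw [map_add, map_add, ha, hb, map_add, map_add]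
  | single g r => rw [Mon.io_single, me_single, me_single, Mon.io_single, h2]

include hu in
theorem F2_ep_io_ne {ε : MonoidAlgebra R G} (h : ε ≠ 0) : M.ep u * M.io ε ≠ 0 := by
  intro h0
  apply h
  apply M.ep_io_inj hu
  rw [h0, map_zero, mul_zero]

include hu in
/-- equivariance -/
theorem cen_equiv (β : X ≃* X) (α : G ≃* G) (γ : V ≃* V) (h1 : ∀ v, β (M.i v) = M.i (γ v))
    (h2 : ∀ g, β (M.j g) = M.j (α g)) (h3 : ∀ v, M.lam (γ v) = M.lam v)
    {ε : MonoidAlgebra R G} (hε : IsBlock ε) :
    me R β (M.cen u ε) = M.cen u (me R α ε) := by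
  have hA : IsBlock (me R β (M.cen u ε)) := me_isBlock β (M.cen_isBlock hu hε)
  have hα : IsBlock (me R α ε) := me_isBlock α hε
  have hB : IsBlock (M.cen u (me R α ε)) := M.cen_isBlock hu hα
  have hB' : M.cen u (me R α ε) * M.ep u = M.ep u * M.io (me R α ε) := M.cen_ep hu hα.central
  have hA' : me R β (M.cen u ε) * M.ep u = M.ep u * M.io (me R α ε) := by
    calc me R β (M.cen u ε) * M.ep u = me R β (M.cen u ε) * me R β (M.ep u) := by
          rw [F2_me_ep M β γ h1 h3]
      _ = me R β (M.ep u * M.io ε) := by rw [← map_mul, M.cen_ep hu hε.central]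
      _ = M.ep u * M.io (me R α ε) := by rw [map_mul, F2_me_ep M β γ h1 h3, F2_me_io M β α h2]
  apply blk_eq hA hB
  intro h0
  apply F2_ep_io_ne M hu hα.ne_zero
  calc M.ep u * M.io (me R α ε) = me R β (M.cen u ε) * M.ep u := hA'.symm
    _ = me R β (M.cen u ε) * (me R β (M.cen u ε) * M.ep u) := by rw [← mul_assoc, hA.idem]
    _ = me R β (M.cen u ε) * (M.cen u (me R α ε) * M.ep u) := by rw [hA', hB']
    _ = 0 := by rw [← mul_assoc, h0, zero_mul]

/-- the middle term vanishes -/
theorem F2_ep_el_me (β : X ≃* X) (x : X) {v v' : V} (h : M.i v' = x * β (M.i v) * x⁻¹)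
    (hl : M.lam v' ≠ M.lam v) (u : R) : M.ep u * el R x * me R β (M.ep u) = 0 := by
  have e1 : el R (M.i v') * el R x = el R x * me R β (el R (M.i v)) := by
    rw [me_single, el_mul, el_mul, h, inv_mul_cancel_right]
  have e2 : me R β (el R (M.i v)) * me R β (M.ep u) =
      ((M.lam v : Rˣ) : R) • me R β (M.ep u) := by
    rw [← map_mul, M.i_ep, map_smul]
  have e3 : ((M.lam v' : Rˣ) : R) • (M.ep u * el R x * me R β (M.ep u)) =
      ((M.lam v : Rˣ) : R) • (M.ep u * el R x * me R β (M.ep u)) := by
    calc ((M.lam v' : Rˣ) : R) • (M.ep u * el R x * me R β (M.ep u))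
        = M.ep u * el R (M.i v') * el R x * me R β (M.ep u) := by
          rw [M.ep_i, smul_mul_assoc, smul_mul_assoc]
      _ = M.ep u * (el R (M.i v') * el R x) * me R β (M.ep u) := by simp only [mul_assoc]
      _ = M.ep u * el R x * (me R β (el R (M.i v)) * me R β (M.ep u)) := by
          rw [e1]; simp only [mul_assoc]
      _ = _ := by rw [e2, mul_smul_comm]
  have hne : ((M.lam v' : Rˣ) : R) ≠ ((M.lam v : Rˣ) : R) := fun h => hl (Units.ext h)
  ext y
  have e4 := congrArg (fun a : MonoidAlgebra R X => a.coeff y) e3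
  simp only [coeff_smul, Finsupp.smul_apply, smul_eq_mul] at e4
  have e5 : (((M.lam v' : Rˣ) : R) - ((M.lam v : Rˣ) : R)) *
      (M.ep u * el R x * me R β (M.ep u)).coeff y = 0 := by
    rw [sub_mul, e4, sub_self]
  rcases mul_eq_zero.mp e5 with h5 | h5
  · exact absurd (sub_eq_zero.mp h5) hne
  · rw [h5]
    rfl

include hu in
/-- Mackey's condition is not satisfied for an automorphism which fixes a block above the linear
character -/
theorem cen_mackey (β : X ≃* X) {ε : MonoidAlgebra R G} (hε : IsBlock ε)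
    (h : me R β (M.cen u ε) = M.cen u ε) :
    ∃ x : X, ∀ v v' : V, M.i v' = x * β (M.i v) * x⁻¹ → M.lam v' = M.lam v := by
  by_contra hne
  push Not at hne
  have key : ∀ x : X, M.ep u * el R x * me R β (M.ep u) = 0 := by
    intro x
    obtain ⟨v, v', h1, h2⟩ := hne x
    exact F2_ep_el_me M β x h1 h2 u
  have h1 : M.cen u ε * me R β (M.ep u) = me R β (M.ep u * M.io ε) := by
    calc M.cen u ε * me R β (M.ep u) = me R β (M.cen u ε) * me R β (M.ep u) := by rw [h]
      _ = _ := by rw [← map_mul, M.cen_ep hu hε.central]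
  have h2 : M.cen u ε * me R β (M.ep u) = 0 := by
    rw [M.cen_eq, Finset.sum_mul]
    refine Finset.sum_eq_zero fun p _ => ?_
    calc el R p.out * M.ep u * M.io ε * el R p.out⁻¹ * me R β (M.ep u)
        = el R p.out * (M.ep u * M.io ε) * el R p.out⁻¹ * me R β (M.ep u) := by
          simp only [mul_assoc]
      _ = el R p.out * M.io ε * (M.ep u * el R p.out⁻¹ * me R β (M.ep u)) := by
          rw [← M.io_ep]; simp only [mul_assoc]
      _ = 0 := by rw [key, mul_zero]
  apply F2_ep_io_ne M hu hε.ne_zero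
  apply (me R β).injective
  rw [← h1, h2, map_zero]

end Pool.Agent.H373.PD
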