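import Pool.Agent.H373.MN.D3a

/-!
# Dade's invariant alternating sums: definitions
-/

set_option autoImplicit false
set_option linter.unusedSectionVars false
set_option linter.style.haveILetI false

open scoped BigOperators Classical

noncomputable section

namespace Pool.Agent.H373.PD

open Pool.Agent.H373.BU hiding Ind

open Pool.Agent.H373.MN

open MonoidAlgebra hiding coeff_sum

open IsLocalRing

/-- An exact sequence `1 → G → E → Q → 1`: the group `E` is an extension of `G` with the quotient
`Q`. -/
structure Ext (G E Q : Type) [Group G] [Group E] [Group Q] where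
  ι : G →* E
  π : E →* Q
  inj : Function.Injective ι
  surj : Function.Surjective π
  exact : ι.range = π.ker

section defs

variable {G E Q : Type} [Group G] [Group E] [Group Q] {Ω : Type} [Field Ω]

/-- The automorphism `α` of `G` is the conjugation with the element `e` of `E`. -/
def Ext.Cg (X : Ext G E Q) (e : E) (α : G ≃* G) : Prop := ∀ g, X.ι (α g) = e * X.ι g * e⁻¹

/-- The automorphism `α` of `G` fixes all members of the chain `C` and (its restriction to `N_G(C)`
fixes) the irreducible character `ε` of `N_G(C)`. -/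
def FixP (α : G ≃* G) (C : Set (Subgroup G)) (ε : MonoidAlgebra Ω (NC C)) : Prop :=
  (∀ P ∈ C, P.map α.toMonoidHom = P) ∧ ∃ β : NC C ≃* NC C, (∀ n, (β n : G) = α n) ∧ me Ω β ε = ε

/-- The image in `Q` of the stabiliser `N_E(C, ε)`, i.e. of the elements of `E` which fix (by
conjugation) all members of the chain `C` and the irreducible character `ε` of `N_G(C)`. -/
def Ext.stab (X : Ext G E Q) (C : Set (Subgroup G)) (ε : MonoidAlgebra Ω (NC C)) : Set Q :=
  {q | ∃ e, X.π e = q ∧ ∃ α : G ≃* G, X.Cg e α ∧ FixP α C ε}

variable {L : Type} [CommRing L] [IsLocalRing L]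

/-- The irreducible characters `ε` of `N_G(C)` of defect `d` in the blocks of `Λ N_G(C)` which
correspond to the block `b` of `ΛG`, such that the image of `N_E(C, ε)` in `Q` is `U`. -/
def IrU (p : ℕ) (s : L →+* Ω) (d : ℕ) (X : Ext G E Q) (U : Subgroup Q) (C : Set (Subgroup G))
    (b : MonoidAlgebra L G) : Set (MonoidAlgebra Ω (NC C)) :=
  {ε | ε ∈ IrC p s d C b ∧ X.stab C ε = (U : Set Q)}

/-- Dade's alternating sum of the numbers `k_C(b, d, U)` over the classes of the chains
`1 = P_0 < P_1 < ... < P_n` of `p`-subgroups of `G`. -/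
def invSum (p : ℕ) (s : L →+* Ω) (d : ℕ) (X : Ext G E Q) (U : Subgroup Q)
    (b : MonoidAlgebra L G) : ℤ :=
  ∑ᶠ c : Quotient (cjs (pch p G)),
    (-1) ^ ((c.out : Set (Subgroup G)).ncard - 1) *
      (Nat.card (IrU p s d X U (c.out : Set (Subgroup G)) b) : ℤ)

end defs

section defs

variable {L : Type} [CommRing L] [IsDomain L] [IsDiscreteValuationRing L] {Ω : Type} [Field Ω]
  {G E Q : Type} [Group G] [Group E] [Group Q]

/-- **Dade's invariant conjecture** for the blocks of `ΛG` with nontrivial defect groups and the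
extension `E` of `G`: all the alternating sums vanish. -/
def InvDade (p : ℕ) (s : L →+* Ω) (X : Ext G E Q) : Prop :=
  ∀ b : MonoidAlgebra L G, IsBlock b → PosDefect (red (rs L) b) → ∀ (d : ℕ) (U : Subgroup Q),
    invSum p s d X U b = 0

/-- The blocks of `ΛG` are reproduced by blocks of `ΛG'`, for extensions of `G` and `G'` with the same
quotient `Q`: a matrix ring over the block algebra is isomorphic to the new one, the defect groups are
isomorphic, and all of Dade's alternating sums are the same, for all subgroups `U` of `Q`. -/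
def ReproI (p : ℕ) (s : L →+* Ω) (X : Ext G E Q) {G' E' : Type} [Group G'] [Group E']
    (X' : Ext G' E' Q) : Prop :=
  ∀ (b : MonoidAlgebra L G) (hb : IsBlock b), ∃ (b' : MonoidAlgebra L G') (hb' : IsBlock b'),
    (∃ r : ℕ, 0 < r ∧ Nonempty (Matrix (Fin r) (Fin r) (BlockAlg hb) ≃+* BlockAlg hb')) ∧
    (∀ D : Subgroup G, IsDefect p b D → ∃ D' : Subgroup G', IsDefect p b' D' ∧
      Nonempty (D' ≃* D)) ∧
    (PosDefect (red (rs L) b') ↔ PosDefect (red (rs L) b)) ∧
    ∀ (d : ℕ) (U : Subgroup Q), invSum p s d X' U b' = invSum p s d X U b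

end defs

end Pool.Agent.H373.PD
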