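import Pool.Agent.H373.MN.D4
import Pool.Agent.H373.PD.Q10

set_option autoImplicit false
set_option linter.unusedSectionVars false
set_option linter.style.haveILetI false

open scoped BigOperators Classical

noncomputable section

namespace Pool.Agent.H373.PD

open Pool.Agent.H373.BU hiding Ind

open Pool.Agent.H373.MN

open MonoidAlgebra hiding coeff_sum

variable {G E Q : Type} [Group G] [Group E] [Group Q] {Ω : Type} [Field Ω]

/-- `β` is induced by `α` -/
def IndK (α : G ≃* G) (C : Set (Subgroup G)) (β : KC C ≃* KC C) : Prop :=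
  ∀ n m : NC C, (m : G) = α n → β (pk C n) = pk C m

/-- an automorphism which fixes the members of a chain maps the stabiliser to itself -/
theorem fix_NC0 {α : G ≃* G} {C : Set (Subgroup G)}
    (hC : ∀ P ∈ C, P.map α.toMonoidHom = P) {n : G} (hn : n ∈ NC C) : α n ∈ NC C := by
  rw [mem_NC] at hn ⊢
  intro P hP
  have h3 := hn P hP
  have h4 := hC P hP
  ext t
  rw [mem_cs]
  constructor
  · intro ht
    rw [← h4] at ht
    obtain ⟨a, ha, hat⟩ := ht
    change α a = _ at hat
    have h5 : t = α (n * a * n⁻¹) := by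
      rw [map_mul, map_mul, hat, map_inv]
      group
    rw [h5, ← h4]
    refine ⟨_, ?_, rfl⟩
    rw [← h3]
    exact cs_mem.mpr ha
  · intro ht
    rw [← h4] at ht
    obtain ⟨a, ha, rfl⟩ := ht
    rw [← h3] at ha
    rw [← h4]
    refine ⟨n⁻¹ * a * n, mem_cs.mp ha, ?_⟩
    change α (n⁻¹ * a * n) = (α n)⁻¹ * α a * α n
    rw [map_mul, map_mul, map_inv]

theorem fix_symm {α : G ≃* G} {C : Set (Subgroup G)} (hC : ∀ P ∈ C, P.map α.toMonoidHom = P) :
    ∀ P ∈ C, P.map α.symm.toMonoidHom = P := by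
  intro P hP
  conv_lhs => rw [← hC P hP]
  rw [Subgroup.map_map]
  ext x
  constructor
  · rintro ⟨a, ha, rfl⟩
    change α.symm (α a) ∈ P
    rwa [α.symm_apply_apply]
  · exact fun hx => ⟨x, hx, α.symm_apply_apply x⟩

/-- the restriction to the stabiliser -/
def ncA {α : G ≃* G} {C : Set (Subgroup G)} (hC : ∀ P ∈ C, P.map α.toMonoidHom = P) :
    NC C ≃* NC C where
  toFun n := ⟨α n, fix_NC0 hC n.2⟩
  invFun n := ⟨α.symm n, fix_NC0 (fix_symm hC) n.2⟩
  left_inv _ := Subtype.ext (α.symm_apply_apply _)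
  right_inv _ := Subtype.ext (α.apply_symm_apply _)
  map_mul' a b := Subtype.ext (map_mul α (a : G) b)

theorem fix_sInf {α : G ≃* G} {C : Set (Subgroup G)} (hC : ∀ P ∈ C, P.map α.toMonoidHom = P)
    {x : G} (hx : x ∈ sInf C) : α x ∈ sInf C := by
  rw [Subgroup.mem_sInf] at hx ⊢
  intro P hP
  rw [← hC P hP]
  exact ⟨x, hx P hP, rfl⟩

/-- an automorphism which fixes the members of the chain induces an automorphism of the quotient -/
theorem exists_indK (α : G ≃* G) (C : Set (Subgroup G)) (h : ∀ P ∈ C, P.map α.toMonoidHom = P) :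
    ∃ β : KC C ≃* KC C, IndK α C β := by
  let β : KC C ≃* KC C := QuotientGroup.congr _ _ (ncA h) (by
    ext x
    rw [Subgroup.mem_map]
    constructor
    · rintro ⟨n, hn, rfl⟩
      exact fix_sInf h (show (n : G) ∈ sInf C from hn)
    · intro hx
      refine ⟨(ncA h).symm x, ?_, (ncA h).apply_symm_apply x⟩
      exact fix_sInf (fix_symm h) (show (x : G) ∈ sInf C from hx))
  refine ⟨β, fun n m hm => ?_⟩
  change pk C (ncA h n) = pk C m
  congr 1
  exact Subtype.ext hm.symm

/-- the chain and the element are fixed -/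
def FixK (α : G ≃* G) (C : Set (Subgroup G)) (ε : MonoidAlgebra Ω (KC C)) : Prop :=
  (∀ P ∈ C, P.map α.toMonoidHom = P) ∧ ∃ β : KC C ≃* KC C, IndK α C β ∧ me Ω β ε = ε

/-- the image of the stabiliser -/
def stabK (X : Ext G E Q) (C : Set (Subgroup G)) (ε : MonoidAlgebra Ω (KC C)) : Set Q :=
  {q | ∃ e, X.π e = q ∧ ∃ α : G ≃* G, X.Cg e α ∧ FixK α C ε}

theorem me_trans {R A B C : Type} [CommRing R] [Group A] [Group B] [Group C] (f : A ≃* B)
    (g : B ≃* C) (a : MonoidAlgebra R A) : me R (f.trans g) a = me R g (me R f a) := by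
  induction a using MonoidAlgebra.induction_linear with
  | zero => simp
  | add a b ha hb => rw [map_add, map_add, map_add, ha, hb]
  | single x c =>
    rw [me_single, me_single, me_single]
    rfl

theorem me_refl {R A : Type} [CommRing R] [Group A] (a : MonoidAlgebra R A) :
    me R (MulEquiv.refl A) a = a := by
  induction a using MonoidAlgebra.induction_linear with
  | zero => simp
  | add a b ha hb => rw [map_add, ha, hb]
  | single x c =>
    rw [me_single]
    rfl

theorem stabK_sub (X : Ext G E Q) {g : G} {C₁ C₂ : Set (Subgroup G)} (h : Cj g C₁ C₂)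
    (ε : MonoidAlgebra Ω (KC C₁)) : stabK X C₁ ε ⊆ stabK X C₂ (me Ω (kck h) ε) := by
  rintro q ⟨e, he, α, hα, hC, β, hβ, hε⟩
  have hπ : ∀ g, X.π (X.ι g) = 1 := by
    intro g
    have h : X.ι g ∈ X.π.ker := by
      rw [← X.exact]
      exact ⟨g, rfl⟩
    exact h
  let α' : G ≃* G := ((MulAut.conj g⁻¹).trans α).trans (MulAut.conj g)
  have hα' : ∀ x, α' x = g * α (g⁻¹ * x * g) * g⁻¹ := by
    intro x
    change g * α (g⁻¹ * x * g⁻¹⁻¹) * g⁻¹ = _
    rw [inv_inv]
  refine ⟨X.ι g * e * (X.ι g)⁻¹, ?_, α', ?_, ?_, ((kck h).symm.trans β).trans (kck h), ?_, ?_⟩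
  · rw [map_mul, map_mul, map_inv, hπ, one_mul, inv_one, mul_one, he]
  · intro x
    rw [hα', map_mul, map_mul, hα, map_mul, map_mul, map_inv]
    group
  · intro P hP
    have h1 : Cj g C₁ C₂ := h
    unfold Cj at h1
    rw [← h1] at hP
    obtain ⟨P₁, hP₁, rfl⟩ := hP
    have h2 := hC P₁ hP₁
    ext t
    constructor
    · rintro ⟨a, ha, rfl⟩
      change α' a ∈ cs g P₁
      rw [hα', mem_cs]
      have h3 : g⁻¹ * (g * α (g⁻¹ * a * g) * g⁻¹) * g = α (g⁻¹ * a * g) := by group
      rw [h3, ← h2]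
      exact ⟨_, mem_cs.mp ha, rfl⟩
    · intro ht
      rw [mem_cs, ← h2] at ht
      obtain ⟨a, ha, hat⟩ := ht
      change α a = _ at hat
      refine ⟨g * a * g⁻¹, cs_mem.mpr ha, ?_⟩
      change α' _ = t
      rw [hα']
      have h3 : g⁻¹ * (g * a * g⁻¹) * g = a := by group
      rw [h3, hat]
      group
  · intro n m hm
    have h1 : (kck h).symm (pk C₂ n) = pk C₁ ((nck h).symm n) := by
      rw [MulEquiv.symm_apply_eq, kck_pk, MulEquiv.apply_symm_apply]
    have h2 : (((nck h).symm n : NC C₁) : G) = g⁻¹ * n * g := by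
      change g⁻¹ * n * g⁻¹⁻¹ = _
      rw [inv_inv]
    have h3 : (((nck h).symm m : NC C₁) : G) = g⁻¹ * m * g := by
      change g⁻¹ * m * g⁻¹⁻¹ = _
      rw [inv_inv]
    change kck h (β ((kck h).symm (pk C₂ n))) = pk C₂ m
    rw [h1, hβ ((nck h).symm n) ((nck h).symm m) (by
      rw [h2, h3, hm, hα']
      group), kck_pk, MulEquiv.apply_symm_apply]
  · rw [me_trans, me_trans, me_symm_me, hε]

/-- conjugation -/
theorem stabK_kck (X : Ext G E Q) {g : G} {C₁ C₂ : Set (Subgroup G)} (h : Cj g C₁ C₂)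
    (ε : MonoidAlgebra Ω (KC C₁)) : stabK X C₂ (me Ω (kck h) ε) = stabK X C₁ ε := by
  apply Set.Subset.antisymm
  · have h1 := stabK_sub X h.inv (me Ω (kck h) ε)
    have h2 : me Ω (kck h.inv) (me Ω (kck h) ε) = ε := by
      rw [← me_trans]
      have h3 : (kck h).trans (kck h.inv) = MulEquiv.refl _ := by
        ext x
        obtain ⟨n, rfl⟩ := pk_surj _ x
        change kck h.inv (kck h (pk C₁ n)) = pk C₁ n
        rw [kck_pk, kck_pk]
        congr 1
        apply Subtype.ext
        rw [nck_coe, nck_coe]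
        group
      rw [h3]
      exact me_refl ε
    rwa [h2] at h1
  · exact stabK_sub X h ε

/-- chains which contain the trivial group -/
theorem stabK_pkE (X : Ext G E Q) {C : Set (Subgroup G)} (hC : sInf C = ⊥)
    (ε : MonoidAlgebra Ω (NC C)) : stabK X C (me Ω (pkE hC) ε) = X.stab C ε := by
  ext q
  constructor
  · rintro ⟨e, he, α, hα, hCα, β, hβ, hε⟩
    refine ⟨e, he, α, hα, hCα, ((pkE hC).trans β).trans (pkE hC).symm, ?_, ?_⟩
    · intro n
      have h1 : β (pk C n) = pk C (ncA hCα n) := hβ n (ncA hCα n) rfl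
      have h2 : (pkE hC).symm (β (pkE hC n)) = ncA hCα n := by
        rw [MulEquiv.symm_apply_eq]
        exact h1
      exact congrArg Subtype.val h2
    · rw [me_trans, me_trans, hε, me_symm_me]
  · rintro ⟨e, he, α, hα, hCα, β, hβ, hε⟩
    refine ⟨e, he, α, hα, hCα, ((pkE hC).symm.trans β).trans (pkE hC), ?_, ?_⟩
    · intro n m hm
      have h1 : (pkE hC).symm (pk C n) = n := by
        rw [MulEquiv.symm_apply_eq]
        rfl
      change pkE hC (β ((pkE hC).symm (pk C n))) = pk C m
      rw [h1]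
      change pk C (β n) = pk C m
      congr 1
      exact Subtype.ext ((hβ n).trans hm.symm)
    · rw [me_trans, me_trans, me_symm_me, hε]

end Pool.Agent.H373.PD
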