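import Pool.Agent.H373.PD.F2
import Pool.Agent.H373.PD.F3

/-!
# Dade's invariant alternating sums: stabilisers of corresponding characters
-/

set_option autoImplicit false
set_option linter.unusedSectionVars false
set_option linter.style.haveILetI false

open scoped BigOperators Classical

noncomputable section

namespace Pool.Agent.H373.PD

open Pool.Agent.H373.BU hiding Ind

open Pool.Agent.H373.MN

open MonoidAlgebra hiding coeff_sum

section ext

variable {G E Q : Type} [Group G] [Group E] [Group Q]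

theorem Ext.π_ι (X : Ext G E Q) (g : G) : X.π (X.ι g) = 1 := by
  have h : X.ι g ∈ X.π.ker := by
    rw [← X.exact]
    exact ⟨g, rfl⟩
  exact h

theorem Ext.exists_of (X : Ext G E Q) {e : E} (h : X.π e = 1) : ∃ g, X.ι g = e := by
  have h1 : e ∈ X.ι.range := by
    rw [X.exact]
    exact h
  exact h1

theorem Ext.exists_cg (X : Ext G E Q) (e : E) : ∃ α : G ≃* G, X.Cg e α := by
  have key : ∀ (e : E) (g : G), ∃ g', X.ι g' = e * X.ι g * e⁻¹ := by
    intro e g
    apply X.exists_of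
    rw [map_mul, map_mul, X.π_ι, mul_one, map_inv, mul_inv_cancel]
  choose f hf using key
  refine ⟨
    { toFun := f e
      invFun := f e⁻¹
      left_inv := fun g => X.inj (by
        rw [hf, hf]
        group)
      right_inv := fun g => X.inj (by
        rw [hf, hf]
        group)
      map_mul' := fun a b => X.inj (by
        rw [hf, map_mul, map_mul, hf, hf]
        group) }, fun g => hf e g⟩

end ext

/-- The data `J` for the extension `Y` of `X` and the extension `E` of `G` restrict to the data `I` for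
`X` and `G`. -/
structure Pr {L X V G Y E Q : Type} [CommRing L] [Group X] [Group V] [Group G] [Group Y] [Group E]
    [Group Q] (I : Mon L X V G) (J : Mon L Y V E) (XG : Ext G E Q) (XX : Ext X Y Q) : Prop where
  i_eq : ∀ v, J.i v = XX.ι (I.i v)
  j_eq : ∀ g, J.j (XG.ι g) = XX.ι (I.j g)
  lam_eq : ∀ v, J.lam v = I.lam v
  π_eq : ∀ e, XX.π (J.j e) = XG.π e

section pr

variable {L X V G Y E Q : Type} [CommRing L] [Group X] [Group V] [Group G] [Group Y] [Group E]
  [Group Q] {I : Mon L X V G} {J : Mon L Y V E} {XG : Ext G E Q} {XX : Ext X Y Q}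
  (H : Pr I J XG XX)

include H in
theorem Pr.act_eq (g : G) (v : V) : J.act (XG.ι g) v = I.act g v := by
  apply J.i_inj
  rw [J.act_spec, H.i_eq, H.i_eq, I.act_spec, H.j_eq, map_mul, map_mul, map_inv]

include H in
theorem Pr.V0_eq (P : Subgroup G) : J.V0 (P.map XG.ι) = I.V0 P := by
  ext v
  rw [J.mem_V0, I.mem_V0]
  constructor
  · intro h d hd
    rw [← H.act_eq]
    exact h _ ⟨d, hd, rfl⟩
  · rintro h _ ⟨d, hd, rfl⟩
    rw [H.act_eq]
    exact h d hd

include H in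
theorem Pr.map_eq (P : Subgroup G) : (P.map XG.ι).map J.j = (P.map I.j).map XX.ι := by
  rw [Subgroup.map_map, Subgroup.map_map]
  congr 1
  ext g
  exact H.j_eq g

include H in
/-- the automorphisms which belong to an element of `E` -/
theorem Pr.cg_j {e : E} {α : G ≃* G} (hα : XG.Cg e α) {α' : X ≃* X} (hα' : XX.Cg (J.j e) α') (g : G) :
    α' (I.j g) = I.j (α g) := by
  apply XX.inj
  rw [hα', ← H.j_eq, ← H.j_eq, hα, map_mul, map_mul, map_inv]

include H in
theorem Pr.cg_i {e : E} {α' : X ≃* X} (hα' : XX.Cg (J.j e) α') (v : V) :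
    α' (I.i v) = I.i (J.act e v) := by
  apply XX.inj
  rw [hα', ← H.i_eq, ← H.i_eq, J.act_spec]

end pr

theorem map_fix {G E Q : Type} [Group G] [Group E] [Group Q] (X : Ext G E Q) {e : E} {α : G ≃* G}
    (hα : X.Cg e α) {P : Subgroup G} :
    P.map α.toMonoidHom = P ↔ e ∈ Subgroup.normalizer ((P.map X.ι : Subgroup E) : Set E) := by
  have h1 : ∀ g, g ∈ P.map α.toMonoidHom ↔ e⁻¹ * X.ι g * e ∈ P.map X.ι := by
    intro g
    constructor
    · rintro ⟨g', hg', rfl⟩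
      change e⁻¹ * X.ι (α g') * e ∈ _
      rw [hα]
      refine ⟨g', hg', ?_⟩
      group
    · rintro ⟨g', hg', h⟩
      refine ⟨g', hg', X.inj ?_⟩
      change X.ι (α g') = _
      rw [hα, h]
      group
  rw [Subgroup.mem_normalizer_iff'']
  constructor
  · intro h x
    constructor
    · rintro ⟨g, hg, rfl⟩
      rw [← h] at hg
      exact (h1 g).mp hg
    · intro hx
      obtain ⟨g', hg', h3⟩ := hx
      have h4 : x = e * X.ι g' * e⁻¹ := by
        rw [h3]
        group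
      rw [h4, ← hα]
      refine ⟨α g', ?_, rfl⟩
      rw [← h]
      exact ⟨g', hg', rfl⟩
  · intro h
    ext g
    rw [h1, ← h]
    constructor
    · rintro ⟨g', hg', h2⟩
      rwa [← X.inj h2]
    · exact fun hg => ⟨g, hg, rfl⟩

/-- an automorphism which fixes the members of a chain maps the stabiliser to itself -/
theorem fix_NC {G : Type} [Group G] {α : G ≃* G} {C : Set (Subgroup G)}
    (hC : ∀ P ∈ C, P.map α.toMonoidHom = P) {n : G} (hn : n ∈ NC C) : α n ∈ NC C := by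
  rw [mem_NC] at hn ⊢
  intro P hP
  have h3 := hn P hP
  have h4 := hC P hP
  ext t
  rw [mem_cs]
  constructor
  · intro ht
    rw [← h4] at ht
    obtain ⟨a, ha, hat⟩ := ht
    change α a = _ at hat
    have h5 : t = α (n * a * n⁻¹) := by
      rw [map_mul, map_mul, hat, map_inv]
      group
    rw [h5, ← h4]
    refine ⟨_, ?_, rfl⟩
    rw [← h3]
    exact cs_mem.mpr ha
  · intro ht
    rw [← h4] at ht
    obtain ⟨a, ha, rfl⟩ := ht
    rw [← h3] at ha
    rw [← h4]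
    refine ⟨n⁻¹ * a * n, mem_cs.mp ha, ?_⟩
    change α (n⁻¹ * a * n) = (α n)⁻¹ * α a * α n
    rw [map_mul, map_mul, map_inv]

section vact

variable {L X V G Y E Q : Type} [CommRing L] [Group X] [Group V] [Group G] [Group Y] [Group E]
  [Group Q] {I : Mon L X V G} {J : Mon L Y V E} {XG : Ext G E Q} {XX : Ext X Y Q}
  (H : Pr I J XG XX) {C : Set (Subgroup G)} {e : E} {α : G ≃* G} (hα : XG.Cg e α)
  (hC : ∀ P ∈ C, P.map α.toMonoidHom = P)

include H hα hC in
theorem Pr.act_mem {v : V} (hv : v ∈ I.V0 (sSup C)) : J.act e v ∈ I.V0 (sSup C) := by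
  rw [I.V0_sSup] at hv ⊢
  intro P hP
  have h1 := (map_fix XG hα).mp (hC P hP)
  rw [← H.V0_eq]
  refine J.act_mem_V0 (P.map XG.ι) h1 ?_
  rw [H.V0_eq]
  exact hv P hP

include H hα hC in
theorem Pr.act_inv_mem {v : V} (hv : v ∈ I.V0 (sSup C)) : J.act e⁻¹ v ∈ I.V0 (sSup C) := by
  rw [I.V0_sSup] at hv ⊢
  intro P hP
  have h1 := (map_fix XG hα).mp (hC P hP)
  rw [← H.V0_eq]
  refine J.act_mem_V0 (P.map XG.ι) (inv_mem h1) ?_
  rw [H.V0_eq]
  exact hv P hP

/-- the automorphism of the fixed points in `V` which belongs to an element of `E` -/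
def Pr.gam : I.V0 (sSup C) ≃* I.V0 (sSup C) where
  toFun v := ⟨J.act e v, H.act_mem hα hC v.2⟩
  invFun v := ⟨J.act e⁻¹ v, H.act_inv_mem hα hC v.2⟩
  left_inv v := by
    apply Subtype.ext
    change J.act e⁻¹ (J.act e v) = v
    rw [← MulAut.mul_apply, ← map_mul, inv_mul_cancel, map_one]
    rfl
  right_inv v := by
    apply Subtype.ext
    change J.act e (J.act e⁻¹ v) = v
    rw [← MulAut.mul_apply, ← map_mul, mul_inv_cancel, map_one]
    rfl
  map_mul' v w := by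
    apply Subtype.ext
    exact map_mul (J.act e) (v : V) (w : V)

end vact

section key

variable {L X V G Y E Q : Type} [CommRing L] [Group X] [Group V] [Group G] [Group Y] [Group E]
  [Group Q] [Fintype X] [Fintype V] [Finite G] [Finite E] {I : Mon L X V G} {J : Mon L Y V E}
  {XG : Ext G E Q} {XX : Ext X Y Q} (H : Pr I J XG XX) {Ω : Type} [Field Ω] (s : L →+* Ω)
  (hs : Function.Injective s) {C : Set (Subgroup G)}
  (M : Mon Ω (KC (I.jS C)) (I.V0 (sSup C)) (KC C))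
  (hMi : ∀ (v : I.V0 (sSup C)) (n : NC (I.jS C)), (n : X) = I.i v → M.i v = pk (I.jS C) n)
  (hMj : ∀ (g : NC C) (n : NC (I.jS C)), (n : X) = I.j g → M.j (pk C g) = pk (I.jS C) n)
  (hMl : ∀ v : I.V0 (sSup C), ((M.lam v : Ωˣ) : Ω) = s (I.lam (v : V) : L))
  {u : Ω} (hu : u * (Fintype.card (I.V0 (sSup C)) : Ω) = 1)

include H in
theorem key2 {e : E} {α : G ≃* G} (hα : XG.Cg e α) (hC : ∀ P ∈ C, P.map α.toMonoidHom = P)
    {α' : X ≃* X} (hα' : XX.Cg (J.j e) α') : ∀ P ∈ I.jS C, P.map α'.toMonoidHom = P := by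
  rintro _ ⟨P, hP, rfl⟩
  rw [← hC P hP]
  ext x
  constructor
  · rintro ⟨_, ⟨_, ⟨g, hg, rfl⟩, rfl⟩, rfl⟩
    change α' (I.j (α g)) ∈ _
    rw [H.cg_j hα hα']
    refine ⟨α (α g), ⟨α g, ?_, rfl⟩, rfl⟩
    rw [← hC P hP]
    exact ⟨g, hg, rfl⟩
  · rintro ⟨_, ⟨g, hg, rfl⟩, rfl⟩
    have hg' := hg
    rw [← hC P hP] at hg'
    refine ⟨I.j g, ⟨g, hg', rfl⟩, ?_⟩
    exact H.cg_j hα hα' g

include H hMi hMj hMl hu in
theorem key1 {e : E} {α : G ≃* G} (hα : XG.Cg e α) (hC : ∀ P ∈ C, P.map α.toMonoidHom = P)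
    {β : KC C ≃* KC C} (hβ : IndK α C β) {α' : X ≃* X} (hα' : XX.Cg (J.j e) α')
    {β' : KC (I.jS C) ≃* KC (I.jS C)} (hβ' : IndK α' (I.jS C) β') {ε : MonoidAlgebra Ω (KC C)}
    (hε : IsBlock ε) : me Ω β' (M.cen u ε) = M.cen u (me Ω β ε) := by
  have hC' := key2 H hα hC hα'
  have hi : ∀ v : I.V0 (sSup C), I.i (v : V) ∈ NC (I.jS C) := by
    intro v
    have := I.form_mem_NC v.2 (NC C).one_mem
    rwa [map_one, mul_one] at this
  have hj : ∀ g : NC C, I.j (g : G) ∈ NC (I.jS C) := by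
    intro g
    have := I.form_mem_NC (I.V0 (sSup C)).one_mem g.2
    rwa [map_one, one_mul] at this
  refine cen_equiv M hu β' β (H.gam hα hC) ?_ ?_ ?_ hε
  · intro v
    rw [hMi v ⟨I.i (v : V), hi v⟩ rfl, hMi (H.gam hα hC v) ⟨I.i (H.gam hα hC v : V), hi _⟩ rfl]
    apply hβ'
    exact (H.cg_i hα' (v : V)).symm
  · intro x
    obtain ⟨g, rfl⟩ := pk_surj C x
    have hg : α (g : G) ∈ NC C := fix_NC hC g.2
    rw [hβ g ⟨α g, hg⟩ rfl, hMj g ⟨I.j (g : G), hj g⟩ rfl,
      hMj ⟨α g, hg⟩ ⟨I.j (α (g : G)), hj ⟨α g, hg⟩⟩ rfl]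
    apply hβ'
    exact (H.cg_j hα hα' (g : G)).symm
  · intro v
    apply Units.ext
    rw [hMl, hMl]
    have h1 : I.lam (H.gam hα hC v : V) = I.lam (v : V) := by
      change I.lam (J.act e (v : V)) = I.lam (v : V)
      rw [← H.lam_eq, ← H.lam_eq, J.lam_act]
    rw [h1]

variable {p : ℕ} [hp : Fact p.Prime] (hV : ¬ p ∣ Nat.card V)
  (hT : IsPGroup p (sSup C : Subgroup G)) (hCn : C.Nonempty)

include H hs hMi hMj hMl hu hV hT hCn in
theorem key3 {y : Y} {α : X ≃* X} (hα : XX.Cg y α) (hC : ∀ P ∈ I.jS C, P.map α.toMonoidHom = P)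
    {β : KC (I.jS C) ≃* KC (I.jS C)} (hβ : IndK α (I.jS C) β) {ε : MonoidAlgebra Ω (KC C)}
    (hε : IsBlock ε) (h : me Ω β (M.cen u ε) = M.cen u ε) :
    ∃ (x : NC (I.jS C)) (v : I.V0 (sSup C)) (e : E),
      XX.ι (x : X) * y = J.i (v : V) * J.j e ∧
        ∀ P ∈ C, e ∈ Subgroup.normalizer ((P.map XG.ι : Subgroup E) : Set E) := by
  obtain ⟨x', hx'⟩ := cen_mackey M hu β hε h
  obtain ⟨x, rfl⟩ := pk_surj _ x'
  -- the element normalises the images of the members of the chain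
  have hzN : ∀ P ∈ C, XX.ι (x : X) * y ∈ J.N (P.map XG.ι) := by
    intro P hP
    have h1 : y ∈ Subgroup.normalizer (((P.map I.j).map XX.ι : Subgroup Y) : Set Y) :=
      (map_fix XX hα).mp (hC _ ⟨P, hP, rfl⟩)
    have h2 : XX.Cg (XX.ι (x : X)) (MulAut.conj (x : X)) := by
      intro g
      rw [MulAut.conj_apply, map_mul, map_mul, map_inv]
    have h3 : XX.ι (x : X) ∈ Subgroup.normalizer (((P.map I.j).map XX.ι : Subgroup Y) : Set Y) :=
      (map_fix XX h2).mp (mem_NC.mp x.2 _ ⟨P, hP, rfl⟩)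
    have h4 := mul_mem h3 h1
    rw [← H.map_eq] at h4
    exact h4
  have hsup : sSup ((fun P => P.map XG.ι) '' C) = (sSup C).map XG.ι := by
    rw [sSup_image]
    exact ((Subgroup.gc_map_comap XG.ι).l_sSup (s := C)).symm
  have hzC : XX.ι (x : X) * y ∈ NC (J.jS ((fun P => P.map XG.ι) '' C)) := by
    rw [J.mem_NC_jS]
    rintro _ ⟨P, hP, rfl⟩
    exact hzN P hP
  have hzD := J.NC_jS_le _ hzC
  rw [hsup] at hzD
  -- the element is in the stabiliser
  have hzY : XX.ι (x : X) * y ∈ J.Y := by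
    by_contra hzY
    obtain ⟨v, v', h1, h2, h3, h4⟩ := J.mackey0 ((sSup C).map XG.ι) (hT.map XG.ι) hV hzD hzY
    rw [H.V0_eq] at h3 h4
    have h5 : I.i v' = (x : X) * α (I.i v) * (x : X)⁻¹ := by
      apply XX.inj
      rw [← H.i_eq, h1, map_mul, map_mul, map_inv, hα, ← H.i_eq]
      group
    have hvn : I.i v ∈ NC (I.jS C) := by
      have := I.form_mem_NC h3 (NC C).one_mem
      rwa [map_one, mul_one] at this
    have hvn' : I.i v' ∈ NC (I.jS C) := by
      have := I.form_mem_NC h4 (NC C).one_mem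
      rwa [map_one, mul_one] at this
    have hαn : α (I.i v) ∈ NC (I.jS C) := fix_NC hC hvn
    have e1 : M.i ⟨v, h3⟩ = pk (I.jS C) ⟨I.i v, hvn⟩ := hMi ⟨v, h3⟩ ⟨I.i v, hvn⟩ rfl
    have e2 : M.i ⟨v', h4⟩ = pk (I.jS C) ⟨I.i v', hvn'⟩ := hMi ⟨v', h4⟩ ⟨I.i v', hvn'⟩ rfl
    have e3 : β (pk (I.jS C) ⟨I.i v, hvn⟩) = pk (I.jS C) ⟨α (I.i v), hαn⟩ :=
      hβ ⟨I.i v, hvn⟩ ⟨α (I.i v), hαn⟩ rfl
    have e4 : M.i ⟨v', h4⟩ = pk (I.jS C) x * β (M.i ⟨v, h3⟩) * (pk (I.jS C) x)⁻¹ := by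
      rw [e1, e2, e3, ← map_inv, ← map_mul, ← map_mul]
      congr 1
      exact Subtype.ext h5
    have e5 := hx' ⟨v, h3⟩ ⟨v', h4⟩ e4
    have e6 : s (I.lam v' : L) = s (I.lam v : L) := by
      have a1 := hMl ⟨v, h3⟩
      have a2 := hMl ⟨v', h4⟩
      rw [← a1, ← a2, e5]
    apply h2
    rw [H.lam_eq, H.lam_eq]
    exact Units.ext (hs e6)
  obtain ⟨v, e, hve⟩ := hzY
  have hP : ∀ P ∈ C, v ∈ I.V0 P ∧
      e ∈ Subgroup.normalizer ((P.map XG.ι : Subgroup E) : Set E) := by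
    intro P hP
    have h1 := J.of_form_mem_N (P.map XG.ι) (v := v) (g := e) (by
      rw [hve]
      exact hzN P hP)
    rw [H.V0_eq] at h1
    exact h1
  exact ⟨x, ⟨v, I.V0_sSup.mpr fun P h => (hP P h).1⟩, e, hve.symm, fun P h => (hP P h).2⟩

include H hs hMi hMj hMl hu hV hT hCn in
/-- the stabilisers of corresponding characters are the same -/
theorem stabK_cen {ε : MonoidAlgebra Ω (KC C)} (hε : IsBlock ε) :
    stabK XX (I.jS C) (M.cen u ε) = stabK XG C ε := by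
  ext q
  constructor
  · rintro ⟨y, hy, α, hα, hC, β, hβ, h⟩
    obtain ⟨x, v, e, hz, hn⟩ := key3 H s hs M hMi hMj hMl hu hV hT hCn hα hC hβ hε h
    obtain ⟨αe, hαe⟩ := XG.exists_cg e
    obtain ⟨α', hα'⟩ := XX.exists_cg (J.j e)
    have hCe : ∀ P ∈ C, P.map αe.toMonoidHom = P := fun P hP => (map_fix XG hαe).mpr (hn P hP)
    have hC' := key2 H hαe hCe hα'
    obtain ⟨βe, hβe⟩ := exists_indK αe C hCe
    obtain ⟨β', hβ'⟩ := exists_indK α' (I.jS C) hC'
    refine ⟨e, ?_, αe, hαe, hCe, βe, hβe, ?_⟩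
    · rw [← H.π_eq]
      have h1 := congrArg XX.π hz
      rw [map_mul, map_mul, XX.π_ι, one_mul, H.i_eq, XX.π_ι, one_mul, hy] at h1
      exact h1.symm
    · have h1 := key1 H s M hMi hMj hMl hu hαe hCe hβe hα' hβ' hε
      have hcen : ∀ a, M.cen u ε * a = a * M.cen u ε := M.cen_comm hu hε.central
      -- the automorphisms differ by an inner one
      have hv : I.i (v : V) ∈ NC (I.jS C) := by
        have := I.form_mem_NC v.2 (NC C).one_mem
        rwa [map_one, mul_one] at this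
      have h2 : me Ω β (M.cen u ε) = me Ω β' (M.cen u ε) := by
        refine me_inner (pk (I.jS C) (x⁻¹ * ⟨I.i (v : V), hv⟩)) ?_ hcen
        intro a
        obtain ⟨n, rfl⟩ := pk_surj _ a
        have hm : α' (n : X) ∈ NC (I.jS C) := fix_NC hC' n.2
        rw [hβ' n ⟨α' n, hm⟩ rfl, ← map_inv, ← map_mul, ← map_mul]
        apply hβ
        change (x : X)⁻¹ * I.i (v : V) * α' n * ((x : X)⁻¹ * I.i (v : V))⁻¹ = α n
        apply XX.inj
        rw [hα, map_mul, map_mul, map_inv, map_mul, map_inv, hα', ← H.i_eq]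
        have h5 : y = (XX.ι (x : X))⁻¹ * (J.i (v : V) * J.j e) := by
          rw [← hz]
          group
        rw [h5]
        group
      apply M.cen_inj hu
      rw [← h1, ← h2, h]
  · rintro ⟨e, he, α, hα, hC, β, hβ, h⟩
    obtain ⟨α', hα'⟩ := XX.exists_cg (J.j e)
    have hC' := key2 H hα hC hα'
    obtain ⟨β', hβ'⟩ := exists_indK α' (I.jS C) hC'
    refine ⟨J.j e, (H.π_eq e).trans he, α', hα', hC', β', hβ', ?_⟩
    rw [key1 H s M hMi hMj hMl hu hα hC hβ hα' hβ' hε, h]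

end key

end Pool.Agent.H373.PD
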