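import Pool.Agent.H373.PD.F4

/-!
# Dade's invariant alternating sums: transfer
-/

set_option autoImplicit false
set_option linter.unusedSectionVars false
set_option linter.style.haveILetI false

open scoped BigOperators Classical

noncomputable section

namespace Pool.Agent.H373.PD

open Pool.Agent.H373.BU hiding Ind

open Pool.Agent.H373.MN

open MonoidAlgebra hiding coeff_sum

open IsLocalRing

section irk

variable {L : Type} [CommRing L] [IsLocalRing L] {Ω : Type} [Field Ω] {G E Q : Type} [Group G]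
  [Group E] [Group Q]

/-- the characters in the block `w` of defect `d` with the stabiliser `U` -/
def IrKU (p : ℕ) (s : L →+* Ω) (d : ℕ) (X : Ext G E Q) (U : Subgroup Q) (C : Set (Subgroup G))
    (w : MonoidAlgebra (ResidueField L) (KC C)) : Set (MonoidAlgebra Ω (KC C)) :=
  {ε | ε ∈ IrD p s d w ∧ stabK X C ε = (U : Set Q)}

theorem card_IrKU_kck (p : ℕ) (s : L →+* Ω) (d : ℕ) (X : Ext G E Q) (U : Subgroup Q) {g : G}
    {C₁ C₂ : Set (Subgroup G)} (h : Cj g C₁ C₂) (w : MonoidAlgebra (ResidueField L) (KC C₁)) :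
    Nat.card (IrKU p s d X U C₂ (me _ (kck h) w)) = Nat.card (IrKU p s d X U C₁ w) := by
  symm
  refine Nat.card_congr
    { toFun := fun ε => ⟨me Ω (kck h) ε, mem_IrD_me (kck h) ε.2.1, by
        rw [stabK_kck X h]
        exact ε.2.2⟩
      invFun := fun ε => ⟨me Ω (kck h).symm ε, by
        have := mem_IrD_me (kck h).symm ε.2.1
        rwa [me_symm_me] at this, by
        rw [← stabK_kck X h, me_me_symm]
        exact ε.2.2⟩
      left_inv := fun ε => Subtype.ext (me_symm_me (kck h) _)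
      right_inv := fun ε => Subtype.ext (me_me_symm (kck h) _) }

end irk

section eq

variable {L : Type} [CommRing L] [IsDomain L] [IsDiscreteValuationRing L]
  [IsAdicComplete (maximalIdeal L) L] {Ω : Type} [Field Ω] {G E Q : Type} [Group G] [Finite G]
  [Group E] [Group Q]

theorem card_IrU {p : ℕ} (s : L →+* Ω) (d : ℕ) (X : Ext G E Q) (U : Subgroup Q)
    {C : Set (Subgroup G)} (hC : sInf C = ⊥) (b : MonoidAlgebra L G) :
    Nat.card (IrU p s d X U C b) = ∑ᶠ w : SB C (red (rs L) b),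
      Nat.card (IrKU p s d X U C (w : MonoidAlgebra (ResidueField L) (KC C))) := by
  have hfin : ∀ w : MonoidAlgebra (ResidueField L) (KC C), Finite (IrKU p s d X U C w) :=
    fun w => finite_Ir fun ε h => h.1.1.choose_spec.2.2.1
  haveI : Finite (SB C (red (rs L) b)) := finite_Ir fun ε h => h.1
  haveI := Fintype.ofFinite (SB C (red (rs L) b))
  rw [finsum_eq_sum_of_fintype]
  have h1 : Nat.card (IrU p s d X U C b) = Nat.card (Σ w : SB C (red (rs L) b),
      IrKU p s d X U C (w : MonoidAlgebra (ResidueField L) (KC C))) := by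
    refine (Nat.card_congr (Equiv.ofBijective
      (fun t : (Σ w : SB C (red (rs L) b),
        IrKU p s d X U C (w : MonoidAlgebra (ResidueField L) (KC C))) =>
        (⟨me Ω (pkE hC).symm t.2, ?_⟩ : IrU p s d X U C b)) ⟨?_, ?_⟩)).symm
    · obtain ⟨⟨w, hw, hwb⟩, ⟨ε, ⟨⟨f, hf, hfw, hε⟩, hd⟩, hst⟩⟩ := t
      have h2 := mem_IrD_me (p := p) (s := s) (d := d) (pkE hC).symm (w := w) (ε := ε)
        ⟨⟨f, hf, hfw, hε⟩, hd⟩
      obtain ⟨⟨f', hf', hfw', hε'⟩, hd'⟩ := h2
      refine ⟨⟨⟨f', hf', ?_, hε'⟩, hd'⟩, ?_⟩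
      · rw [hfw']
        have h := congrArg (me (ResidueField L) (pkE hC).symm) hwb
        rw [map_mul] at h
        have h2 : me (ResidueField L) (pkE hC).symm (bq C (red (rs L) b)) =
          brc C (red (rs L) b) := me_symm_me (pkE hC) (brc C (red (rs L) b))
        rwa [h2] at h
      · rw [← stabK_pkE X hC, me_me_symm]
        exact hst
    · rintro ⟨⟨w, hw⟩, ⟨ε, ⟨⟨f, hf, hfw, hε⟩, hd⟩, hst⟩⟩
        ⟨⟨w', hw'⟩, ⟨ε', ⟨⟨f', hf', hfw', hε'⟩, hd'⟩, hst'⟩⟩ h
      have h2 : ε = ε' := (me Ω (pkE hC).symm).injective (congrArg Subtype.val h)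
      subst h2
      have h3 : f = f' := by
        apply blk_eq hf hf'
        intro h4
        apply hε.1.ne_zero
        rw [← hε'.2, ← hε.2, mul_assoc, ← map_mul, h4, map_zero, mul_zero]
      subst h3
      have h4 : w = w' := hfw.symm.trans hfw'
      subst h4
      rfl
    · rintro ⟨ε, ⟨⟨f, hf, hfb, hε⟩, hd⟩, hst⟩
      have hw : me (ResidueField L) (pkE hC) (red (rs L) f) ∈ SB C (red (rs L) b) := by
        refine ⟨me_isBlock _ (red_isBlock hf), ?_⟩
        have h := congrArg (me (ResidueField L) (pkE hC)) hfb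
        rw [map_mul] at h
        exact h
      refine ⟨⟨⟨_, hw⟩, ⟨me Ω (pkE hC) ε, mem_IrD_me (pkE hC) ⟨⟨f, hf, rfl, hε⟩, hd⟩, ?_⟩⟩, ?_⟩
      · rw [stabK_pkE X hC]
        exact hst
      · exact Subtype.ext (me_symm_me _ _)
  rw [h1]
  haveI : ∀ w : SB C (red (rs L) b),
      Finite (IrKU p s d X U C (w : MonoidAlgebra (ResidueField L) (KC C))) := fun w => hfin w
  haveI : ∀ w : SB C (red (rs L) b),
      Fintype (IrKU p s d X U C (w : MonoidAlgebra (ResidueField L) (KC C))) :=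
    fun w => Fintype.ofFinite _
  rw [Nat.card_sigma]

/-- the summands -/
def fU (p : ℕ) (s : L →+* Ω) (d : ℕ) (X : Ext G E Q) (U : Subgroup Q) (C : Set (Subgroup G))
    (w : MonoidAlgebra (ResidueField L) (KC C)) : ℤ :=
  (-1) ^ (C.ncard - 1) * (Nat.card (IrKU p s d X U C w) : ℤ)

theorem invSum_eq (p : ℕ) (s : L →+* Ω) (d : ℕ) (X : Ext G E Q) (U : Subgroup Q)
    (b : MonoidAlgebra L G) :
    invSum p s d X U b = chSum (pch p G) (red (rs L) b) (fU p s d X U) := by
  unfold invSum chSum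
  refine finsum_congr fun c => ?_
  rw [card_IrU s d X U (pch_sInf c.out.2)]
  haveI : Finite (SB (c.out : Set (Subgroup G)) (red (rs L) b)) := finite_Ir fun ε h => h.1
  haveI := Fintype.ofFinite (SB (c.out : Set (Subgroup G)) (red (rs L) b))
  rw [finsum_eq_sum_of_fintype, finsum_eq_sum_of_fintype, Nat.cast_sum, Finset.mul_sum]
  rfl

theorem fU_kck (p : ℕ) (s : L →+* Ω) (d : ℕ) (X : Ext G E Q) (U : Subgroup Q) (g : G)
    (C₁ C₂ : Set (Subgroup G)) (h : Cj g C₁ C₂) (w : MonoidAlgebra (ResidueField L) (KC C₁)) :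
    fU p s d X U C₂ (me _ (kck h) w) = fU p s d X U C₁ w := by
  unfold fU
  rw [card_IrKU_kck]
  unfold Cj at h
  rw [← h, Set.ncard_image_of_injective]
  exact fun P Q hPQ => by
    rw [← cs_inv_cs g P, hPQ, cs_inv_cs]

end eq

section main

variable {L : Type} [CommRing L] [IsDomain L] [IsDiscreteValuationRing L]
  [IsAdicComplete (maximalIdeal L) L] {p : ℕ} [hp : Fact p.Prime] [CharP (ResidueField L) p]
  {Ω : Type} [Field Ω] {X V G Y E Q : Type} [Group X] [Group V] [Group G] [Group Y] [Group E]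
  [Group Q] [Fintype X] [Fintype V] [Finite G] [Finite E] {I : Mon L X V G} {J : Mon L Y V E}
  {XG : Ext G E Q} {XX : Ext X Y Q} (H : Pr I J XG XX) {u : L}
  (hu : u * (Fintype.card V : L) = 1) (s : L →+* Ω) (hs : Function.Injective s)
  (hV : ¬ p ∣ Nat.card V)

include hs H in
theorem card_IrKU_lev {d : ℕ} (U : Subgroup Q) {C : Set (Subgroup G)} (hC : C.Nonempty)
    (hT : IsPGroup p (sSup C : Subgroup G)) (hlam : ∀ v, rs L (I.lam v : L) = 1 → I.lam v = 1)
    (hu1 : rs L u * (Fintype.card V : ResidueField L) = 1)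
    {w : MonoidAlgebra (ResidueField L) (KC C)} (hw : IsBlock w) :
    Nat.card (IrKU p s d XX U (I.jS C) (((I.map (rs L) hlam).lev C hC hT hV).cen (rs L u) w)) =
      Nat.card (IrKU p s d XG U C w) := by
  have hV0 : ¬ p ∣ Nat.card (I.V0 (sSup C)) :=
    fun h => hV (h.trans (Subgroup.card_subgroup_dvd_card _))
  have hVL : ∀ m : ℕ, ¬ p ∣ m → IsUnit ((m : ℕ) : L) := by
    intro m hm
    rw [← IsLocalRing.notMem_maximalIdeal, ← IsLocalRing.residue_eq_zero_iff, map_natCast,
      CharP.cast_eq_zero_iff (ResidueField L) p]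
    exact hm
  obtain ⟨u0, hu0⟩ := (isUnit_iff_exists_inv'.mp (hVL _ hV0))
  have hu0' : u0 * (Fintype.card (I.V0 (sSup C)) : L) = 1 := by
    rw [← Nat.card_eq_fintype_card, hu0]
  have hru : rs L u0 = rs L u := by
    have h1 : (Fintype.card V : ResidueField L) = (Nat.card (I.V0 (sSup C)) : ResidueField L) :=
      (I.map (rs L) hlam).card_V0 (sSup C) hT hV
    have h2 : rs L u0 * (Nat.card (I.V0 (sSup C)) : ResidueField L) = 1 := by
      rw [← map_natCast (rs L), ← map_mul, hu0, map_one]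
    have h3 : (Nat.card (I.V0 (sSup C)) : ResidueField L) ≠ 0 := by
      intro h
      rw [h, mul_zero] at h2
      exact zero_ne_one h2
    apply mul_right_cancel₀ h3
    rw [h2, ← h1, hu1]
  have hu' := Mon.hu_om hu0' s
  let M := I.lev C hC hT hV
  have hMi : ∀ (v : I.V0 (sSup C)) (n : NC (I.jS C)), (n : X) = I.i v →
      (M.om s hs).i v = pk (I.jS C) n := by
    intro v n hn
    change pk (I.jS C) ⟨I.i (v : V), _⟩ = _
    congr 1
    exact Subtype.ext hn.symm
  have hMj : ∀ (g : NC C) (n : NC (I.jS C)), (n : X) = I.j g →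
      (M.om s hs).j (pk C g) = pk (I.jS C) n := by
    intro g n hn
    have h1 : M.j (pk C g) = pk (I.jS C) ((I.norC C hT hV).j g) := Mon.quo_j _ _ _ _ _ _ _ _ _
    change M.j (pk C g) = _
    rw [h1]
    congr 1
    exact Subtype.ext hn.symm
  have hst : ∀ {ε : MonoidAlgebra Ω (KC C)}, IsBlock ε →
      stabK XX (I.jS C) ((M.om s hs).cen (s u0) ε) = stabK XG C ε := fun hε =>
    stabK_cen H s hs (M.om s hs) hMi hMj (fun v => rfl) hu' hV hT hC hε
  have key : Nat.card (IrKU p s d XX U (I.jS C)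
      ((M.map (rs L) (fun v hv => hlam (v : V) hv)).cen (rs L u0) w)) =
      Nat.card (IrKU p s d XG U C w) := by
    symm
    refine Nat.card_congr (Equiv.ofBijective
      (fun ε => ⟨(M.om s hs).cen (s u0) ε,
        M.mem_IrD_cen hu0' s hs hV0 (fun v hv => hlam (v : V) hv) ε.2.1, ?_⟩) ⟨?_, ?_⟩)
    · rw [hst ε.2.1.1.choose_spec.2.2.1]
      exact ε.2.2
    · intro a b h
      exact Subtype.ext ((M.om s hs).cen_inj hu' (congrArg Subtype.val h))
    · rintro ⟨ε', h, h'⟩
      obtain ⟨ε, hε, h1⟩ := M.IrD_cen_surj hu0' s hs hV0 (fun v hv => hlam (v : V) hv) hw h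
      rw [← h1, hst hε.1.choose_spec.2.2.1] at h'
      exact ⟨⟨ε, hε, h'⟩, Subtype.ext h1⟩
  rw [hru] at key
  exact key

include hu hs hV H in
/-- the alternating sums agree -/
theorem invSum_cen {d : ℕ} (U : Subgroup Q) {b : MonoidAlgebra L G} (hb : IsBlock b) :
    invSum p s d XX U (I.cen u b) = invSum p s d XG U b := by
  have hlam : ∀ v, rs L (I.lam v : L) = 1 → I.lam v = 1 := I.lam_red hV
  have hu1 : rs L u * (Fintype.card V : ResidueField L) = 1 := by
    rw [← map_natCast (rs L), ← map_mul, hu, map_one]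
  have hbr := red_isBlock hb
  rw [invSum_eq, invSum_eq, I.red_cen (rs L) hlam]
  refine (I.map (rs L) hlam).chSum_transfer hV hu1 (fun C hC => pch_prop hC)
    (fun C hC => pch_prop hC)
    (fun C => I.jS_pch C) (fun x C C' h hC => pch_conj h hC) hbr.central hbr.idem
    (fun C hC g h => pch_NC hC h)
    (fun C hC g h => pch_NC hC h) _ _ (fun g C₁ C₂ h w _ => fU_kck p s d XG U g C₁ C₂ h w)
    (fun g C₁ C₂ h w _ => fU_kck p s d XX U g C₁ C₂ h w) ?_
  intro C hC w hw
  have h1 := card_IrKU_lev H s hs hV U (d := d) (pch_prop hC).1 (pch_prop hC).2 hlam hu1 hw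
  have h3 : Nat.card (IrKU p s d XX U ((I.map (rs L) hlam).jS C)
      (((I.map (rs L) hlam).lev C (pch_prop hC).1 (pch_prop hC).2 hV).cen (rs L u) w)) =
      Nat.card (IrKU p s d XG U C w) := h1
  unfold fU
  rw [h3, (I.map (rs L) hlam).ncard_jS]

include H in
theorem reproI_of_pr (hV : ¬ p ∣ Nat.card V) (hu : u * (Fintype.card V : L) = 1)
    (s : L →+* Ω) (hs : Function.Injective s) : ReproI p s XG XX := by
  intro b hb
  have hlam : ∀ v, rs L (I.lam v : L) = 1 → I.lam v = 1 := I.lam_red hV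
  have hu1 : rs L u * (Fintype.card V : ResidueField L) = 1 := by
    rw [← map_natCast (rs L), ← map_mul, hu, map_one]
  have hred := red_isBlock hb
  haveI : Nonempty I.Q := ⟨QuotientGroup.mk 1⟩
  refine ⟨I.cen u b, I.cen_isBlock hu hb, ⟨Fintype.card I.Q, Fintype.card_pos, ⟨?_⟩⟩, ?_,
    ?_, fun d U => invSum_cen H hu s hs hV U hb⟩
  · exact ((Matrix.reindexAlgEquiv ℤ (BlockAlg hb) (Fintype.equivFin I.Q).symm).toRingEquiv).trans
      (I.blockEquiv hu hb)
  · intro D hD
    refine ⟨D.map I.j, ⟨hD.1.map I.j, ?_⟩, ⟨(D.equivMapOfInjective I.j I.j_inj).symm⟩⟩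
    rw [I.red_cen (rs L) hlam]
    exact (I.map (rs L) hlam).cen_isMinTr hu1 hred hD.2
  · rw [I.red_cen (rs L) hlam]
    exact not_congr ((I.map (rs L) hlam).isTr_cen_iff hu1 hred)

end main

end Pool.Agent.H373.PD
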