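import Pool.Agent.H373.MN.W1

/-!
# The group `PSL(2, q) ^ (H / C) ⋊ H`
-/

set_option autoImplicit false
set_option linter.unusedSectionVars false
set_option linter.style.haveILetI false

open scoped BigOperators Classical MatrixGroups

noncomputable section

namespace Pool.Agent.H373.PD

open Pool.Agent.H373.MN

/-- The group `PSL(2, q) ^ (H / C) ⋊ H`, where `H` permutes the factors, which are indexed by the cosets
of the subgroup `C`, by left multiplication. -/
def WX (q : ℕ) (H : Type) [Group H] (C : Subgroup H) : Type := Wr PSL(2, ZMod q) (H ⧸ C) H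

instance (q : ℕ) (H : Type) [Group H] (C : Subgroup H) : Group (WX q H C) :=
  (inferInstance : Group (Wr PSL(2, ZMod q) (H ⧸ C) H))

instance finite_WX (q : ℕ) (H : Type) [Group H] (C : Subgroup H) [NeZero q] [Finite H] :
    Finite (WX q H C) :=
  (inferInstance : Finite (Wr PSL(2, ZMod q) (H ⧸ C) H))

end Pool.Agent.H373.PD
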