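import Pool.Agent.H373.MN.D5
import Pool.Agent.H373.PD.Q2

/-!
# Wreath products with a central extension: the group `PSL(2, q) ^ (H / C) ⋊ H`
-/

set_option autoImplicit false
set_option linter.unusedSectionVars false
set_option linter.style.haveILetI false

open scoped BigOperators Classical MatrixGroups

noncomputable section

namespace Pool.Agent.H373.PD

open Pool.Agent.H373.MN

/-- the base group `M = PSL(2, q) ^ (H / C)` of `WX q H C` -/
def bas (q : ℕ) (H : Type) [Group H] (C : Subgroup H) : Subgroup (WX q H C) :=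
  (SemidirectProduct.inl : (H ⧸ C → PSL(2, ZMod q)) →* Wr PSL(2, ZMod q) (H ⧸ C) H).range

/-- the embedding of the subgroup `C` of `H` -/
def cenX (q : ℕ) (H : Type) [Group H] (C : Subgroup H) : Subgroup (WX q H C) :=
  C.map (SemidirectProduct.inr : H →* Wr PSL(2, ZMod q) (H ⧸ C) H)

section gen

theorem wx_smul {H : Type} [Group H] {C : Subgroup H} (hC : C ≤ Subgroup.center H) {c : H} (hc : c ∈ C) (w : H ⧸ C) : c • w = w := by
  induction w using QuotientGroup.induction_on with
  | H h =>
    change ((c * h : H) : H ⧸ C) = (h : H ⧸ C)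
    rw [QuotientGroup.eq, mul_inv_rev, mul_assoc]
    have h1 : c⁻¹ * h = h * c⁻¹ :=
      ((Subgroup.mem_center_iff.mp (hC (C.inv_mem hc))) h).symm
    rw [h1, inv_mul_cancel_left]
    exact C.inv_mem hc

theorem wx_mem {H : Type} [Group H] {C : Subgroup H} {h : H} (hh : h • ((1 : H) : H ⧸ C) = ((1 : H) : H ⧸ C)) : h ∈ C := by
  change ((h * 1 : H) : H ⧸ C) = ((1 : H) : H ⧸ C) at hh
  rw [mul_one, QuotientGroup.eq, mul_one] at hh
  have := C.inv_mem hh
  rwa [inv_inv] at this

theorem wx_fix {H : Type} [Group H] {C : Subgroup H} (hC : C ≤ Subgroup.center H) (h : H) :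
    h ∈ C ↔ ∀ w : H ⧸ C, h • w = w :=
  ⟨fun hh w => wx_smul hC hh w, fun hh => wx_mem (hh _)⟩

variable {T Ω H : Type} [Group T] [Group H] [MulAction H Ω] {C : Subgroup H}

theorem wx_comm (hx : ∀ h : H, h ∈ C ↔ ∀ w : Ω, h • w = w) {c : H} (hc : c ∈ C) (g : Ω → T) :
    (SemidirectProduct.inr c : Wr T Ω H) * SemidirectProduct.inl g =
      SemidirectProduct.inl g * SemidirectProduct.inr c := by
  have h1 := conj_inl (SemidirectProduct.inr c : Wr T Ω H) g
  have h2 : (fun ω => (SemidirectProduct.inr c : Wr T Ω H).left ω *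
      g ((SemidirectProduct.inr c : Wr T Ω H).right⁻¹ • ω) *
      ((SemidirectProduct.inr c : Wr T Ω H).left ω)⁻¹) = g := by
    funext ω
    rw [SemidirectProduct.left_inr, SemidirectProduct.right_inr, (hx _).1 (C.inv_mem hc) ω]
    simp
  rw [h2, mul_inv_eq_iff_eq_mul] at h1
  exact h1

/-- the centraliser of the base group -/
theorem wx_centralizer (hfx : ∀ h : H, h ∈ C ↔ ∀ w : Ω, h • w = w) (hT : Subgroup.center T = ⊥) [Nontrivial T] :
    Subgroup.centralizer ((SemidirectProduct.inl :
      (Ω → T) →* Wr T Ω H).range : Set (Wr T Ω H)) =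
      C.map (SemidirectProduct.inr : H →* Wr T Ω H) := by
  ext x
  constructor
  · intro hx
    rw [Subgroup.mem_centralizer_iff] at hx
    have h1 : ∀ (g : Ω → T) (ω : Ω),
        x.left ω * g (x.right⁻¹ • ω) * (x.left ω)⁻¹ = g ω := by
      intro g ω
      have h2 := hx (SemidirectProduct.inl g) ⟨g, rfl⟩
      have h3 : x * SemidirectProduct.inl g * x⁻¹ = SemidirectProduct.inl g := by
        rw [← h2, mul_inv_cancel_right]
      rw [conj_inl] at h3
      exact congrFun (SemidirectProduct.inl_injective h3) ω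
    have h3 : ∀ ω : Ω, x.right⁻¹ • ω = ω := by
      intro ω
      by_contra h
      obtain ⟨t, ht⟩ := exists_ne (1 : T)
      have h4 := h1 (Pi.mulSingle ω t) ω
      rw [Pi.mulSingle_eq_same, Pi.mulSingle_eq_of_ne h, mul_one, mul_inv_cancel] at h4
      exact ht h4.symm
    have h2 : x.right ∈ C := by
      have := C.inv_mem ((hfx _).2 h3)
      rwa [inv_inv] at this
    have h5 : x.left = 1 := by
      funext ω
      have h4 : x.left ω ∈ Subgroup.center T := by
        rw [Subgroup.mem_center_iff]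
        intro t
        have h5 := h1 (Pi.mulSingle ω t) ω
        rw [h3, Pi.mulSingle_eq_same] at h5
        rw [mul_inv_eq_iff_eq_mul] at h5
        exact h5.symm
      rw [hT] at h4
      exact h4
    exact ⟨x.right, h2, SemidirectProduct.ext h5.symm rfl⟩
  · rintro ⟨c, hc, rfl⟩
    rw [Subgroup.mem_centralizer_iff]
    rintro _ ⟨g, rfl⟩
    exact (wx_comm hfx hc g).symm

/-- the centre -/
theorem wx_center (hC : C ≤ Subgroup.center H) (hfx : ∀ h : H, h ∈ C ↔ ∀ w : Ω, h • w = w)
    (hT : Subgroup.center T = ⊥) [Nontrivial T] :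
    Subgroup.center (Wr T Ω H) = C.map (SemidirectProduct.inr : H →* Wr T Ω H) := by
  apply le_antisymm
  · rw [← wx_centralizer hfx hT]
    exact Subgroup.center_le_centralizer _
  · rintro _ ⟨c, hc, rfl⟩
    rw [Subgroup.mem_center_iff]
    intro x
    have h1 : x = SemidirectProduct.inl x.left * SemidirectProduct.inr x.right :=
      (SemidirectProduct.inl_left_mul_inr_right x).symm
    have h2 : (SemidirectProduct.inr c : Wr T Ω H) * SemidirectProduct.inr x.right =
        SemidirectProduct.inr x.right * SemidirectProduct.inr c := by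
      rw [← map_mul, ← map_mul, (Subgroup.mem_center_iff.mp (hC hc)) x.right]
    rw [h1, ← mul_assoc, wx_comm hfx hc, mul_assoc, mul_assoc, h2]

/-- A normal subgroup which is not central contains a factor of the base group. -/
theorem wx_factor (hfx : ∀ h : H, h ∈ C ↔ ∀ w : Ω, h • w = w) [IsSimpleGroup T] (hT : Subgroup.center T = ⊥)
    (N : Subgroup (Wr T Ω H)) (hN : N.Normal)
    (h : ¬ N ≤ C.map (SemidirectProduct.inr : H →* Wr T Ω H)) :
    ∃ ω : Ω, ∀ t : T, (SemidirectProduct.inl (Pi.mulSingle ω t) : Wr T Ω H) ∈ N := by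
  -- an element of the base group
  obtain ⟨f, hf1, hf⟩ : ∃ f : Ω → T, f ≠ 1 ∧
      (SemidirectProduct.inl f : Wr T Ω H) ∈ N := by
    obtain ⟨x, hx, hx1⟩ := SetLike.not_le_iff_exists.mp h
    rw [← wx_centralizer hfx hT, Subgroup.mem_centralizer_iff] at hx1
    push Not at hx1
    obtain ⟨_, ⟨g, rfl⟩, h3⟩ := hx1
    have h4 := conj_inl x g
    refine ⟨(fun ω => x.left ω * g (x.right⁻¹ • ω) * (x.left ω)⁻¹) * g⁻¹, ?_, ?_⟩
    · intro h5
      apply h3
      have h6 : x * SemidirectProduct.inl g * x⁻¹ * (SemidirectProduct.inl g)⁻¹ = 1 := by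
        rw [h4, ← map_inv, ← map_mul, h5, map_one]
      rw [mul_inv_eq_one, mul_inv_eq_iff_eq_mul] at h6
      exact h6.symm
    · rw [map_mul, ← h4, map_inv, mul_assoc, mul_assoc, ← mul_assoc (SemidirectProduct.inl g)]
      exact N.mul_mem hx (hN.conj_mem _ (N.inv_mem hx) _)
  obtain ⟨ω, hω⟩ : ∃ ω, f ω ≠ 1 := by
    by_contra h1
    push Not at h1
    exact hf1 (funext h1)
  refine ⟨ω, ?_⟩
  let S : Subgroup T := N.comap ((SemidirectProduct.inl : (Ω → T) →* Wr T Ω H).comp
    (MonoidHom.mulSingle (fun _ : Ω => T) ω))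
  have hS : ∀ t, t ∈ S ↔ (SemidirectProduct.inl (Pi.mulSingle ω t) : Wr T Ω H) ∈ N :=
    fun t => Iff.rfl
  haveI : S.Normal := inferInstance
  have h1 : S ≠ ⊥ := by
    intro h2
    have h3 : f ω ∉ Subgroup.center T := by
      rw [hT]
      exact fun h => hω (Subgroup.mem_bot.mp h)
    rw [Subgroup.mem_center_iff] at h3
    push Not at h3
    obtain ⟨s, hs⟩ := h3
    have h4 : s * f ω * s⁻¹ * (f ω)⁻¹ ∈ S := by
      rw [hS, ← conj_single]
      exact N.mul_mem (hN.conj_mem _ hf _) (N.inv_mem hf)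
    rw [h2, Subgroup.mem_bot, mul_inv_eq_one, mul_inv_eq_iff_eq_mul] at h4
    exact hs h4
  have h2 : S = ⊤ := (Subgroup.Normal.eq_bot_or_eq_top inferInstance).resolve_left h1
  intro t
  rw [← hS, h2]
  exact Subgroup.mem_top _

/-- the base group is contained in all normal subgroups which are not central -/
theorem wx_base_le (hfx : ∀ h : H, h ∈ C ↔ ∀ w : Ω, h • w = w) [IsSimpleGroup T] [Finite Ω]
    [MulAction.IsPretransitive H Ω]
    (hT : Subgroup.center T = ⊥) (N : Subgroup (Wr T Ω H)) (hN : N.Normal)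
    (h : ¬ N ≤ C.map (SemidirectProduct.inr : H →* Wr T Ω H)) :
    (SemidirectProduct.inl : (Ω → T) →* Wr T Ω H).range ≤ N := by
  obtain ⟨ω, hω⟩ := wx_factor hfx hT N hN h
  rintro _ ⟨f, rfl⟩
  let K : Subgroup (Ω → T) := N.comap SemidirectProduct.inl
  have h2 : f ∈ K := by
    refine Submonoid.pi_mem_of_mulSingle_mem f fun ω' => ?_
    obtain ⟨a, ha⟩ := MulAction.exists_smul_eq H ω ω'
    change (SemidirectProduct.inl (Pi.mulSingle ω' (f ω')) : Wr T Ω H) ∈ N
    rw [← ha, ← factor_move]
    exact hN.conj_mem _ (hω _) _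
  exact h2

end gen

section struct

variable {q : ℕ} [hq : Fact q.Prime] (h7 : 7 < q) {H : Type} [Group H] [Finite H]
  {C : Subgroup H} (hC : C ≤ Subgroup.center H)

include h7 hC in
/-- the centraliser of the base group and the centre -/
theorem centralizer_bas : Subgroup.centralizer (bas q H C : Set (WX q H C)) = cenX q H C ∧
    Subgroup.center (WX q H C) = cenX q H C := by
  haveI := simple_psl h7
  have hZ := center_simple (not_solvable_psl h7)
  exact ⟨wx_centralizer (wx_fix hC) hZ, wx_center hC (wx_fix hC) hZ⟩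

include h7 hC in
/-- every normal subgroup is contained in the centre or contains the base group -/
theorem normal_WX (N : Subgroup (WX q H C)) (hN : N.Normal) :
    N ≤ Subgroup.center (WX q H C) ∨ bas q H C ≤ N := by
  haveI := simple_psl h7
  have hZ := center_simple (not_solvable_psl h7)
  by_cases h : N ≤ Subgroup.center (WX q H C)
  · exact Or.inl h
  · right
    rw [(centralizer_bas h7 hC).2] at h
    exact wx_base_le (wx_fix hC) hZ N hN h

include h7 hC in
/-- the normal `p`-subgroups are central -/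
theorem core_WX {p : ℕ} [Fact p.Prime] (N : Subgroup (WX q H C)) (hN : N.Normal)
    (hp : IsPGroup p N) : N ≤ Subgroup.center (WX q H C) := by
  rcases normal_WX h7 hC N hN with h | h
  · exact h
  · exfalso
    haveI := simple_psl h7
    haveI : NeZero q := ⟨hq.out.ne_zero⟩
    haveI : Finite (WX q H C) := finite_WX q H C
    haveI : Finite N := Subtype.finite
    have hs : Group.IsSolvable N := @IsNilpotent.to_isSolvable _ _ hp.isNilpotent
    let ω : H ⧸ C := ((1 : H) : H ⧸ C)
    have hω : ∀ t : PSL(2, ZMod q), (SemidirectProduct.inl (Pi.mulSingle ω t) :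
        Wr PSL(2, ZMod q) (H ⧸ C) H) ∈ N := fun t => h ⟨_, rfl⟩
    let φ : PSL(2, ZMod q) →* N :=
      { toFun := fun t => ⟨(SemidirectProduct.inl (Pi.mulSingle ω t) :
          Wr PSL(2, ZMod q) (H ⧸ C) H), hω t⟩
        map_one' := Subtype.ext (by
          change (SemidirectProduct.inl (Pi.mulSingle ω 1) : Wr PSL(2, ZMod q) (H ⧸ C) H) = 1
          rw [Pi.mulSingle_one, map_one])
        map_mul' := fun a b => Subtype.ext (by
          change (SemidirectProduct.inl (Pi.mulSingle ω (a * b)) :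
            Wr PSL(2, ZMod q) (H ⧸ C) H) = _
          rw [Pi.mulSingle_mul, map_mul]
          rfl) }
    have hφ : Function.Injective φ := by
      intro a b hab
      have h1 := congrArg Subtype.val hab
      exact Pi.mulSingle_injective ω (SemidirectProduct.inl_injective h1)
    exact not_solvable_psl h7 (Group.isSolvable_of_isSolvable_injective hφ)

instance bas_normal : (bas q H C).Normal := by
  have h : ((SemidirectProduct.inl : (H ⧸ C → PSL(2, ZMod q)) →*
      Wr PSL(2, ZMod q) (H ⧸ C) H).range).Normal := by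
    rw [SemidirectProduct.range_inl_eq_ker_rightHom]
    infer_instance
  exact h

/-- the base group and the quotient -/
theorem bas_equiv : Nonempty (bas q H C ≃* (Fin C.index → PSL(2, ZMod q))) ∧
    Nonempty (WX q H C ⧸ bas q H C ≃* H) := by
  constructor
  · have e : (SemidirectProduct.inl : (H ⧸ C → PSL(2, ZMod q)) →*
        Wr PSL(2, ZMod q) (H ⧸ C) H).range ≃* (H ⧸ C → PSL(2, ZMod q)) :=
      (MonoidHom.ofInjective SemidirectProduct.inl_injective).symm
    have e2 : (H ⧸ C) ≃ Fin C.index := Finite.equivFinOfCardEq rfl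
    refine ⟨(show bas q H C ≃* (H ⧸ C → PSL(2, ZMod q)) from e).trans ?_⟩
    exact
      { toEquiv := Equiv.arrowCongr e2 (Equiv.refl _)
        map_mul' := fun _ _ => rfl }
  · obtain ⟨Φ, hΦ⟩ : ∃ Φ : WX q H C →* H, Φ =
        (SemidirectProduct.rightHom : Wr PSL(2, ZMod q) (H ⧸ C) H →* H) := ⟨_, rfl⟩
    have hs : Function.Surjective Φ := by
      rw [hΦ]
      exact SemidirectProduct.rightHom_surjective
    have hk : bas q H C = Φ.ker := by
      rw [hΦ]
      exact SemidirectProduct.range_inl_eq_ker_rightHom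
    exact ⟨(QuotientGroup.quotientMulEquivOfEq hk).trans
        (QuotientGroup.quotientKerEquivOfSurjective Φ hs)⟩

include h7 hC in
/-- the quotient by the centre is the regular wreath product of `PSL(2, q)` and `H / C` -/
theorem quot_WX (hn : C.Normal) : Nonempty ((WX q H C ⧸ Subgroup.center (WX q H C)) ≃*
    Wr PSL(2, ZMod q) (H ⧸ C) (H ⧸ C)) := by
  have hcomp : ∀ g : H, (MonoidHom.id (H ⧸ C → PSL(2, ZMod q))).comp
      (pact PSL(2, ZMod q) (H ⧸ C) H g).toMonoidHom =
      (pact PSL(2, ZMod q) (H ⧸ C) (H ⧸ C) (QuotientGroup.mk' C g)).toMonoidHom.comp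
        (MonoidHom.id _) := by
    intro g
    ext f ω
    change f (g⁻¹ • ω) = f ((QuotientGroup.mk' C g)⁻¹ * ω)
    obtain ⟨x, rfl⟩ := QuotientGroup.mk_surjective ω
    rfl
  obtain ⟨Φ, hΦl, hΦr⟩ : ∃ Φ : WX q H C →* Wr PSL(2, ZMod q) (H ⧸ C) (H ⧸ C),
      (∀ x : Wr PSL(2, ZMod q) (H ⧸ C) H, (Φ x).left = x.left) ∧
      (∀ x : Wr PSL(2, ZMod q) (H ⧸ C) H, (Φ x).right = QuotientGroup.mk' C x.right) :=
    ⟨SemidirectProduct.map (MonoidHom.id _) (QuotientGroup.mk' C) hcomp,
      fun _ => rfl, fun _ => rfl⟩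
  have hsurj : Function.Surjective Φ := by
    intro y
    obtain ⟨h, hh⟩ := QuotientGroup.mk'_surjective C y.right
    refine ⟨(⟨y.left, h⟩ : Wr PSL(2, ZMod q) (H ⧸ C) H), ?_⟩
    refine SemidirectProduct.ext ?_ ?_
    · rw [hΦl]
    · rw [hΦr]
      exact hh
  have hker : Subgroup.center (WX q H C) = Φ.ker := by
    rw [(centralizer_bas h7 hC).2]
    ext x
    rw [MonoidHom.mem_ker]
    constructor
    · rintro ⟨c, hc, rfl⟩
      refine SemidirectProduct.ext ?_ ?_
      · exact (hΦl _).trans rfl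
      · exact (hΦr _).trans ((QuotientGroup.eq_one_iff c).mpr hc)
    · intro hx
      have h1 := hΦl x
      have h2 := hΦr x
      rw [hx] at h1 h2
      refine ⟨SemidirectProduct.right (x : Wr PSL(2, ZMod q) (H ⧸ C) H), ?_, ?_⟩
      · exact (QuotientGroup.eq_one_iff _).mp h2.symm
      · refine SemidirectProduct.ext ?_ rfl
        exact h1
  exact ⟨(QuotientGroup.quotientMulEquivOfEq hker).trans
    (QuotientGroup.quotientKerEquivOfSurjective Φ hsurj)⟩

include h7 hC in
/-- the quotient by the centre is a primitive permutation group -/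
theorem primitive_WX : IsPrimitiveGroup (WX q H C ⧸ Subgroup.center (WX q H C)) := by
  haveI : NeZero q := ⟨hq.out.ne_zero⟩
  haveI : Finite (WX q H C) := finite_WX q H C
  haveI := simple_psl h7
  have hZ := center_simple (not_solvable_psl h7)
  have hcen := (centralizer_bas h7 hC).2
  refine isPrimitiveGroup_of ((bas q H C).map (QuotientGroup.mk' (Subgroup.center (WX q H C))))
    (fun N hN h => ?_) ?_
  · haveI := hN
    have h1 : (N.comap (QuotientGroup.mk' (Subgroup.center (WX q H C)))).Normal := inferInstance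
    rcases normal_WX h7 hC _ h1 with h2 | h2
    · exfalso
      apply h
      rw [eq_bot_iff]
      intro y hy
      obtain ⟨x, rfl⟩ := QuotientGroup.mk'_surjective _ y
      rw [Subgroup.mem_bot]
      exact (QuotientGroup.eq_one_iff x).mpr (h2 hy)
    · exact Subgroup.map_le_iff_le_comap.mpr h2
  · intro h1
    apply not_solvable_psl h7
    let ω : H ⧸ C := ((1 : H) : H ⧸ C)
    let ψ : PSL(2, ZMod q) →* WX q H C :=
      (SemidirectProduct.inl : (H ⧸ C → PSL(2, ZMod q)) →* Wr PSL(2, ZMod q) (H ⧸ C) H).comp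
        (MonoidHom.mulSingle (fun _ : H ⧸ C => PSL(2, ZMod q)) ω)
    let φ : PSL(2, ZMod q) →*
        (bas q H C).map (QuotientGroup.mk' (Subgroup.center (WX q H C))) :=
      ((QuotientGroup.mk' (Subgroup.center (WX q H C))).comp ψ).codRestrict _ fun t =>
        ⟨ψ t, ⟨_, rfl⟩, rfl⟩
    have hφ : Function.Injective φ := by
      rw [injective_iff_map_eq_one]
      intro t ht
      have h2 : (QuotientGroup.mk' (Subgroup.center (WX q H C))) (ψ t) = 1 :=
        congrArg Subtype.val ht
      have h3 : ψ t ∈ Subgroup.center (WX q H C) := (QuotientGroup.eq_one_iff _).mp h2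
      rw [hcen] at h3
      obtain ⟨c, -, hc⟩ := h3
      have h4 := congrArg SemidirectProduct.left hc
      have h5 : (1 : H ⧸ C → PSL(2, ZMod q)) = Pi.mulSingle ω t := h4
      have h6 := congrFun h5 ω
      rw [Pi.mulSingle_eq_same] at h6
      exact h6.symm
    exact Group.isSolvable_of_isSolvable_injective hφ

include h7 in
theorem three_reg {Q : Type} [Group Q] [Finite Q] [IsSimpleGroup Q] :
    Nat.card {N : Subgroup (Wr PSL(2, ZMod q) Q Q) // N.Normal} = 3 := by
  haveI := simple_psl h7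
  have hZ := center_simple (not_solvable_psl h7)
  haveI hN : ((SemidirectProduct.inl : (Q → PSL(2, ZMod q)) →*
      Wr PSL(2, ZMod q) Q Q).range).Normal := by
    rw [SemidirectProduct.range_inl_eq_ker_rightHom]
    infer_instance
  have h1 : ((SemidirectProduct.inl : (Q → PSL(2, ZMod q)) →*
      Wr PSL(2, ZMod q) Q Q).range) ≠ ⊥ := by
    intro h1
    obtain ⟨t, ht⟩ := exists_ne (1 : PSL(2, ZMod q))
    have h2 : (SemidirectProduct.inl (fun _ => t) : Wr PSL(2, ZMod q) Q Q) = 1 := by
      rw [← Subgroup.mem_bot, ← h1]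
      exact ⟨_, rfl⟩
    have h3 := SemidirectProduct.inl_injective (h2.trans (map_one SemidirectProduct.inl).symm)
    exact ht (congrFun h3 1)
  have h2 : ((SemidirectProduct.inl : (Q → PSL(2, ZMod q)) →*
      Wr PSL(2, ZMod q) Q Q).range) ≠ ⊤ := by
    intro h2
    obtain ⟨a, ha⟩ := exists_ne (1 : Q)
    have h3 : (SemidirectProduct.inr a : Wr PSL(2, ZMod q) Q Q) ∈
        (SemidirectProduct.inl : (Q → PSL(2, ZMod q)) →* Wr PSL(2, ZMod q) Q Q).range := by
      rw [h2]
      exact Subgroup.mem_top _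
    obtain ⟨f, hf⟩ := h3
    exact ha (congrArg SemidirectProduct.right hf).symm
  have h3 : {N : Subgroup (Wr PSL(2, ZMod q) Q Q) | N.Normal} =
      {⊥, (SemidirectProduct.inl : (Q → PSL(2, ZMod q)) →* Wr PSL(2, ZMod q) Q Q).range, ⊤} := by
    ext N
    constructor
    · exact fun hN => normal_subgroups hZ N hN
    · rintro (rfl | rfl | rfl)
      · exact (inferInstance : (⊥ : Subgroup (Wr PSL(2, ZMod q) Q Q)).Normal)
      · exact hN
      · exact (inferInstance : (⊤ : Subgroup (Wr PSL(2, ZMod q) Q Q)).Normal)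
  have h4 : Set.ncard {N : Subgroup (Wr PSL(2, ZMod q) Q Q) | N.Normal} = 3 := by
    rw [h3]
    refine Set.ncard_eq_three.mpr ⟨_, _, _, h1.symm, ?_, h2, rfl⟩
    intro h5
    exact h1 (le_antisymm (by rw [h5]; exact le_top) bot_le)
  exact h4

include h7 hC in
/-- if `H / C` is simple, the quotient by the centre has exactly three normal subgroups -/
theorem three_WX (hn : C.Normal) (hs : IsSimpleGroup (H ⧸ C)) :
    Nat.card {N : Subgroup (WX q H C ⧸ Subgroup.center (WX q H C)) // N.Normal} = 3 := by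
  obtain ⟨e⟩ := quot_WX h7 hC hn
  rw [← three_reg h7 (Q := H ⧸ C)]
  refine Nat.card_congr
    { toFun := fun N => ⟨N.1.map e.toMonoidHom, N.2.map _ e.surjective⟩
      invFun := fun N => ⟨N.1.map e.symm.toMonoidHom, N.2.map _ e.symm.surjective⟩
      left_inv := fun N => Subtype.ext ?_
      right_inv := fun N => Subtype.ext ?_ }
  · ext x
    constructor
    · rintro ⟨_, ⟨y, hy, rfl⟩, rfl⟩
      change e.symm (e y) ∈ N.1
      rwa [MulEquiv.symm_apply_apply]
    · exact fun hx => ⟨e x, ⟨x, hx, rfl⟩, e.symm_apply_apply x⟩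
  · ext x
    constructor
    · rintro ⟨_, ⟨y, hy, rfl⟩, rfl⟩
      change e (e.symm y) ∈ N.1
      rwa [MulEquiv.apply_symm_apply]
    · exact fun hx => ⟨e.symm x, ⟨x, hx, rfl⟩, e.apply_symm_apply x⟩

include h7 in
theorem perfect_WX (hp : commutator H = ⊤) : commutator (WX q H C) = ⊤ := by
  have key : ∀ {A : Type} [Group A] (φ : A →* WX q H C), commutator A = ⊤ →
      ∀ a, φ a ∈ commutator (WX q H C) := by
    intro A _ φ hA a
    have h1 : commutator A ≤ (commutator (WX q H C)).comap φ := by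
      rw [commutator_def, Subgroup.commutator_le]
      intro g₁ _ g₂ _
      rw [Subgroup.mem_comap, map_commutatorElement, commutator_def]
      exact Subgroup.commutator_mem_commutator (Subgroup.mem_top _) (Subgroup.mem_top _)
    rw [hA] at h1
    exact h1 (Subgroup.mem_top a)
  rw [eq_top_iff]
  intro x _
  have h1 : ∀ f : H ⧸ C → PSL(2, ZMod q),
      (SemidirectProduct.inl f : Wr PSL(2, ZMod q) (H ⧸ C) H) ∈ commutator (WX q H C) := by
    intro f
    let K : Subgroup (H ⧸ C → PSL(2, ZMod q)) := (commutator (WX q H C)).comap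
      (SemidirectProduct.inl : (H ⧸ C → PSL(2, ZMod q)) →* Wr PSL(2, ZMod q) (H ⧸ C) H)
    have h2 : f ∈ K := by
      refine Submonoid.pi_mem_of_mulSingle_mem f fun ω => ?_
      exact key ((SemidirectProduct.inl : (H ⧸ C → PSL(2, ZMod q)) →*
        Wr PSL(2, ZMod q) (H ⧸ C) H).comp
          (MonoidHom.mulSingle (fun _ : H ⧸ C => PSL(2, ZMod q)) ω)) (perfect_psl h7) (f ω)
    exact h2
  have h2 : ∀ h : H, (SemidirectProduct.inr h : Wr PSL(2, ZMod q) (H ⧸ C) H) ∈
      commutator (WX q H C) := fun h => key (SemidirectProduct.inr : H →*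
        Wr PSL(2, ZMod q) (H ⧸ C) H) hp h
  have h3 : x = (SemidirectProduct.inl (SemidirectProduct.left x) *
      SemidirectProduct.inr (SemidirectProduct.right x) : Wr PSL(2, ZMod q) (H ⧸ C) H) :=
    (SemidirectProduct.inl_left_mul_inr_right x).symm
  rw [h3]
  exact (commutator (WX q H C)).mul_mem (h1 _) (h2 _)

end struct

end Pool.Agent.H373.PD
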