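import Pool.Agent.H373.MN.W6
import Pool.Agent.H373.PD.Q10

/-!
# Regular wreath products and their extensions
-/

set_option autoImplicit false
set_option linter.unusedSectionVars false
set_option linter.style.haveILetI false

open scoped BigOperators Classical MatrixGroups

noncomputable section

namespace Pool.Agent.H373.PD

open Pool.Agent.H373.BU hiding Ind

open Pool.Agent.H373.MN

open IsLocalRing

/-- The regular wreath product `X_n = PSL(2, q) ^ (A_n) ⋊ A_n` of `PSL(2, q)` and the alternating group
of degree `n`. -/
def XR (n q : ℕ) : Type :=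
  Wr PSL(2, ZMod q) (alternatingGroup (Fin n)) (alternatingGroup (Fin n))

instance (n q : ℕ) : Group (XR n q) :=
  (inferInstance :
    Group (Wr PSL(2, ZMod q) (alternatingGroup (Fin n)) (alternatingGroup (Fin n))))

instance finite_XR (n q : ℕ) [NeZero q] : Finite (XR n q) :=
  (inferInstance :
    Finite (Wr PSL(2, ZMod q) (alternatingGroup (Fin n)) (alternatingGroup (Fin n))))

section defs

variable {G E Q : Type} [Group G] [Group E] [Group Q]

/-- The exact sequence `1 → G → E → Q → 1` splits and `C_E(G) = 1`. So `E = G ⋊ Q`, and all elements of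
`Q` except the neutral element act on `G` as outer automorphisms. -/
def Ext.Outer (X : Ext G E Q) : Prop :=
  (∃ σ : Q →* E, ∀ q, X.π (σ q) = q) ∧ ∀ e : E, (∀ g, e * X.ι g = X.ι g * e) → e = 1

end defs

/-- For `n ≥ 5` the group `X_n` is a primitive permutation group with exactly three normal subgroups and
`O_p(X_n) = 1`. -/
def FamR (p q : ℕ) : Prop :=
  ∀ n, 5 ≤ n → PrimitiveThree (XR n q) ∧ NoCore p (XR n q)

section defs

variable {L : Type} [CommRing L] [IsDomain L] [IsDiscreteValuationRing L] {W : Type} [Field W]

/-- For all extensions `1 → G → E → Q → 1` of finite groups and `n ≥ 6 (|E| + |Q|)` there is a split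
extension `1 → X_n → Y → Q → 1` with `C_Y(X_n) = 1`, such that the blocks of `G` and Dade's sums are
reproduced by blocks of `X_n`. -/
def ReproAllI (p q : ℕ) (s : L →+* W) : Prop :=
  ∀ (G E Q : Type) [Group G] [Group E] [Group Q] [Finite E] (X : Ext G E Q) (n : ℕ),
    6 * (Nat.card E + Nat.card Q) ≤ n → ∃ (Y : Type) (_ : Group Y) (_ : Finite Y)
      (X' : Ext (XR n q) Y Q), X'.Outer ∧ ReproI p s X X'

end defs

end Pool.Agent.H373.PD
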