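import Pool.Agent.H373.PD.F1
import Pool.Agent.H373.PD.F5
import Pool.Agent.H373.PD.P5
import Pool.Agent.H373.PD.Q11

/-!
# The extensions of the regular wreath products
-/

set_option autoImplicit false
set_option linter.unusedSectionVars false
set_option linter.style.haveILetI false

open scoped BigOperators Classical MatrixGroups

noncomputable section

namespace Pool.Agent.H373.PD

open Pool.Agent.H373.BU hiding Ind

open Pool.Agent.H373.MN

open IsLocalRing

/-- the group `A` as a set on which `A × Q` acts -/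
def Rg {A Q : Type} [Group A] [Group Q] (_c : Q →* A) : Type := A

section rg

variable {A Q : Type} [Group A] [Group Q] (c : Q →* A)

instance [Fintype A] : Fintype (Rg c) := (inferInstance : Fintype A)

instance [Finite A] : Finite (Rg c) := (inferInstance : Finite A)

instance : MulAction (A × Q) (Rg c) where
  smul h y := (h.1 * (show A from y) * (c h.2)⁻¹ : A)
  one_smul y := by
    change (1 : A) * (show A from y) * (c 1)⁻¹ = y
    rw [map_one, inv_one, mul_one, one_mul]
  mul_smul h h' y := by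
    change (h.1 * h'.1) * (show A from y) * (c (h.2 * h'.2))⁻¹ =
      h.1 * (h'.1 * (show A from y) * (c h'.2)⁻¹) * (c h.2)⁻¹
    rw [map_mul]
    group

theorem rg_smul (h : A × Q) (y : A) :
    h • (show Rg c from y) = (h.1 * y * (c h.2)⁻¹ : A) := rfl

variable (T : Type) [Group T]

/-- the embedding of the regular wreath product -/
def rgι : Wr T A A →* Wr T (Rg c) (A × Q) :=
  SemidirectProduct.map (N₁ := A → T) (N₂ := Rg c → T) (MonoidHom.id (A → T)) (MonoidHom.inl A Q)
    (fun g => by
      ext f ω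
      change f (g⁻¹ * (show A from ω)) = f ((g : A)⁻¹ * (show A from ω) * (c (1 : Q)⁻¹)⁻¹)
      rw [inv_one, map_one, inv_one, mul_one])

theorem rgι_left (x : Wr T A A) : (rgι c T x).left = x.left := rfl

theorem rgι_right (x : Wr T A A) : (rgι c T x).right = (x.right, 1) := rfl

/-- the extension -/
def rgE : Ext (Wr T A A) (Wr T (Rg c) (A × Q)) Q where
  ι := rgι c T
  π := (MonoidHom.snd A Q).comp SemidirectProduct.rightHom
  inj := by
    intro x y h
    have h1 := congrArg SemidirectProduct.left h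
    have h2 := congrArg SemidirectProduct.right h
    rw [rgι_right, rgι_right] at h2
    exact SemidirectProduct.ext h1 (congrArg Prod.fst h2)
  surj := by
    intro q
    exact ⟨SemidirectProduct.inr (1, q), rfl⟩
  exact := by
    ext y
    constructor
    · rintro ⟨x, rfl⟩
      rfl
    · intro h
      refine ⟨⟨y.left, y.right.1⟩, ?_⟩
      refine SemidirectProduct.ext rfl ?_
      rw [rgι_right]
      exact Prod.ext rfl h.symm

theorem outer_rgE (hA : Subgroup.center A = ⊥) (hc : Function.Injective c)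
    (hT : Subgroup.center T = ⊥) [Nontrivial T] : (rgE c T).Outer := by
  refine ⟨⟨SemidirectProduct.inr.comp (MonoidHom.inr A Q), fun q => rfl⟩, fun e he => ?_⟩
  haveI : FaithfulSMul (A × Q) (Rg c) := by
    refine ⟨fun {a b} h => ?_⟩
    have h0 : ∀ y : A, a.1 * y * (c a.2)⁻¹ = b.1 * y * (c b.2)⁻¹ := fun y => h y
    have h1 : ∀ y : A, (b.1⁻¹ * a.1) * y = y * ((c b.2)⁻¹ * c a.2) := by
      intro y
      have h2 := h0 y
      calc (b.1⁻¹ * a.1) * y = b.1⁻¹ * (a.1 * y * (c a.2)⁻¹) * c a.2 := by group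
        _ = b.1⁻¹ * (b.1 * y * (c b.2)⁻¹) * c a.2 := by rw [h2]
        _ = _ := by group
    have h2 : b.1⁻¹ * a.1 = (c b.2)⁻¹ * c a.2 := by
      have := h1 1
      rwa [mul_one, one_mul] at this
    have h3 : b.1⁻¹ * a.1 ∈ Subgroup.center A := by
      rw [Subgroup.mem_center_iff]
      intro y
      rw [h1, h2]
    rw [hA, Subgroup.mem_bot] at h3
    refine Prod.ext (inv_mul_eq_one.mp h3).symm (hc ?_)
    rw [h3] at h2
    exact (inv_mul_eq_one.mp h2.symm).symm
  have h1 : e ∈ Subgroup.centralizer ((SemidirectProduct.inl : (Rg c → T) →*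
      Wr T (Rg c) (A × Q)).range : Set (Wr T (Rg c) (A × Q))) := by
    rw [Subgroup.mem_centralizer_iff]
    rintro _ ⟨f, rfl⟩
    exact (he (SemidirectProduct.inl (show A → T from f))).symm
  rw [centralizer_base hT, Subgroup.mem_bot] at h1
  exact h1

end rg

section pr

variable {R : Type} [CommRing R] [IsDomain R] {T : Type} [Group T] (K : Col R T)
  {A G E Q : Type} [Group A] [Fintype A] [Group G] [Group E] [Group Q] (X : Ext G E Q)
  (a : E →* A) (c : Q →* A) (S : Set A) (ha : Function.Injective a)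
  (hS : ∀ (x : A) (q : Q), (∀ y, x * y * (c q)⁻¹ ∈ S ↔ y ∈ S) ↔ ∃ e, a e = x ∧ X.π e = q)

/-- the data for the extension -/
def rgJ (ha : Function.Injective a)
    (hS : ∀ (x : A) (q : Q), (∀ y, x * y * (c q)⁻¹ ∈ S ↔ y ∈ S) ↔ ∃ e, a e = x ∧ X.π e = q) :
    Mon R (Wr T (Rg c) (A × Q)) (K.W (Ω := A) fun y => decide (y ∈ S)) E :=
  K.mon (Ω := Rg c) (H := A × Q) (fun y => decide ((show A from y) ∈ S)) (a.prod X.π)
    (fun x y h => ha (congrArg Prod.fst h)) (by
      rintro ⟨x, q⟩
      have h1 : (∀ ω : Rg c, decide ((show A from ((x, q) : A × Q) • ω) ∈ S) =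
          decide ((show A from ω) ∈ S)) ↔ ∀ y : A, x * y * (c q)⁻¹ ∈ S ↔ y ∈ S :=
        forall_congr' fun y => decide_eq_decide
      rw [h1, hS]
      exact exists_congr fun e => (Prod.ext_iff (x := (a.prod X.π) e) (y := (x, q))).symm)

/-- the data for the normal subgroup -/
def rgI (ha : Function.Injective a)
    (hS : ∀ (x : A) (q : Q), (∀ y, x * y * (c q)⁻¹ ∈ S ↔ y ∈ S) ↔ ∃ e, a e = x ∧ X.π e = q) :
    Mon R (Wr T A A) (K.W (Ω := A) fun y => decide (y ∈ S)) G :=
  K.mon (Ω := A) (H := A) (fun y => decide (y ∈ S)) (a.comp X.ι) (ha.comp X.inj) (by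
      intro x
      have h1 : (∀ ω : A, decide ((x • ω) ∈ S) = decide (ω ∈ S)) ↔
          ∀ y : A, x * y * (c 1)⁻¹ ∈ S ↔ y ∈ S := by
        refine forall_congr' fun y => ?_
        rw [decide_eq_decide, map_one, inv_one, mul_one]
        rfl
      rw [h1, hS]
      constructor
      · rintro ⟨e, he, he1⟩
        obtain ⟨g, rfl⟩ := X.exists_of he1
        exact ⟨g, he⟩
      · rintro ⟨g, hg⟩
        exact ⟨X.ι g, hg, X.π_ι g⟩)

theorem rgP : Pr (rgI (R := R) K X a c S ha hS) (rgJ K X a c S ha hS) X (rgE c T) where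
  i_eq _ := rfl
  j_eq g := by
    change (SemidirectProduct.inr (a (X.ι g), X.π (X.ι g)) : Wr T (Rg c) (A × Q)) =
      SemidirectProduct.inr (a (X.ι g), 1)
    rw [X.π_ι]
  lam_eq _ := rfl
  π_eq _ := rfl

end pr

end Pool.Agent.H373.PD
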