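import Pool.Agent.H373.PD.F6

/-!
# Dade's invariant conjecture and split extensions of wreath products
-/

set_option autoImplicit false
set_option linter.unusedSectionVars false
set_option linter.style.haveILetI false

open scoped BigOperators Classical MatrixGroups

noncomputable section

namespace Pool.Agent.H373.PD

open Pool.Agent.H373.BU hiding Ind

open Pool.Agent.H373.MN

open IsLocalRing

section struct

variable {p q : ℕ} (h : Good p q)

include h in
theorem primitiveThree_XR {n : ℕ} (hn : 5 ≤ n) : PrimitiveThree (XR n q) := by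
  haveI : Fact q.Prime := ⟨h.prime⟩
  haveI : IsSimpleGroup (alternatingGroup (Fin n)) :=
    alternatingGroup.isSimpleGroup (by rwa [Nat.card_eq_fintype_card, Fintype.card_fin])
  exact ⟨primitive_wr (Ω := alternatingGroup (Fin n)) h.lt,
    three_reg h.lt (Q := alternatingGroup (Fin n))⟩

include h in
theorem noCore_XR [hp : Fact p.Prime] {n : ℕ} : NoCore p (XR n q) := by
  haveI : Fact q.Prime := ⟨h.prime⟩
  haveI := simple_psl h.lt
  intro N hN hpN
  by_contra hne
  have h1 := (normal_wr (Ω := alternatingGroup (Fin n)) (H := alternatingGroup (Fin n))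
    (not_solvable_psl h.lt) (dvd_psl h.dvd) N hN hne).2
  apply h1
  haveI : NeZero q := ⟨h.prime.ne_zero⟩
  haveI : Finite (XR n q) := finite_XR n q
  haveI : Finite N := Subtype.finite
  exact @IsNilpotent.to_isSolvable _ _ hpN.isNilpotent

theorem center_alt {n : ℕ} (hn : 5 ≤ n) : Subgroup.center (alternatingGroup (Fin n)) = ⊥ :=
  alternatingGroup.center_eq_bot (by
    rw [Nat.card_eq_fintype_card, Fintype.card_fin]
    omega)

end struct

section main

variable {L : Type} [CommRing L] [IsDomain L] [IsDiscreteValuationRing L]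
  [IsAdicComplete (maximalIdeal L) L] {p : ℕ} [hp : Fact p.Prime] [CharP (ResidueField L) p]
  {Ω : Type} [Field Ω]

theorem ext_finite {G E Q : Type} [Group G] [Group E] [Group Q] [Finite E] (X : Ext G E Q) :
    Finite G ∧ Finite Q :=
  ⟨Finite.of_injective _ X.inj, Finite.of_surjective _ X.surj⟩

theorem reproI_XR {q : ℕ} (h : Good p q)
    (hζ : ∃ ζ : L, IsPrimitiveRoot ζ ((q - 1) / 2)) (s : L →+* Ω) (hs : Function.Injective s) :
    ReproAllI p q s := by
  intro G E Q _ _ _ _ X n hn
  obtain ⟨_, _⟩ := ext_finite X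
  haveI : Fact q.Prime := ⟨h.prime⟩
  haveI : NeZero q := ⟨h.prime.ne_zero⟩
  have hn5 : 5 ≤ n := by
    have h1 : 0 < Nat.card E := Nat.card_pos
    omega
  obtain ⟨a, c, S, ha, hc, hS⟩ := exists_stab X.π n hn
  obtain ⟨ζ, hζ⟩ := hζ
  have h5 := h.ndvd.2.1
  have hζ' : IsPrimitiveRoot (hζ.isUnit (by omega)).unit ((q - 1) / 2) :=
    IsPrimitiveRoot.coe_units_iff.mp (by rwa [IsUnit.unit_spec])
  obtain ⟨K, hK⟩ := exists_col h hζ'
  haveI := simple_psl h.lt
  haveI : Finite (Wr PSL(2, ZMod q) (Rg c) (alternatingGroup (Fin n) × Q)) := inferInstance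
  haveI : Fintype (Wr PSL(2, ZMod q) (alternatingGroup (Fin n)) (alternatingGroup (Fin n))) :=
    Fintype.ofFinite _
  haveI : Fintype (K.W (Ω := alternatingGroup (Fin n)) fun y => decide (y ∈ S)) :=
    Fintype.ofFinite _
  have hV : ¬ p ∣ Nat.card (K.W (Ω := alternatingGroup (Fin n)) fun y => decide (y ∈ S)) :=
    K.card_W _ hK
  have hVu : IsUnit ((Nat.card (K.W (Ω := alternatingGroup (Fin n))
      fun y => decide (y ∈ S)) : ℕ) : L) := by
    rw [← IsLocalRing.notMem_maximalIdeal, ← IsLocalRing.residue_eq_zero_iff, map_natCast,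
      CharP.cast_eq_zero_iff (ResidueField L) p]
    exact hV
  obtain ⟨u, hu⟩ := (isUnit_iff_exists_inv'.mp hVu)
  rw [Nat.card_eq_fintype_card] at hu
  exact ⟨Wr PSL(2, ZMod q) (Rg c) (alternatingGroup (Fin n) × Q), inferInstance, inferInstance,
    rgE c PSL(2, ZMod q), outer_rgE c _ (center_alt hn5) hc
      (center_simple (not_solvable_psl h.lt)),
    reproI_of_pr (rgP K X a c S ha hS) hV hu s hs⟩

end main

end Pool.Agent.H373.PD

open Pool.Agent.H373.BU Pool.Agent.H373.MN Pool.Agent.H373.PD IsLocalRing in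
theorem Pool.Agent.H373.PD.inv_three (p : ℕ) [hp : Fact p.Prime] :
    (∀ N : ℕ, ∃ q, N < q ∧ Good p q) ∧
    ∀ q, Good p q → FamR p q ∧
      ∀ (L : Type) [CommRing L] [IsDomain L] [IsDiscreteValuationRing L]
        [IsAdicComplete (maximalIdeal L) L] [CharP (ResidueField L) p] (W : Type) [Field W]
        (s : L →+* W), Function.Injective s →
        (IsAlgClosed (ResidueField L) → ∃ ζ : L, IsPrimitiveRoot ζ ((q - 1) / 2)) ∧
        ((∃ ζ : L, IsPrimitiveRoot ζ ((q - 1) / 2)) →
          ReproAllI p q s ∧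
          ∀ (Q : Type) [Group Q],
            (∀ S : Set ℕ, S.Infinite →
              ((∀ (G E : Type) [Group G] [Group E] [Finite E] (X : Ext G E Q), NoCore p G →
                  InvDade p s X) ↔
                ∀ n ∈ S, 5 ≤ n → ∀ (Y : Type) [Group Y] [Finite Y] (X : Ext (XR n q) Y Q),
                  X.Outer → InvDade p s X)) ∧
            ((∀ (G E : Type) [Group G] [Group E] [Finite E] (X : Ext G E Q), NoCore p G →
                InvDade p s X) ↔
              ∀ (G E : Type) [Group G] [Group E] [Finite E] (X : Ext G E Q), PrimitiveThree G →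
                NoCore p G → X.Outer → InvDade p s X) ∧
            ∀ R : (ℕ → Subgroup Q → ℤ) → Prop,
              (∀ (G E : Type) [Group G] [Group E] [Finite E] (X : Ext G E Q), NoCore p G →
                ∀ b : MonoidAlgebra L G, IsBlock b → PosDefect (red (rs L) b) →
                  R fun d U => invSum p s d X U b) ↔
              ∀ (G E : Type) [Group G] [Group E] [Finite E] (X : Ext G E Q), PrimitiveThree G →
                NoCore p G → X.Outer → ∀ b : MonoidAlgebra L G, IsBlock b →
                  PosDefect (red (rs L) b) → R fun d U => invSum p s d X U b) := by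
  refine ⟨exists_good p, fun q h => ⟨fun n hn => ⟨primitiveThree_XR h hn, noCore_XR h⟩, ?_⟩⟩
  intro L _ _ _ _ _ W _ s hs
  haveI : NeZero q := ⟨h.prime.ne_zero⟩
  refine ⟨fun _ => exists_root_L (p := p) h.ndvd.1, fun hζ => ?_⟩
  have hR := reproI_XR h hζ s hs
  refine ⟨hR, fun Q _ => ?_⟩
  have key : ∀ R : (ℕ → Subgroup Q → ℤ) → Prop, ∀ S : Set ℕ, S.Infinite →
      (∀ n ∈ S, 5 ≤ n → ∀ (Y : Type) [Group Y] [Finite Y] (X : Ext (XR n q) Y Q), X.Outer →
        ∀ b : MonoidAlgebra L (XR n q), IsBlock b → PosDefect (red (rs L) b) →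
          R fun d U => invSum p s d X U b) →
      ∀ (G E : Type) [Group G] [Group E] [Finite E] (X : Ext G E Q)
        (b : MonoidAlgebra L G), IsBlock b → PosDefect (red (rs L) b) →
          R fun d U => invSum p s d X U b := by
    intro R S hS h1 G E _ _ _ X b hb hb0
    obtain ⟨n, hnS, hn⟩ := hS.exists_gt (6 * (Nat.card E + Nat.card Q) + 5)
    obtain ⟨Y, _, _, X', hX', hR'⟩ := hR G E Q X n (by omega)
    obtain ⟨b', hb', -, -, h2, h3⟩ := hR' b hb
    have h4 := h1 n hnS (by omega) Y X' hX' b' hb' (h2.mpr hb0)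
    have h5 : (fun d U => invSum p s d X' U b') = fun d U => invSum p s d X U b :=
      funext fun d => funext fun U => h3 d U
    rwa [h5] at h4
  refine ⟨fun S hS => ⟨?_, ?_⟩, ⟨?_, ?_⟩, fun R => ⟨?_, ?_⟩⟩
  · exact fun h1 n _ _ Y _ _ X _ => h1 (XR n q) Y X (noCore_XR h)
  · intro h1 G E _ _ _ X _ b hb hb0 d U
    exact congrFun (congrFun (f := fun d U => invSum p s d X U b) (g := fun _ _ => 0)
      (key (fun z => z = fun _ _ => 0) S hS
        (fun n hn h5 Y _ _ X' hX' b' hb' h0 => funext fun d => funext fun U =>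
          h1 n hn h5 Y X' hX' b' hb' h0 d U) G E X b hb hb0) d) U
  · exact fun h1 G E _ _ _ X _ hG _ => h1 G E X hG
  · intro h1 G E _ _ _ X _ b hb hb0 d U
    exact congrFun (congrFun (f := fun d U => invSum p s d X U b) (g := fun _ _ => 0)
      (key (fun z => z = fun _ _ => 0) _ infinite_five
        (fun n hn _ Y _ _ X' hX' b' hb' h0 => funext fun d => funext fun U =>
          h1 (XR n q) Y X' (primitiveThree_XR h hn) (noCore_XR h) hX' b' hb' h0 d U)
          G E X b hb hb0) d) U
  · exact fun h1 G E _ _ _ X _ hG _ => h1 G E X hG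
  · intro h1 G E _ _ _ X _
    exact key R _ infinite_five
      (fun n hn _ Y _ _ X' hX' => h1 (XR n q) Y X' (primitiveThree_XR h hn) (noCore_XR h) hX')
      G E X
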