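import Pool.Agent.H373.MN.D3a

/-!
# Dade's projective alternating sums: definitions
-/

set_option autoImplicit false
set_option linter.unusedSectionVars false
set_option linter.style.haveILetI false

open scoped BigOperators Classical

noncomputable section

namespace Pool.Agent.H373.PD

open Pool.Agent.H373.BU hiding Ind

open Pool.Agent.H373.MN

open MonoidAlgebra hiding coeff_sum

open IsLocalRing

section zp

variable {G : Type} [Group G]

/-- The Sylow `p`-subgroup of the central subgroup `Z`: the elements of `Z` the order of which is a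
power of `p`. -/
def zp (p : ℕ) (Z : Subgroup G) : Subgroup G where
  carrier := {z | z ∈ Z ∧ z ∈ Subgroup.center G ∧ ∃ k : ℕ, z ^ p ^ k = 1}
  one_mem' := ⟨Subgroup.one_mem _, Subgroup.one_mem _, 0, one_pow _⟩
  mul_mem' {a b} ha hb := ⟨Subgroup.mul_mem _ ha.1 hb.1, Subgroup.mul_mem _ ha.2.1 hb.2.1, by
    obtain ⟨k, hk⟩ := ha.2.2
    obtain ⟨l, hl⟩ := hb.2.2
    refine ⟨k + l, ?_⟩
    have h : Commute a b := (Subgroup.mem_center_iff.mp ha.2.1 b).symm
    rw [h.mul_pow, pow_add, pow_mul, hk, one_pow, one_mul, mul_comm (p ^ k), pow_mul, hl, one_pow]⟩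
  inv_mem' {a} ha := ⟨Subgroup.inv_mem _ ha.1, Subgroup.inv_mem _ ha.2.1, by
    obtain ⟨k, hk⟩ := ha.2.2
    exact ⟨k, by rw [inv_pow, hk, inv_one]⟩⟩

/-- The chains `Z_p = P_0 < P_1 < ... < P_n` of `p`-subgroups of `G` which start with the Sylow
`p`-subgroup `Z_p` of `Z`, as sets of subgroups. -/
def pchZ (p : ℕ) (Z : Subgroup G) : Set (Set (Subgroup G)) :=
  {C | zp p Z ∈ C ∧ IsChain (· ≤ ·) C ∧ ∀ P ∈ C, IsPGroup p P ∧ zp p Z ≤ P}

end zp

section defs

variable {L : Type} [CommRing L] [IsLocalRing L] {Ω : Type} [Field Ω] {G : Type} [Group G]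

/-- The irreducible characters of `N_G(C)` of defect `d` in the blocks of `Λ N_G(C)` which correspond
to the block `b` of `ΛG`, and which lie over the linear character `lam` of `Z`: the elements `z` of
`Z` act as the scalars `lam z`. -/
def IrZ (p : ℕ) (s : L →+* Ω) (d : ℕ) (Z : Subgroup G) (lam : Z →* Ω) (C : Set (Subgroup G))
    (b : MonoidAlgebra L G) : Set (MonoidAlgebra Ω (NC C)) :=
  {ε | ε ∈ IrC p s d C b ∧ ∀ (n : NC C) (h : (n : G) ∈ Z),
    MonoidAlgebra.single n (1 : Ω) * ε = lam ⟨n, h⟩ • ε}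

/-- The alternating sum of the numbers `k^d(B_C, lam)` over the classes of the chains
`A_p = P_0 < P_1 < ... < P_n`. -/
def gSum (p : ℕ) (s : L →+* Ω) (d : ℕ) (A Z : Subgroup G) (lam : Z →* Ω)
    (b : MonoidAlgebra L G) : ℤ :=
  ∑ᶠ c : Quotient (cjs (pchZ p A)),
    (-1) ^ ((c.out : Set (Subgroup G)).ncard - 1) *
      (Nat.card (IrZ p s d Z lam (c.out : Set (Subgroup G)) b) : ℤ)

/-- Dade's alternating sum of the numbers `k^d(B_C, lam)` over the classes of the chains
`Z_p = P_0 < P_1 < ... < P_n`. -/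
def projSum (p : ℕ) (s : L →+* Ω) (d : ℕ) (Z : Subgroup G) (lam : Z →* Ω)
    (b : MonoidAlgebra L G) : ℤ :=
  ∑ᶠ c : Quotient (cjs (pchZ p Z)),
    (-1) ^ ((c.out : Set (Subgroup G)).ncard - 1) *
      (Nat.card (IrZ p s d Z lam (c.out : Set (Subgroup G)) b) : ℤ)

end defs

section defs

variable {L : Type} [CommRing L] [IsDomain L] [IsLocalRing L] {Ω : Type} [Field Ω]

/-- The Sylow `p`-subgroup of `Z` is a proper subgroup of the defect groups of the block `b`. -/
def Above (p : ℕ) {G : Type} [Group G] (Z : Subgroup G) (b : MonoidAlgebra L G) : Prop :=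
  ∀ D : Subgroup G, IsDefect p b D → zp p Z < D

/-- **Dade's projective conjecture** for the group `G` and its central subgroup `Z`, for the blocks of
`ΛG`: all the alternating sums vanish. -/
def ProjDade (p : ℕ) (s : L →+* Ω) (G : Type) [Group G] (Z : Subgroup G) : Prop :=
  ∀ b : MonoidAlgebra L G, IsBlock b → Above p Z b → ∀ (d : ℕ) (lam : Z →* Ω),
    projSum p s d Z lam b = 0

end defs

section defs

variable {L : Type} [CommRing L] [IsDomain L] [IsDiscreteValuationRing L]
  {Ω : Type} [Field Ω]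

/-- The blocks of `ΛG` are reproduced by blocks of `ΛY`, for the central subgroups `Z` of `G` and `Z'`
of `Y`, which are isomorphic: a matrix ring over the block algebra is isomorphic to the new one, the
defect groups are isomorphic, and all of Dade's projective alternating sums are the same, for the
corresponding linear characters of `Z` and `Z'`. -/
def ReproP (p : ℕ) (s : L →+* Ω) (G : Type) [Group G] (Z : Subgroup G) (Y : Type) [Group Y]
    (Z' : Subgroup Y) : Prop :=
  ∃ e : Z ≃* Z', ∀ (b : MonoidAlgebra L G) (hb : IsBlock b),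
    ∃ (b' : MonoidAlgebra L Y) (hb' : IsBlock b'),
      (∃ r : ℕ, 0 < r ∧ Nonempty (Matrix (Fin r) (Fin r) (BlockAlg hb) ≃+* BlockAlg hb')) ∧
      (∀ D : Subgroup G, IsDefect p b D → ∃ D' : Subgroup Y, IsDefect p b' D' ∧
        Nonempty (D' ≃* D)) ∧
      (Above p Z' b' ↔ Above p Z b) ∧
      ∀ (d : ℕ) (lam : Z' →* Ω),
        projSum p s d Z' lam b' = projSum p s d Z (lam.comp e.toMonoidHom) b

end defs

end Pool.Agent.H373.PD
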