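import Pool.Agent.H373.MN.D5
import Pool.Agent.H373.PD.Q1

/-!
# Dade's projective alternating sums: definitions
-/

set_option autoImplicit false
set_option linter.unusedSectionVars false
set_option linter.style.haveILetI false

open scoped BigOperators Classical

noncomputable section

namespace Pool.Agent.H373.PD

open Pool.Agent.H373.BU hiding Ind

open Pool.Agent.H373.MN

open MonoidAlgebra hiding coeff_sum

open IsLocalRing

section zp

variable {G : Type} [Group G]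

theorem mem_zp {p : ℕ} {Z : Subgroup G} {z : G} :
    z ∈ zp p Z ↔ z ∈ Z ∧ z ∈ Subgroup.center G ∧ ∃ k : ℕ, z ^ p ^ k = 1 := Iff.rfl

theorem zp_le {p : ℕ} {Z : Subgroup G} : zp p Z ≤ Z := fun _ h => h.1

theorem zp_center {p : ℕ} {Z : Subgroup G} : zp p Z ≤ Subgroup.center G := fun _ h => h.2.1

theorem zp_pgroup {p : ℕ} {Z : Subgroup G} : IsPGroup p (zp p Z) := by
  rintro ⟨z, hz⟩
  obtain ⟨k, hk⟩ := hz.2.2
  exact ⟨k, Subtype.ext hk⟩

end zp

/-! ## the auxiliary families -/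

section fam

variable {p : ℕ} {G : Type} [Group G] {Z : Subgroup G}

theorem cs_bot' (g : G) : cs g (⊥ : Subgroup G) = ⊥ := Subgroup.map_bot _

theorem cs_zp (g : G) : cs g (zp p Z) = zp p Z := by
  ext x
  rw [mem_cs]
  constructor
  · intro h
    have h1 := Subgroup.mem_center_iff.mp (zp_center h) g
    have h2 : g⁻¹ * x * g = x := by
      have h3 : g * (g⁻¹ * x * g) * g⁻¹ = g⁻¹ * x * g := by rw [h1, mul_inv_cancel_right]
      have h4 : g * (g⁻¹ * x * g) * g⁻¹ = x := by group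
      rw [← h3, h4]
    rwa [h2] at h
  · intro h
    have h1 := Subgroup.mem_center_iff.mp (zp_center h) g⁻¹
    rwa [h1, inv_mul_cancel_right]

/-- the members of `D` which contain `Z_p` -/
def cut (p : ℕ) (Z : Subgroup G) (D : Set (Subgroup G)) : Set (Subgroup G) :=
  {P | P ∈ D ∧ zp p Z ≤ P}

theorem cut_cs (g : G) (D : Set (Subgroup G)) : cut p Z (cs g '' D) = cs g '' cut p Z D := by
  ext P
  constructor
  · rintro ⟨⟨Q, hQ, rfl⟩, h⟩
    refine ⟨Q, ⟨hQ, ?_⟩, rfl⟩
    rw [← cs_zp g] at h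
    exact cs_le.mp h
  · rintro ⟨Q, ⟨hQ, h⟩, rfl⟩
    refine ⟨⟨Q, hQ, rfl⟩, ?_⟩
    rw [← cs_zp g]
    exact cs_le.mpr h

/-- the chains with the trivial group added -/
def pchB (p : ℕ) (Z : Subgroup G) : Set (Set (Subgroup G)) :=
  {D | ⊥ ∈ D ∧ zp p Z ∈ D ∧ IsChain (· ≤ ·) D ∧ ∀ P ∈ D, IsPGroup p P ∧ (P = ⊥ ∨ zp p Z ≤ P)}

theorem pchB_pch {D : Set (Subgroup G)} (h : D ∈ pchB p Z) : D ∈ pch p G :=
  ⟨h.1, h.2.2.1, fun P hP => (h.2.2.2 P hP).1⟩

theorem insert_mem {C : Set (Subgroup G)} (h : C ∈ pchZ p Z) : insert ⊥ C ∈ pchB p Z := by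
  refine ⟨Set.mem_insert _ _, Set.mem_insert_of_mem _ h.1, ?_, ?_⟩
  · refine h.2.1.insert fun P _ _ => Or.inl bot_le
  · rintro P (rfl | hP)
    · exact ⟨IsPGroup.of_bot, Or.inl rfl⟩
    · exact ⟨(h.2.2 P hP).1, Or.inr (h.2.2 P hP).2⟩

theorem cut_insert {C : Set (Subgroup G)} (h : C ∈ pchZ p Z) : cut p Z (insert ⊥ C) = C := by
  ext P
  constructor
  · rintro ⟨rfl | hP, h1⟩
    · rw [← le_bot_iff.mp h1]
      exact h.1
    · exact hP
  · exact fun hP => ⟨Set.mem_insert_of_mem _ hP, (h.2.2 P hP).2⟩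

theorem cut_mem {D : Set (Subgroup G)} (h : D ∈ pchB p Z) : cut p Z D ∈ pchZ p Z :=
  ⟨⟨h.2.1, le_refl _⟩, h.2.2.1.mono fun _ h => h.1, fun P hP => ⟨(h.2.2.2 P hP.1).1, hP.2⟩⟩

theorem insert_cut {D : Set (Subgroup G)} (h : D ∈ pchB p Z) : insert ⊥ (cut p Z D) = D := by
  ext P
  constructor
  · rintro (rfl | hP)
    · exact h.1
    · exact hP.1
  · intro hP
    rcases (h.2.2.2 P hP).2 with h1 | h1
    · exact Or.inl h1
    · exact Or.inr ⟨hP, h1⟩

theorem pchB_conj {D D' : Set (Subgroup G)} {g : G} (h : Cj g D D') (hD : D ∈ pchB p Z) :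
    D' ∈ pchB p Z := by
  unfold Cj at h
  subst h
  refine ⟨⟨⊥, hD.1, cs_bot' g⟩, ⟨_, hD.2.1, cs_zp g⟩, ?_, ?_⟩
  · rintro _ ⟨P, hP, rfl⟩ _ ⟨Q, hQ, rfl⟩ hne
    rcases hD.2.2.1.total hP hQ with h1 | h1
    · exact Or.inl (cs_le.mpr h1)
    · exact Or.inr (cs_le.mpr h1)
  · rintro _ ⟨P, hP, rfl⟩
    refine ⟨(hD.2.2.2 P hP).1.map _, ?_⟩
    rcases (hD.2.2.2 P hP).2 with h1 | h1
    · left
      rw [h1, cs_bot']
    · right
      rw [← cs_zp g]
      exact cs_le.mpr h1

theorem cj_insert {g : G} {C C' : Set (Subgroup G)} (h : Cj g C C') :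
    Cj g (insert ⊥ C) (insert ⊥ C') := by
  unfold Cj at h ⊢
  rw [Set.image_insert_eq, h, cs_bot']

theorem cj_cut {g : G} {D D' : Set (Subgroup G)} (h : Cj g D D') :
    Cj g (cut p Z D) (cut p Z D') := by
  unfold Cj at h ⊢
  rw [← h, cut_cs]

/-- the classes of the chains -/
def clE : Quotient (cjs (pchZ p Z)) → Quotient (cjs (pchB p Z)) :=
  Quotient.map (fun C => ⟨insert ⊥ (C : Set (Subgroup G)), insert_mem C.2⟩)
    fun _ _ ⟨g, h⟩ => ⟨g, cj_insert h⟩

theorem clE_bij : Function.Bijective (clE (p := p) (Z := Z)) := by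
  constructor
  · intro a b
    induction a using Quotient.inductionOn with
    | h C =>
      induction b using Quotient.inductionOn with
      | h C' =>
        intro h
        obtain ⟨g, hg⟩ := Quotient.exact h
        have h1 := cj_cut (p := p) (Z := Z) hg
        change Cj g (cut p Z (insert ⊥ (C : Set (Subgroup G))))
          (cut p Z (insert ⊥ (C' : Set (Subgroup G)))) at h1
        rw [cut_insert C.2, cut_insert C'.2] at h1
        exact Quotient.sound ⟨g, h1⟩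
  · intro a
    induction a using Quotient.inductionOn with
    | h D =>
      refine ⟨Quotient.mk _ ⟨cut p Z D, cut_mem D.2⟩, ?_⟩
      change Quotient.mk _ _ = _
      congr 1
      exact Subtype.ext (insert_cut D.2)

theorem NC_insert (C : Set (Subgroup G)) : NC C = NC (insert ⊥ C) := by
  ext g
  rw [mem_NC, mem_NC]
  constructor
  · rintro h P (rfl | hP)
    · exact cs_bot' g
    · exact h P hP
  · exact fun h P hP => h P (Set.mem_insert_of_mem _ hP)

theorem sSup_insert_bot (C : Set (Subgroup G)) : sSup (insert ⊥ C) = sSup C := by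
  rw [sSup_insert, bot_sup_eq]

end fam

end Pool.Agent.H373.PD
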