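import Pool.Agent.H373.PD.P9

/-!
# Dade's conjecture and central extensions of wreath products of simple groups
-/

set_option autoImplicit false
set_option linter.unusedSectionVars false
set_option linter.style.haveILetI false

open scoped BigOperators Classical MatrixGroups

noncomputable section

namespace Pool.Agent.H373.PD

open Pool.Agent.H373.BU hiding Ind

open Pool.Agent.H373.MN

open MonoidAlgebra hiding coeff_sum

open IsLocalRing

section data

variable {p q : ℕ} [hp : Fact p.Prime] (h : Good p q)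

include h in
/-- the data for the group `WX q H C` over a domain with roots of unity -/
theorem exists_monR {R : Type} [CommRing R] [IsDomain R] {ζ : Rˣ}
    (hζ : IsPrimitiveRoot ζ ((q - 1) / 2)) {G : Type} [Group G] {Z : Subgroup G}
    {H : Type} [Group H] [Finite H] (ι : G →* H) (hι : Function.Injective ι)
    {C : Subgroup H} (hC : Z.map ι = C) (hC' : C ≤ Subgroup.center H) :
    ∃ (V : Type) (_ : Group V) (_ : Finite V) (I : Mon R (WX q H C) V G), ¬ p ∣ Nat.card V ∧
      Z.map I.j = Subgroup.center (WX q H C) := by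
  haveI : Fact q.Prime := ⟨h.prime⟩
  haveI : NeZero q := ⟨h.prime.ne_zero⟩
  haveI : Fintype (H ⧸ C) := Fintype.ofFinite _
  obtain ⟨K, hK⟩ := exists_col h hζ
  refine ⟨_, inferInstance, inferInstance, wMon K ι hι hC, K.card_W _ hK, ?_⟩
  have hcen := (centralizer_bas (q := q) h.lt hC').2
  have h1 : Z.map (wMon K ι hι hC).j = (Z.map ι).map
      (SemidirectProduct.inr : H →* Wr PSL(2, ZMod q) (H ⧸ C) H) :=
    (Subgroup.map_map Z _ ι).symm
  have h2 := congrArg (Subgroup.map
    (SemidirectProduct.inr : H →* Wr PSL(2, ZMod q) (H ⧸ C) H)) hC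
  exact h1.trans (h2.trans hcen.symm)

theorem pgroup_map {A B : Type} [Group A] [Group B] (f : A →* B) {P : Subgroup A}
    (hP : IsPGroup p P) {Q : Subgroup B} (h : P.map f = Q) : IsPGroup p Q := h ▸ hP.map f

include h in
/-- `O_p(X) = Z(X)` if the centre is a `p`-group -/
theorem op_WX {H : Type} [Group H] [Finite H]
    (hH : IsPGroup p (Subgroup.center (WX q H (Subgroup.center H)))) :
    Op p (WX q H (Subgroup.center H)) = Subgroup.center (WX q H (Subgroup.center H)) :=
  op_center (fun N hN hpN => core_mod h N hN hpN) hH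

end data

section main

variable {L : Type} [CommRing L] [IsDomain L] [IsDiscreteValuationRing L]
  [IsAdicComplete (maximalIdeal L) L] {p : ℕ} [hp : Fact p.Prime] [CharP (ResidueField L) p]
  {Ω : Type} [Field Ω]

theorem reproO_WX {q : ℕ} (h : Good p q)
    (hζ : ∃ ζ : L, IsPrimitiveRoot ζ ((q - 1) / 2)) (s : L →+* Ω) (hs : Function.Injective s)
    {G : Type} [Group G] [Finite G] (hG : Op p G ≤ Subgroup.center G)
    {H : Type} [Group H] [Finite H] (ι : G →* H) (hι : Function.Injective ι)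
    (hC : (Op p G).map ι = Subgroup.center H) :
    Op p (WX q H (Subgroup.center H)) = Subgroup.center (WX q H (Subgroup.center H)) ∧
      ReproO p s G (WX q H (Subgroup.center H)) := by
  haveI : Fact q.Prime := ⟨h.prime⟩
  haveI : NeZero q := ⟨h.prime.ne_zero⟩
  haveI := Fintype.ofFinite (WX q H (Subgroup.center H))
  obtain ⟨ζ, hζ⟩ := hζ
  have h5 := h.ndvd.2.1
  have hζ' : IsPrimitiveRoot (hζ.isUnit (by omega)).unit ((q - 1) / 2) :=
    IsPrimitiveRoot.coe_units_iff.mp (by rwa [IsUnit.unit_spec])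
  obtain ⟨V, _, _, I, hV, hI⟩ := exists_monR h hζ' ι hι hC (le_refl _)
  haveI := Fintype.ofFinite V
  have hVu : IsUnit ((Nat.card V : ℕ) : L) := by
    rw [← IsLocalRing.notMem_maximalIdeal, ← IsLocalRing.residue_eq_zero_iff, map_natCast,
      CharP.cast_eq_zero_iff (ResidueField L) p]
    exact hV
  obtain ⟨u, hu⟩ := (isUnit_iff_exists_inv'.mp hVu)
  rw [Nat.card_eq_fintype_card] at hu
  have hpO : IsPGroup p (Op p G) := by
    have h1 := zp_pgroup (p := p) (Z := Op p G)
    rwa [op_eq hG] at h1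
  have hX := op_WX h (pgroup_map I.j hpO hI)
  exact ⟨hX, reproO_of_mon I hV hu s hs hG hX.le (hI.trans hX.symm)⟩

end main

end Pool.Agent.H373.PD

open Pool.Agent.H373.BU Pool.Agent.H373.MN Pool.Agent.H373.PD IsLocalRing in
theorem Pool.Agent.H373.PD.dade_central (p : ℕ) [hp : Fact p.Prime] :
    (∀ N : ℕ, ∃ q, N < q ∧ Good p q) ∧
    ∀ q, Good p q →
      (∀ (k : ℕ) (N r δ : Fin k → ℕ), (∀ i, 3 ≤ N i ∧ (r i).Prime) →
        Mod1 (WX q (HP k N r δ) (Subgroup.center (HP k N r δ))) ∧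
        Op p (WX q (HP k N r δ) (Subgroup.center (HP k N r δ))) ≤ Subgroup.center _) ∧
      (∀ N r δ : ℕ, 3 ≤ N → r.Prime →
        Mod3 (WX q (HS N r δ) (Subgroup.center (HS N r δ))) ∧
        Op p (WX q (HS N r δ) (Subgroup.center (HS N r δ))) ≤ Subgroup.center _) ∧
      ∀ (L : Type) [CommRing L] [IsDomain L] [IsDiscreteValuationRing L]
        [IsAdicComplete (maximalIdeal L) L] [CharP (ResidueField L) p] (W : Type) [Field W]
        (s : L →+* W), Function.Injective s →
        (IsAlgClosed (ResidueField L) → ∃ ζ : L, IsPrimitiveRoot ζ ((q - 1) / 2)) ∧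
        ((∃ ζ : L, IsPrimitiveRoot ζ ((q - 1) / 2)) →
          (∀ (G : Type) [Group G] [Finite G], Op p G ≤ Subgroup.center G →
            (∃ (k : ℕ) (N r δ : Fin k → ℕ), 0 < k ∧ (∀ i, 3 ≤ N i ∧ (r i).Prime) ∧
              Op p (WX q (HP k N r δ) (Subgroup.center (HP k N r δ))) = Subgroup.center _ ∧
              ReproO p s G (WX q (HP k N r δ) (Subgroup.center (HP k N r δ)))) ∧
            (IsCyclic (Op p G) → ∃ N r δ : ℕ, 3 ≤ N ∧ r.Prime ∧
              Op p (WX q (HS N r δ) (Subgroup.center (HS N r δ))) = Subgroup.center _ ∧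
              ReproO p s G (WX q (HS N r δ) (Subgroup.center (HS N r δ))))) ∧
          ((∀ (G : Type) [Group G] [Finite G], Op p G ≤ Subgroup.center G → DadeO p s G) ↔
            ∀ (X : Type) [Group X] [Finite X], Mod1 X → Op p X = Subgroup.center X →
              DadeO p s X) ∧
          ((∀ (G : Type) [Group G] [Finite G], Op p G ≤ Subgroup.center G →
              IsCyclic (Op p G) → DadeO p s G) ↔
            ∀ (X : Type) [Group X] [Finite X], Mod3 X → Op p X = Subgroup.center X →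
              DadeO p s X) ∧
          ∀ R : (ℕ → ℤ) → Prop,
            (∀ (G : Type) [Group G] [Finite G], Op p G ≤ Subgroup.center G →
              ∀ b : MonoidAlgebra L G, IsBlock b → AboveO p b → R fun d => dadeO p s d b) ↔
            ∀ (X : Type) [Group X] [Finite X], Mod1 X → Op p X = Subgroup.center X →
              ∀ b : MonoidAlgebra L X, IsBlock b → AboveO p b →
                R fun d => dadeO p s d b) := by
  refine ⟨exists_good p, fun q h => ⟨fun k N r δ hr => ?_, fun N r δ hN hr => ?_, ?_⟩⟩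
  · haveI := finite_HP (δ := δ) hr
    exact ⟨mod1_HP h hr, sSup_le fun Y hY => core_mod h Y hY.1 hY.2⟩
  · haveI := finite_HS (N := N) (δ := δ) hr
    exact ⟨mod3_HS h hN hr, sSup_le fun Y hY => core_mod h Y hY.1 hY.2⟩
  intro L _ _ _ _ _ W _ s hs
  haveI : NeZero q := ⟨h.prime.ne_zero⟩
  refine ⟨fun _ => exists_root_L (p := p) h.ndvd.1, fun hζ => ?_⟩
  have k1 : ∀ (G : Type) [Group G] [Finite G], Op p G ≤ Subgroup.center G →
      ∃ (k : ℕ) (N r δ : Fin k → ℕ), 0 < k ∧ (∀ i, 3 ≤ N i ∧ (r i).Prime) ∧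
        Op p (WX q (HP k N r δ) (Subgroup.center (HP k N r δ))) = Subgroup.center _ ∧
        ReproO p s G (WX q (HP k N r δ) (Subgroup.center (HP k N r δ))) := by
    intro G _ _ hG
    obtain ⟨k, N, r, δ, hk, hr, ι, hι, hC⟩ := emb_pi G _ hG
    haveI := finite_HP (δ := δ) fun i => ⟨(hr i).1, (hr i).2.1⟩
    exact ⟨k, N, r, δ, hk, fun i => ⟨(hr i).1, (hr i).2.1⟩,
      reproO_WX h hζ s hs hG ι hι hC⟩
  have k2 : ∀ (G : Type) [Group G] [Finite G], Op p G ≤ Subgroup.center G →
      IsCyclic (Op p G) → ∃ N r δ : ℕ, 3 ≤ N ∧ r.Prime ∧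
        Op p (WX q (HS N r δ) (Subgroup.center (HS N r δ))) = Subgroup.center _ ∧
        ReproO p s G (WX q (HS N r δ) (Subgroup.center (HS N r δ))) := by
    intro G _ _ hG hc
    obtain ⟨N, r, δ, hN, hr, hδ, ι, hι, hC⟩ := emb_cyc G _ hG hc
    haveI := finite_HS (N := N) (δ := δ) hr
    exact ⟨N, r, δ, hN, hr, reproO_WX h hζ s hs hG ι hι hC⟩
  have key : ∀ R : (ℕ → ℤ) → Prop, ∀ (G X : Type) [Group G] [Group X], ReproO p s G X →
      (∀ b : MonoidAlgebra L X, IsBlock b → AboveO p b → R fun d => dadeO p s d b) →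
      ∀ b : MonoidAlgebra L G, IsBlock b → AboveO p b → R fun d => dadeO p s d b := by
    intro R G X _ _ hR h1 b hb hA
    obtain ⟨b', hb', -, -, h2, h3⟩ := hR b hb
    have h4 := h1 b' hb' (h2.mpr hA)
    have h5 : (fun d => dadeO p s d b') = fun d => dadeO p s d b := funext h3
    rwa [h5] at h4
  have key0 : ∀ (G X : Type) [Group G] [Group X], ReproO p s G X → DadeO p s X →
      DadeO p s G := by
    intro G X _ _ hR h1 b hb hA d
    exact congrFun (f := fun d => dadeO p s d b) (g := fun _ => 0)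
      (key (fun z => z = fun _ => 0) G X hR
        (fun b' hb' h0 => funext fun d => h1 b' hb' h0 d) b hb hA) d
  refine ⟨fun G _ _ hG => ⟨k1 G hG, k2 G hG⟩, ⟨fun h1 X _ _ _ hX => h1 X hX.le,
    fun h1 G _ _ hG => ?_⟩, ⟨fun h1 X _ _ hX hO => h1 X hO.le (hO ▸ hX.2.1),
    fun h1 G _ _ hG hc => ?_⟩, fun R => ⟨fun h1 X _ _ _ hX => h1 X hX.le,
    fun h1 G _ _ hG => ?_⟩⟩
  · obtain ⟨k, N, r, δ, hk, hr, hO, hR⟩ := k1 G hG
    haveI := finite_HP (δ := δ) hr
    exact key0 G _ hR (h1 _ (mod1_HP h hr) hO)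
  · obtain ⟨N, r, δ, hN, hr, hO, hR⟩ := k2 G hG hc
    haveI := finite_HS (N := N) (δ := δ) hr
    exact key0 G _ hR (h1 _ (mod3_HS h hN hr) hO)
  · obtain ⟨k, N, r, δ, hk, hr, hO, hR⟩ := k1 G hG
    haveI := finite_HP (δ := δ) hr
    exact key R G _ hR (h1 _ (mod1_HP h hr) hO)
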