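import Pool.Agent.H373.MN.D3a

/-!
# Dade's alternating sums for chains which start with `O_p(G)`: definitions
-/

set_option autoImplicit false
set_option linter.unusedSectionVars false
set_option linter.style.haveILetI false

open scoped BigOperators Classical

noncomputable section

namespace Pool.Agent.H373.PD

open Pool.Agent.H373.BU hiding Ind

open Pool.Agent.H373.MN

open MonoidAlgebra hiding coeff_sum

open IsLocalRing

/-- `O_p(G)`: the subgroup generated by the normal `p`-subgroups. -/
def Op (p : ℕ) (G : Type) [Group G] : Subgroup G :=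
  sSup {N : Subgroup G | N.Normal ∧ IsPGroup p N}

/-- The chains `O_p(G) = P_0 < P_1 < ... < P_n` of `p`-subgroups of `G`, as sets of subgroups. -/
def pchO (p : ℕ) (G : Type) [Group G] : Set (Set (Subgroup G)) :=
  {C | Op p G ∈ C ∧ IsChain (· ≤ ·) C ∧ ∀ P ∈ C, IsPGroup p P ∧ Op p G ≤ P}

section defs

variable {L : Type} [CommRing L] [IsLocalRing L] {Ω : Type} [Field Ω] {G : Type} [Group G]

/-- Dade's alternating sum of the numbers `k^d(B_C)` over the classes of the chains
`O_p(G) = P_0 < P_1 < ... < P_n`. -/
def dadeO (p : ℕ) (s : L →+* Ω) (d : ℕ) (b : MonoidAlgebra L G) : ℤ :=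
  ∑ᶠ c : Quotient (cjs (pchO p G)),
    (-1) ^ ((c.out : Set (Subgroup G)).ncard - 1) *
      (Nat.card (IrC p s d (c.out : Set (Subgroup G)) b) : ℤ)

end defs

section defs

variable {L : Type} [CommRing L] [IsDomain L] [IsDiscreteValuationRing L] {Ω : Type} [Field Ω]

/-- The defect groups of the block `b` contain `O_p(G)` properly. -/
def AboveO (p : ℕ) {G : Type} [Group G] (b : MonoidAlgebra L G) : Prop :=
  ∀ D : Subgroup G, IsDefect p b D → Op p G < D

/-- **Dade's conjecture** for the group `G`, for the blocks of `ΛG`: all the alternating sums vanish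
for the blocks the defect groups of which contain `O_p(G)` properly. -/
def DadeO (p : ℕ) (s : L →+* Ω) (G : Type) [Group G] : Prop :=
  ∀ b : MonoidAlgebra L G, IsBlock b → AboveO p b → ∀ d : ℕ, dadeO p s d b = 0

/-- The blocks of `ΛG` are reproduced by blocks of `ΛY`: a matrix ring over the block algebra is
isomorphic to the new one, the defect groups are isomorphic, and all of Dade's alternating sums are the
same. -/
def ReproO (p : ℕ) (s : L →+* Ω) (G Y : Type) [Group G] [Group Y] : Prop :=
  ∀ (b : MonoidAlgebra L G) (hb : IsBlock b), ∃ (b' : MonoidAlgebra L Y) (hb' : IsBlock b'),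
    (∃ r : ℕ, 0 < r ∧ Nonempty (Matrix (Fin r) (Fin r) (BlockAlg hb) ≃+* BlockAlg hb')) ∧
    (∀ D : Subgroup G, IsDefect p b D → ∃ D' : Subgroup Y, IsDefect p b' D' ∧
      Nonempty (D' ≃* D)) ∧
    (AboveO p b' ↔ AboveO p b) ∧
    ∀ d : ℕ, dadeO p s d b' = dadeO p s d b

end defs

end Pool.Agent.H373.PD
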