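import Pool.Agent.H373.MN.D1
import Pool.Agent.H373.PD.Q6

/-!
# The alternating sums of Knörr and Robinson for chains which start with `O_p(G)`: definitions
-/

set_option autoImplicit false
set_option linter.unusedSectionVars false
set_option linter.style.haveILetI false

open scoped BigOperators Classical

noncomputable section

namespace Pool.Agent.H373.PD

open Pool.Agent.H373.BU hiding Ind

open Pool.Agent.H373.MN

section defs

variable {k : Type} [Field k]

/-- The alternating sum of the numbers `k(B_C)` over the classes of the chains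
`O_p(G) = P_0 < P_1 < ... < P_n`. -/
def krO (p : ℕ) {G : Type} [Group G] (b : MonoidAlgebra k G) : ℤ :=
  ∑ᶠ c : Quotient (cjs (pchO p G)),
    (-1) ^ ((c.out : Set (Subgroup G)).ncard - 1) * (kC (c.out : Set (Subgroup G)) b : ℤ)

/-- The defect groups of the block `B` contain `O_p(G)` properly. -/
def AboveK (p : ℕ) {G : Type} [Group G] (B : Blk k G) : Prop :=
  ∀ D : Subgroup G, B.IsDef p D → Op p G < D

/-- The alternating sums vanish for all blocks of `kG` the defect groups of which contain `O_p(G)`
properly. -/
def KRO (p : ℕ) (k G : Type) [Field k] [Group G] : Prop :=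
  ∀ B : Blk k G, AboveK p B → krO p B.e = 0

/-- Every block of `kG` is reproduced by a block of `kY`: a matrix ring over the given block algebra is
isomorphic to the new one, the defect groups are isomorphic, and the alternating sums are the same. -/
def ReproKO (p : ℕ) (k G Y : Type) [Field k] [Group G] [Group Y] : Prop :=
  ∀ B : Blk k G, ∃ B' : Blk k Y,
    (∃ r : ℕ, 0 < r ∧ Nonempty (Matrix (Fin r) (Fin r) B.Alg ≃+* B'.Alg)) ∧
    (∀ D : Subgroup G, B.IsDef p D → ∃ D' : Subgroup Y, B'.IsDef p D' ∧ Nonempty (D' ≃* D)) ∧
    (AboveK p B' ↔ AboveK p B) ∧ krO p B'.e = krO p B.e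

end defs

end Pool.Agent.H373.PD
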