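import Pool.Agent.H373.PD.P10
import Pool.Agent.H373.PD.Q8

/-!
# The alternating sums of Knörr and Robinson for groups with central `O_p(G)`
-/

set_option autoImplicit false
set_option linter.unusedSectionVars false
set_option linter.style.haveILetI false

open scoped BigOperators Classical MatrixGroups

noncomputable section

namespace Pool.Agent.H373.PD

open Pool.Agent.H373.BU hiding Ind

open Pool.Agent.H373.MN

open MonoidAlgebra hiding coeff_sum

section eq

variable {k : Type} [Field k] {G : Type} [Group G] [Finite G]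

/-- the correspondence of the blocks -/
def cbI (C : Set (Subgroup G)) (b : MonoidAlgebra k G) : CB C b ≃ SB (insert ⊥ C) b where
  toFun w := ⟨me k (phE C) w, me_isBlock _ w.2.1, by
    have h := congrArg (me k (phE C)) w.2.2
    rw [map_mul, phE_brc] at h
    exact h⟩
  invFun w := ⟨me k (phE C).symm w, me_isBlock _ w.2.1, by
    have h := congrArg (me k (phE C).symm) w.2.2
    rw [map_mul, ← phE_brc, me_symm_me] at h
    exact h⟩
  left_inv w := Subtype.ext (me_symm_me _ _)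
  right_inv w := Subtype.ext (me_me_symm _ _)

theorem kC_ins (C : Set (Subgroup G)) (b : MonoidAlgebra k G) :
    kC C b = ∑ᶠ w : SB (insert ⊥ C) b, kB (w : MonoidAlgebra k (KC (insert ⊥ C))) := by
  unfold kC
  refine finsum_eq_of_bijective (cbI C b) (cbI C b).bijective fun w => ?_
  exact (kB_me _ _).symm

/-- the summands -/
def fK (p : ℕ) (A : Subgroup G) (D : Set (Subgroup G)) (w : MonoidAlgebra k (KC D)) : ℤ :=
  (-1) ^ ((cut p A D).ncard - 1) * (kB w : ℤ)

theorem fK_kck (p : ℕ) (A : Subgroup G) (g : G) (D₁ D₂ : Set (Subgroup G)) (h : Cj g D₁ D₂)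
    (w : MonoidAlgebra k (KC D₁)) : fK p A D₂ (me _ (kck h) w) = fK p A D₁ w := by
  unfold fK
  rw [kB_me]
  have h1 : cs g '' cut p A D₁ = cut p A D₂ := cj_cut h
  rw [← h1, Set.ncard_image_of_injective]
  exact fun P Q hPQ => by
    rw [← cs_inv_cs g P, hPQ, cs_inv_cs]

theorem krO_eq {p : ℕ} (hG : Op p G ≤ Subgroup.center G) {b : MonoidAlgebra k G}
    (hb : ∀ a, b * a = a * b) :
    krO p b = chSum (pchB p (Op p G)) b (fK p (Op p G)) := by
  unfold krO chSum
  rw [pchO_eq hG]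
  refine finsum_eq_of_bijective clE clE_bij fun c => ?_
  obtain ⟨g, hg⟩ : ∃ g, Cj g (insert ⊥ (c.out : Set (Subgroup G)))
      ((clE c).out : Set (Subgroup G)) := by
    have h1 : clE (p := p) (Z := Op p G) c = Quotient.mk _
        ⟨insert ⊥ (c.out : Set (Subgroup G)), insert_mem c.out.2⟩ := by
      conv_lhs => rw [← Quotient.out_eq c]
      rfl
    have h2 : Quotient.mk (cjs (pchB p (Op p G))) ⟨insert ⊥ (c.out : Set (Subgroup G)),
        insert_mem c.out.2⟩ = Quotient.mk _ (clE c).out := by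
      rw [Quotient.out_eq, h1]
    exact Quotient.exact h2
  rw [← sum_conj hb hg (fun w => fK_kck p (Op p G) g _ _ hg w), kC_ins]
  haveI := Fintype.ofFinite (SB (insert ⊥ (c.out : Set (Subgroup G))) b)
  rw [finsum_eq_sum_of_fintype, finsum_eq_sum_of_fintype, Nat.cast_sum, Finset.mul_sum]
  refine Finset.sum_congr rfl fun w _ => ?_
  unfold fK
  rw [cut_insert c.out.2]

end eq

section main

variable {p : ℕ} [hp : Fact p.Prime] {k X V G : Type} [Field k] [CharP k p] [Group X]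
  [Group V] [Group G] [Fintype X] [Fintype V] [Finite G] (I : Mon k X V G)
  (hV : ¬ p ∣ Nat.card V) {u : k} (hu : u * (Fintype.card V : k) = 1)
  (hG : Op p G ≤ Subgroup.center G) (hX : Op p X ≤ Subgroup.center X)
  (hA : (Op p G).map I.j = Op p X)

include hV hu hG hX hA in
/-- the alternating sums agree -/
theorem krO_cen {b : MonoidAlgebra k G} (hb : ∀ a, b * a = a * b) (hi : b * b = b) :
    krO p (I.cen u b) = krO p b := by
  rw [krO_eq hX (I.cen_comm hu hb), krO_eq hG hb]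
  refine I.chSum_transfer hV hu (fun C hC => pch_prop (pchB_pch hC))
    (fun C hC => pch_prop (pchB_pch hC)) (fun C => jS_pchB I hA hX C)
    (fun x C C' h hC => pchB_conj h hC) hb hi
    (fun C hC g h => pch_NC (pchB_pch hC) h)
    (fun C hC g h => pch_NC (pchB_pch hC) h) _ _
    (fun g C₁ C₂ h w _ => fK_kck p _ g C₁ C₂ h w)
    (fun g C₁ C₂ h w _ => fK_kck p _ g C₁ C₂ h w) ?_
  intro C hC w hw
  unfold fK
  have hC' := pch_prop (pchB_pch hC)
  rw [(I.lev C hC'.1 hC'.2 hV).kB_cen (I.u_V0 hV hu hC'.2) hw.idem hw.central,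
    cut_jS I hA hX C, I.ncard_jS]

include hV hG hX hA in
theorem reproKO_of_mon : ReproKO p k G X := by
  rintro ⟨e, he⟩
  have hV0 : (Fintype.card V : k) ≠ 0 := by
    rw [← Nat.card_eq_fintype_card, Ne, CharP.cast_eq_zero_iff k p]
    exact hV
  have hu : ((Fintype.card V : k)⁻¹) * (Fintype.card V : k) = 1 := inv_mul_cancel₀ hV0
  haveI : Nonempty I.Q := ⟨QuotientGroup.mk 1⟩
  have hab := above_field (p := p) I hu hA hX he
  rw [op_eq hG, op_eq hX] at hab
  refine ⟨⟨I.cen _ e, I.cen_isBlock hu he⟩, ⟨Fintype.card I.Q, Fintype.card_pos, ⟨?_⟩⟩, ?_,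
    hab, krO_cen I hV hu hG hX hA he.central he.idem⟩
  · exact ((Matrix.reindexAlgEquiv ℤ (BlockAlg he) (Fintype.equivFin I.Q).symm).toRingEquiv).trans
      (I.blockEquiv hu he)
  · rintro D ⟨hD, hD'⟩
    exact ⟨D.map I.j, ⟨hD.map I.j, I.cen_isMinTr hu he hD'⟩,
      ⟨(D.equivMapOfInjective I.j I.j_inj).symm⟩⟩

end main

section main

variable {p : ℕ} [hp : Fact p.Prime] {k : Type} [Field k] [CharP k p]

theorem reproKO_WX [IsAlgClosed k] {q : ℕ} (h : Good p q)
    {G : Type} [Group G] [Finite G] (hG : Op p G ≤ Subgroup.center G)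
    {H : Type} [Group H] [Finite H] (ι : G →* H) (hι : Function.Injective ι)
    (hC : (Op p G).map ι = Subgroup.center H) :
    Op p (WX q H (Subgroup.center H)) = Subgroup.center (WX q H (Subgroup.center H)) ∧
      ReproKO p k G (WX q H (Subgroup.center H)) := by
  haveI : Fact q.Prime := ⟨h.prime⟩
  haveI : NeZero q := ⟨h.prime.ne_zero⟩
  haveI := Fintype.ofFinite (WX q H (Subgroup.center H))
  have hk : ∀ m : ℕ, ¬ p ∣ m → (m : k) ≠ 0 := fun m hm => by
    rwa [Ne, CharP.cast_eq_zero_iff k p]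
  obtain ⟨ζ, hζ⟩ := exists_root (p := p) k (hk _ h.ndvd.1)
  obtain ⟨V, _, _, I, hV, hI⟩ := exists_monR h hζ ι hι hC (le_refl _)
  haveI := Fintype.ofFinite V
  have hpO : IsPGroup p (Op p G) := by
    have h1 := zp_pgroup (p := p) (Z := Op p G)
    rwa [op_eq hG] at h1
  have hX := op_WX h (pgroup_map I.j hpO hI)
  exact ⟨hX, reproKO_of_mon I hV hG hX.le (hI.trans hX.symm)⟩

end main

end Pool.Agent.H373.PD

open Pool.Agent.H373.BU Pool.Agent.H373.MN Pool.Agent.H373.PD in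
theorem Pool.Agent.H373.PD.kr_central (p : ℕ) [hp : Fact p.Prime] :
    (∀ N : ℕ, ∃ q, N < q ∧ Good p q) ∧
    ∀ q, Good p q →
      (∀ (k : ℕ) (N r δ : Fin k → ℕ), (∀ i, 3 ≤ N i ∧ (r i).Prime) →
        Mod1 (WX q (HP k N r δ) (Subgroup.center (HP k N r δ))) ∧
        Op p (WX q (HP k N r δ) (Subgroup.center (HP k N r δ))) ≤ Subgroup.center _) ∧
      (∀ N r δ : ℕ, 3 ≤ N → r.Prime →
        Mod3 (WX q (HS N r δ) (Subgroup.center (HS N r δ))) ∧
        Op p (WX q (HS N r δ) (Subgroup.center (HS N r δ))) ≤ Subgroup.center _) ∧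
      ∀ (F : Type) [Field F] [IsAlgClosed F] [CharP F p],
        (∀ (G : Type) [Group G] [Finite G], Op p G ≤ Subgroup.center G →
          (∃ (k : ℕ) (N r δ : Fin k → ℕ), 0 < k ∧ (∀ i, 3 ≤ N i ∧ (r i).Prime) ∧
            Op p (WX q (HP k N r δ) (Subgroup.center (HP k N r δ))) = Subgroup.center _ ∧
            ReproKO p F G (WX q (HP k N r δ) (Subgroup.center (HP k N r δ)))) ∧
          (IsCyclic (Op p G) → ∃ N r δ : ℕ, 3 ≤ N ∧ r.Prime ∧
            Op p (WX q (HS N r δ) (Subgroup.center (HS N r δ))) = Subgroup.center _ ∧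
            ReproKO p F G (WX q (HS N r δ) (Subgroup.center (HS N r δ))))) ∧
        ((∀ (G : Type) [Group G] [Finite G], Op p G ≤ Subgroup.center G → KRO p F G) ↔
          ∀ (X : Type) [Group X] [Finite X], Mod1 X → Op p X = Subgroup.center X →
            KRO p F X) ∧
        ((∀ (G : Type) [Group G] [Finite G], Op p G ≤ Subgroup.center G →
            IsCyclic (Op p G) → KRO p F G) ↔
          ∀ (X : Type) [Group X] [Finite X], Mod3 X → Op p X = Subgroup.center X →
            KRO p F X) ∧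
        ∀ R : ℤ → Prop,
          (∀ (G : Type) [Group G] [Finite G], Op p G ≤ Subgroup.center G →
            ∀ B : Blk F G, AboveK p B → R (krO p B.e)) ↔
          ∀ (X : Type) [Group X] [Finite X], Mod1 X → Op p X = Subgroup.center X →
            ∀ B : Blk F X, AboveK p B → R (krO p B.e) := by
  refine ⟨exists_good p, fun q h => ⟨fun k N r δ hr => ?_, fun N r δ hN hr => ?_, ?_⟩⟩
  · haveI := finite_HP (δ := δ) hr
    exact ⟨mod1_HP h hr, sSup_le fun Y hY => core_mod h Y hY.1 hY.2⟩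
  · haveI := finite_HS (N := N) (δ := δ) hr
    exact ⟨mod3_HS h hN hr, sSup_le fun Y hY => core_mod h Y hY.1 hY.2⟩
  intro F _ _ _
  haveI : NeZero q := ⟨h.prime.ne_zero⟩
  have k1 : ∀ (G : Type) [Group G] [Finite G], Op p G ≤ Subgroup.center G →
      ∃ (k : ℕ) (N r δ : Fin k → ℕ), 0 < k ∧ (∀ i, 3 ≤ N i ∧ (r i).Prime) ∧
        Op p (WX q (HP k N r δ) (Subgroup.center (HP k N r δ))) = Subgroup.center _ ∧
        ReproKO p F G (WX q (HP k N r δ) (Subgroup.center (HP k N r δ))) := by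
    intro G _ _ hG
    obtain ⟨k, N, r, δ, hk, hr, ι, hι, hC⟩ := emb_pi G _ hG
    haveI := finite_HP (δ := δ) fun i => ⟨(hr i).1, (hr i).2.1⟩
    exact ⟨k, N, r, δ, hk, fun i => ⟨(hr i).1, (hr i).2.1⟩, reproKO_WX h hG ι hι hC⟩
  have k2 : ∀ (G : Type) [Group G] [Finite G], Op p G ≤ Subgroup.center G →
      IsCyclic (Op p G) → ∃ N r δ : ℕ, 3 ≤ N ∧ r.Prime ∧
        Op p (WX q (HS N r δ) (Subgroup.center (HS N r δ))) = Subgroup.center _ ∧
        ReproKO p F G (WX q (HS N r δ) (Subgroup.center (HS N r δ))) := by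
    intro G _ _ hG hc
    obtain ⟨N, r, δ, hN, hr, hδ, ι, hι, hC⟩ := emb_cyc G _ hG hc
    haveI := finite_HS (N := N) (δ := δ) hr
    exact ⟨N, r, δ, hN, hr, reproKO_WX h hG ι hι hC⟩
  have key : ∀ R : ℤ → Prop, ∀ (G X : Type) [Group G] [Group X], ReproKO p F G X →
      (∀ B : Blk F X, AboveK p B → R (krO p B.e)) →
      ∀ B : Blk F G, AboveK p B → R (krO p B.e) := by
    intro R G X _ _ hR h1 B hA
    obtain ⟨B', -, -, h2, h3⟩ := hR B
    rw [← h3]
    exact h1 B' (h2.mpr hA)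
  refine ⟨fun G _ _ hG => ⟨k1 G hG, k2 G hG⟩, ⟨fun h1 X _ _ _ hX => h1 X hX.le,
    fun h1 G _ _ hG => ?_⟩, ⟨fun h1 X _ _ hX hO => h1 X hO.le (hO ▸ hX.2.1),
    fun h1 G _ _ hG hc => ?_⟩, fun R => ⟨fun h1 X _ _ _ hX => h1 X hX.le,
    fun h1 G _ _ hG => ?_⟩⟩
  · obtain ⟨k, N, r, δ, hk, hr, hO, hR⟩ := k1 G hG
    haveI := finite_HP (δ := δ) hr
    exact key (fun z => z = 0) G _ hR (h1 _ (mod1_HP h hr) hO)
  · obtain ⟨N, r, δ, hN, hr, hO, hR⟩ := k2 G hG hc
    haveI := finite_HS (N := N) (δ := δ) hr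
    exact key (fun z => z = 0) G _ hR (h1 _ (mod3_HS h hN hr) hO)
  · obtain ⟨k, N, r, δ, hk, hr, hO, hR⟩ := k1 G hG
    haveI := finite_HP (δ := δ) hr
    exact key R G _ hR (h1 _ (mod1_HP h hr) hO)
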