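import Pool.Agent.H373.PD.Q7
import Pool.Agent.H373.PD.Q8

/-!
# Families of groups
-/

set_option autoImplicit false
set_option linter.unusedSectionVars false

open scoped Classical MatrixGroups

noncomputable section

namespace Pool.Agent.H373.PD

open Pool.Agent.H373.BU Pool.Agent.H373.MN

/-- Let `G` be a finite group with `O_p(G) ≤ Z(G)`. The blocks of `FG` and the sums of Knörr and
Robinson are reproduced by `X_n` for `n ≥ |G| ^ 2 + 3 |G| + 5` if `O_p(G) = 1`, by `X_H` for a group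
`H = SL(N, r) / K` if `O_p(G)` is cyclic, and by `X_H` for a direct product `H` of such groups in
general; moreover `O_p(X_H) = Z(X_H)`. -/
def ReproAllK (p q : ℕ) (F : Type) [Field F] : Prop :=
  ∀ (G : Type) [Group G] [Finite G], Op p G ≤ Subgroup.center G →
    (Op p G = ⊥ → ∀ n : ℕ, Nat.card G ^ 2 + 3 * Nat.card G + 5 ≤ n → ReproKO p F G (XP n q)) ∧
    (IsCyclic (Op p G) → ∃ N r δ : ℕ, 3 ≤ N ∧ r.Prime ∧
      Op p (XW q (HS N r δ)) = Subgroup.center _ ∧ ReproKO p F G (XW q (HS N r δ))) ∧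
    ∃ (k : ℕ) (N r δ : Fin k → ℕ), 0 < k ∧ (∀ i, 3 ≤ N i ∧ (r i).Prime) ∧
      Op p (XW q (HP k N r δ)) = Subgroup.center _ ∧ ReproKO p F G (XW q (HP k N r δ))

end Pool.Agent.H373.PD
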