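import Pool.Agent.H373.PD.P11
import Pool.Agent.H373.PD.Q9

/-!
# Groups with `O_p(G) = 1`
-/

set_option autoImplicit false
set_option linter.unusedSectionVars false
set_option linter.style.haveILetI false

open scoped BigOperators Classical MatrixGroups

noncomputable section

namespace Pool.Agent.H373.PD

open Pool.Agent.H373.BU hiding Ind

open Pool.Agent.H373.MN

open MonoidAlgebra hiding coeff_sum

open IsLocalRing

section op

variable {p : ℕ} {G : Type} [Group G]

theorem noCore_iff : NoCore p G ↔ Op p G = ⊥ := by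
  constructor
  · intro h
    rw [eq_bot_iff]
    exact sSup_le fun N hN => (h N hN.1 hN.2).le
  · intro h N hN hp
    rw [eq_bot_iff, ← h]
    exact le_sSup ⟨hN, hp⟩

theorem pchO_bot (h : Op p G = ⊥) : pchO p G = pch p G := by
  unfold pchO pch
  rw [h]
  ext C
  exact ⟨fun hC => ⟨hC.1, hC.2.1, fun P hP => (hC.2.2 P hP).1⟩,
    fun hC => ⟨hC.1, hC.2.1, fun P hP => ⟨hC.2.2 P hP, bot_le⟩⟩⟩

theorem isMinTr_bot {R : Type} [CommRing R] [Finite G] {e : MonoidAlgebra R G}
    (h : IsTr (⊥ : Subgroup G) e) : IsMinTr (⊥ : Subgroup G) e := by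
  refine ⟨h, fun Q _ => ?_⟩
  rw [Subgroup.card_bot]
  exact Nat.card_pos

theorem above_pos {R : Type} [CommRing R] [Finite G] {e : MonoidAlgebra R G} :
    (∀ D : Subgroup G, IsPGroup p D ∧ IsMinTr D e → ⊥ < D) ↔ ¬ IsTr (⊥ : Subgroup G) e := by
  constructor
  · intro h h1
    exact lt_irrefl _ (h ⊥ ⟨IsPGroup.of_bot, isMinTr_bot h1⟩)
  · intro h D hD
    rw [bot_lt_iff_ne_bot]
    rintro rfl
    exact h hD.2.1

end op

section defs

variable {L : Type} [CommRing L] [IsDomain L] [IsDiscreteValuationRing L] {Ω : Type} [Field Ω]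

theorem aboveO_iff {p : ℕ} {G : Type} [Group G] [Finite G] (h : Op p G = ⊥)
    (b : MonoidAlgebra L G) : AboveO p b ↔ PosDefect (red (rs L) b) := by
  unfold AboveO IsDefect PosDefect
  rw [h]
  exact above_pos

theorem dadeO_bot {p : ℕ} {G : Type} [Group G] (h : Op p G = ⊥) (s : L →+* Ω) (d : ℕ)
    (b : MonoidAlgebra L G) : dadeO p s d b = dadeSum p s d b := by
  unfold dadeO dadeSum
  rw [pchO_bot h]

theorem reproO_bot {p : ℕ} {s : L →+* Ω} {G Y : Type} [Group G] [Group Y] [Finite G] [Finite Y]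
    (hG : Op p G = ⊥) (hY : Op p Y = ⊥) (h : ReproD p s G Y) : ReproO p s G Y := by
  intro b hb
  obtain ⟨b', hb', h1, h2, h3, h4⟩ := h b hb
  refine ⟨b', hb', h1, h2, ?_, fun d => ?_⟩
  · rw [aboveO_iff hG, aboveO_iff hY]
    exact h3
  · rw [dadeO_bot hG, dadeO_bot hY]
    exact h4 d

end defs

section defs

variable {k : Type} [Field k]

theorem aboveK_iff {p : ℕ} {G : Type} [Group G] [Finite G] (h : Op p G = ⊥)
    (B : Blk k G) : AboveK p B ↔ PosDefect B.e := by
  unfold AboveK PosDefect Blk.IsDef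
  rw [h]
  exact above_pos

theorem krO_bot {p : ℕ} {G : Type} [Group G] (h : Op p G = ⊥)
    (b : MonoidAlgebra k G) : krO p b = krSum p b := by
  unfold krO krSum
  rw [pchO_bot h]

theorem reproKO_bot {p : ℕ} {G Y : Type} [Group G] [Group Y] [Finite G] [Finite Y]
    (hG : Op p G = ⊥) (hY : Op p Y = ⊥) (h : ReproKR p k G Y) : ReproKO p k G Y := by
  intro B
  obtain ⟨B', h1, h2, h3, h4⟩ := h B
  refine ⟨B', h1, h2, ?_, ?_⟩
  · rw [aboveK_iff hG, aboveK_iff hY]
    exact h3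
  · rw [krO_bot hG, krO_bot hY]
    exact h4

end defs

end Pool.Agent.H373.PD

open Pool.Agent.H373.BU Pool.Agent.H373.MN Pool.Agent.H373.PD IsLocalRing in
theorem Pool.Agent.H373.PD.dade_full (p : ℕ) [hp : Fact p.Prime] :
    (∀ N : ℕ, ∃ q, N < q ∧ Good p q) ∧
    ∀ q, Good p q → FamO p q ∧
      ∀ (L : Type) [CommRing L] [IsDomain L] [IsDiscreteValuationRing L]
        [IsAdicComplete (maximalIdeal L) L] [CharP (ResidueField L) p] (W : Type) [Field W]
        (s : L →+* W), Function.Injective s →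
        (IsAlgClosed (ResidueField L) → ∃ ζ : L, IsPrimitiveRoot ζ ((q - 1) / 2)) ∧
        ((∃ ζ : L, IsPrimitiveRoot ζ ((q - 1) / 2)) →
          ReproAllO p q s ∧
          (∀ S : Set ℕ, S.Infinite →
            ((∀ (G : Type) [Group G] [Finite G], Op p G = ⊥ → DadeO p s G) ↔
              ∀ n ∈ S, 5 ≤ n → DadeO p s (XP n q))) ∧
          ((∀ (G : Type) [Group G] [Finite G], Op p G ≤ Subgroup.center G →
              IsCyclic (Op p G) → DadeO p s G) ↔
            ∀ (X : Type) [Group X] [Finite X], Mod3 X → Op p X = Subgroup.center X →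
              DadeO p s X) ∧
          ((∀ (G : Type) [Group G] [Finite G], Op p G ≤ Subgroup.center G → DadeO p s G) ↔
            ∀ (X : Type) [Group X] [Finite X], Mod1 X → Op p X = Subgroup.center X →
              DadeO p s X) ∧
          ∀ R : (ℕ → ℤ) → Prop,
            (∀ (G : Type) [Group G] [Finite G], Op p G ≤ Subgroup.center G →
              ∀ b : MonoidAlgebra L G, IsBlock b → AboveO p b → R fun d => dadeO p s d b) ↔
            ∀ (X : Type) [Group X] [Finite X], Mod1 X → Op p X = Subgroup.center X →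
              ∀ b : MonoidAlgebra L X, IsBlock b → AboveO p b →
                R fun d => dadeO p s d b) := by
  obtain ⟨h0, hC⟩ := Pool.Agent.H373.PD.dade_central p
  refine ⟨h0, fun q h => ?_⟩
  obtain ⟨c1, c2, c3⟩ := hC q h
  have hX : ∀ n, 5 ≤ n → Op p (XP n q) = ⊥ := fun n hn => noCore_iff.mp (noCore_XP h hn)
  refine ⟨⟨fun n hn => ⟨threeNormal_XP h hn, primitive_XP h hn, hX n hn⟩, c1, c2⟩, ?_⟩
  intro L _ _ _ _ _ W _ s hs
  haveI : NeZero q := ⟨h.prime.ne_zero⟩
  obtain ⟨c4, c5⟩ := c3 L W s hs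
  refine ⟨c4, fun hζ => ?_⟩
  obtain ⟨c6, c7, c8, c9⟩ := c5 hζ
  have k0 : ∀ (G : Type) [Group G] [Finite G], Op p G = ⊥ →
      ∀ n : ℕ, Nat.card G ^ 2 + 3 * Nat.card G + 5 ≤ n → ReproO p s G (XP n q) :=
    fun G _ _ hG n hn =>
      reproO_bot hG (hX n (by omega)) (reproD_XP h hζ s hs G (n := n) (by omega))
  refine ⟨fun G _ _ hG => ⟨k0 G, (c6 G hG).2, (c6 G hG).1⟩, fun S hS => ⟨?_, ?_⟩, c8, c7, c9⟩
  · exact fun h1 n _ hn => h1 (XP n q) (hX n hn)
  · intro h1 G _ _ hG b hb hA d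
    obtain ⟨n, hnS, hn⟩ := hS.exists_gt (Nat.card G ^ 2 + 3 * Nat.card G + 5)
    obtain ⟨b', hb', -, -, h2, h3⟩ := k0 G hG n (by omega) b hb
    rw [← h3]
    exact h1 n hnS (by omega) b' hb' (h2.mpr hA) d

open Pool.Agent.H373.BU Pool.Agent.H373.MN Pool.Agent.H373.PD in
theorem Pool.Agent.H373.PD.kr_full (p : ℕ) [hp : Fact p.Prime] :
    (∀ N : ℕ, ∃ q, N < q ∧ Good p q) ∧
    ∀ q, Good p q → FamO p q ∧
      ∀ (F : Type) [Field F] [IsAlgClosed F] [CharP F p],
        ReproAllK p q F ∧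
        (∀ S : Set ℕ, S.Infinite →
          ((∀ (G : Type) [Group G] [Finite G], Op p G = ⊥ → KRO p F G) ↔
            ∀ n ∈ S, 5 ≤ n → KRO p F (XP n q))) ∧
        ((∀ (G : Type) [Group G] [Finite G], Op p G ≤ Subgroup.center G →
            IsCyclic (Op p G) → KRO p F G) ↔
          ∀ (X : Type) [Group X] [Finite X], Mod3 X → Op p X = Subgroup.center X →
            KRO p F X) ∧
        ((∀ (G : Type) [Group G] [Finite G], Op p G ≤ Subgroup.center G → KRO p F G) ↔
          ∀ (X : Type) [Group X] [Finite X], Mod1 X → Op p X = Subgroup.center X →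
            KRO p F X) ∧
        ∀ R : ℤ → Prop,
          (∀ (G : Type) [Group G] [Finite G], Op p G ≤ Subgroup.center G →
            ∀ B : Blk F G, AboveK p B → R (krO p B.e)) ↔
          ∀ (X : Type) [Group X] [Finite X], Mod1 X → Op p X = Subgroup.center X →
            ∀ B : Blk F X, AboveK p B → R (krO p B.e) := by
  obtain ⟨h0, hC⟩ := Pool.Agent.H373.PD.kr_central p
  refine ⟨h0, fun q h => ?_⟩
  obtain ⟨c1, c2, c3⟩ := hC q h
  have hX : ∀ n, 5 ≤ n → Op p (XP n q) = ⊥ := fun n hn => noCore_iff.mp (noCore_XP h hn)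
  refine ⟨⟨fun n hn => ⟨threeNormal_XP h hn, primitive_XP h hn, hX n hn⟩, c1, c2⟩, ?_⟩
  intro F _ _ _
  haveI : NeZero q := ⟨h.prime.ne_zero⟩
  obtain ⟨c6, c7, c8, c9⟩ := c3 F
  have k0 : ∀ (G : Type) [Group G] [Finite G], Op p G = ⊥ →
      ∀ n : ℕ, Nat.card G ^ 2 + 3 * Nat.card G + 5 ≤ n → ReproKO p F G (XP n q) :=
    fun G _ _ hG n hn =>
      reproKO_bot hG (hX n (by omega)) (reproKR_XP h G (n := n) (by omega))
  refine ⟨fun G _ _ hG => ⟨k0 G, (c6 G hG).2, (c6 G hG).1⟩, fun S hS => ⟨?_, ?_⟩, c8, c7, c9⟩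
  · exact fun h1 n _ hn => h1 (XP n q) (hX n hn)
  · intro h1 G _ _ hG B hA
    obtain ⟨n, hnS, hn⟩ := hS.exists_gt (Nat.card G ^ 2 + 3 * Nat.card G + 5)
    obtain ⟨B', -, -, h2, h3⟩ := k0 G hG n (by omega) B
    rw [← h3]
    exact h1 n hnS (by omega) B' (h2.mpr hA)
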