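import Pool.Agent.H373.PD.P1

/-!
# Dade's projective alternating sums: characters over a linear character of the central subgroup
-/

set_option autoImplicit false
set_option linter.unusedSectionVars false
set_option linter.style.haveILetI false

open scoped BigOperators Classical

noncomputable section

namespace Pool.Agent.H373.PD

open Pool.Agent.H373.BU hiding Ind

open Pool.Agent.H373.MN

open MonoidAlgebra hiding coeff_sum

open IsLocalRing

section irk

variable {L : Type} [CommRing L] [IsLocalRing L] {Ω : Type} [Field Ω]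

/-- the characters in the block `w` of defect `d` which lie over `lam` -/
def IrK (p : ℕ) (s : L →+* Ω) (d : ℕ) {K A : Type} [Group K] [Group A] (ζ : A →* K)
    (lam : A →* Ω) (w : MonoidAlgebra (ResidueField L) K) : Set (MonoidAlgebra Ω K) :=
  {ε | ε ∈ IrD p s d w ∧ ∀ a, MonoidAlgebra.single (ζ a) (1 : Ω) * ε = lam a • ε}

variable {p : ℕ} {s : L →+* Ω} {d : ℕ} {K K' A : Type} [Group K] [Group K'] [Group A]
  {ζ : A →* K} {lam : A →* Ω}

theorem mem_IrK_me (f : K ≃* K') {w : MonoidAlgebra (ResidueField L) K}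
    {ε : MonoidAlgebra Ω K} (h : ε ∈ IrK p s d ζ lam w) {ζ' : A →* K'}
    (hζ : ∀ a, f (ζ a) = ζ' a) : me Ω f ε ∈ IrK p s d ζ' lam (me _ f w) :=
  ⟨mem_IrD_me f h.1, fun a => by
    have h1 := congrArg (me Ω f) (h.2 a)
    rw [map_mul, me_single, map_smul, hζ] at h1
    exact h1⟩

theorem card_IrK_me (f : K ≃* K') (w : MonoidAlgebra (ResidueField L) K) {ζ' : A →* K'}
    (hζ : ∀ a, f (ζ a) = ζ' a) :
    Nat.card (IrK p s d ζ' lam (me _ f w)) = Nat.card (IrK p s d ζ lam w) := by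
  symm
  refine Nat.card_congr
    { toFun := fun ε => ⟨me Ω f ε, mem_IrK_me f ε.2 hζ⟩
      invFun := fun ε => ⟨me Ω f.symm ε, by
        have := mem_IrK_me (ζ' := ζ) f.symm ε.2 (fun a => by
          rw [← hζ, MulEquiv.symm_apply_apply])
        rwa [me_symm_me] at this⟩
      left_inv := fun ε => Subtype.ext (me_symm_me f _)
      right_inv := fun ε => Subtype.ext (me_me_symm f _) }

theorem finite_IrK [Finite K] (w : MonoidAlgebra (ResidueField L) K) :
    Finite (IrK p s d ζ lam w) := finite_Ir fun _ h => h.1.1.choose_spec.2.2.1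

end irk

section zn

variable {G : Type} [Group G] {Z : Subgroup G} (hZ : Z ≤ Subgroup.center G)

/-- the embedding of `Z` into the stabilisers of the chains -/
def zn (C : Set (Subgroup G)) : Z →* NC C :=
  Subgroup.inclusion (hZ.trans (le_iInf₂ fun _ _ => Subgroup.center_le_normalizer _))

/-- the homomorphism to the quotients -/
def zk (C : Set (Subgroup G)) : Z →* KC C := (pk C).comp (zn hZ C)

theorem kck_zk {g : G} {C₁ C₂ : Set (Subgroup G)} (h : Cj g C₁ C₂) (z : Z) :
    kck h (zk hZ C₁ z) = zk hZ C₂ z := by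
  change pk C₂ (nck h (zn hZ C₁ z)) = pk C₂ (zn hZ C₂ z)
  congr 1
  apply Subtype.ext
  change g * (z : G) * g⁻¹ = z
  rw [Subgroup.mem_center_iff.mp (hZ z.2) g, mul_inv_cancel_right]

end zn

section eq

variable {L : Type} [CommRing L] [IsDomain L] [IsDiscreteValuationRing L]
  [IsAdicComplete (maximalIdeal L) L] {Ω : Type} [Field Ω] {G : Type} [Group G] [Finite G]

theorem sInf_insert_bot (C : Set (Subgroup G)) : sInf (insert ⊥ C) = ⊥ := by
  rw [sInf_insert, bot_inf_eq]

/-- the isomorphism of `N_G(C)` and the quotient for the chain with the trivial group added -/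
def phE (C : Set (Subgroup G)) : NC C ≃* KC (insert ⊥ C) :=
  (MulEquiv.subgroupCongr (NC_insert C)).trans (pkE (sInf_insert_bot C))

theorem phE_brc {R : Type} [CommRing R] (C : Set (Subgroup G)) (b : MonoidAlgebra R G) :
    me R (phE C) (brc C b) = bq (insert ⊥ C) b := by
  have h1 : brc (insert ⊥ C) b = me R (MulEquiv.subgroupCongr (NC_insert C)) (brc C b) := by
    apply ext_coeff
    intro n
    obtain ⟨m, rfl⟩ := (MulEquiv.subgroupCongr (NC_insert C)).surjective n
    rw [me_coeff, brc_coeff, brc_coeff, sSup_insert_bot]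
    rfl
  have h2 : bq (insert ⊥ C) b = me R (pkE (sInf_insert_bot C)) (brc (insert ⊥ C) b) := rfl
  rw [h2, h1, me_apply, me_apply, me_apply, mp_comp]
  rfl

theorem phE_zn {Z : Subgroup G} (hZ : Z ≤ Subgroup.center G) (C : Set (Subgroup G)) (z : Z) :
    phE C (zn hZ C z) = zk hZ (insert ⊥ C) z := rfl

theorem card_IrZ {p : ℕ} (s : L →+* Ω) (d : ℕ) {Z : Subgroup G} (hZ : Z ≤ Subgroup.center G)
    (lam : Z →* Ω) (C : Set (Subgroup G)) (b : MonoidAlgebra L G) :
    Nat.card (IrZ p s d Z lam C b) = ∑ᶠ w : SB (insert ⊥ C) (red (rs L) b),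
      Nat.card (IrK p s d (zk hZ (insert ⊥ C)) lam
        (w : MonoidAlgebra (ResidueField L) (KC (insert ⊥ C)))) := by
  haveI : Finite (SB (insert ⊥ C) (red (rs L) b)) := finite_Ir fun ε h => h.1
  haveI := Fintype.ofFinite (SB (insert ⊥ C) (red (rs L) b))
  rw [finsum_eq_sum_of_fintype]
  have hbr := phE_brc C (red (rs L) b)
  have h1 : Nat.card (IrZ p s d Z lam C b) = Nat.card (Σ w : SB (insert ⊥ C) (red (rs L) b),
      IrK p s d (zk hZ (insert ⊥ C)) lam
        (w : MonoidAlgebra (ResidueField L) (KC (insert ⊥ C)))) := by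
    refine (Nat.card_congr (Equiv.ofBijective
      (fun t : (Σ w : SB (insert ⊥ C) (red (rs L) b),
        IrK p s d (zk hZ (insert ⊥ C)) lam
          (w : MonoidAlgebra (ResidueField L) (KC (insert ⊥ C)))) =>
        (⟨me Ω (phE C).symm t.2, ?_⟩ : IrZ p s d Z lam C b)) ⟨?_, ?_⟩)).symm
    · obtain ⟨⟨w, hw, hwb⟩, ⟨ε, hε⟩⟩ := t
      have h2 := mem_IrK_me (phE C).symm hε (ζ' := zn hZ C)
        (fun z => by rw [← phE_zn hZ C z, MulEquiv.symm_apply_apply])
      obtain ⟨⟨⟨f', hf', hfw', hε'⟩, hd'⟩, hz⟩ := h2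
      refine ⟨⟨⟨f', hf', ?_, hε'⟩, hd'⟩, fun n h => ?_⟩
      · rw [hfw']
        have h := congrArg (me (ResidueField L) (phE C).symm) hwb
        rw [map_mul] at h
        have h2 : me (ResidueField L) (phE C).symm (bq (insert ⊥ C) (red (rs L) b)) =
          brc C (red (rs L) b) := by
          rw [← hbr, me_symm_me]
        rwa [h2] at h
      · exact hz ⟨n, h⟩
    · rintro ⟨⟨w, hw⟩, ⟨ε, ⟨⟨f, hf, hfw, hε⟩, hd⟩, hz⟩⟩
        ⟨⟨w', hw'⟩, ⟨ε', ⟨⟨f', hf', hfw', hε'⟩, hd'⟩, hz'⟩⟩ h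
      have h2 : ε = ε' := (me Ω (phE C).symm).injective (congrArg Subtype.val h)
      subst h2
      have h3 : f = f' := by
        apply blk_eq hf hf'
        intro h4
        apply hε.1.ne_zero
        rw [← hε'.2, ← hε.2, mul_assoc, ← map_mul, h4, map_zero, mul_zero]
      subst h3
      have h4 : w = w' := hfw.symm.trans hfw'
      subst h4
      rfl
    · rintro ⟨ε, ⟨⟨f, hf, hfb, hε⟩, hd⟩, hz⟩
      have hw : me (ResidueField L) (phE C) (red (rs L) f) ∈
          SB (insert ⊥ C) (red (rs L) b) := by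
        refine ⟨me_isBlock _ (red_isBlock hf), ?_⟩
        have h := congrArg (me (ResidueField L) (phE C)) hfb
        rw [map_mul, hbr] at h
        exact h
      have hε' : ε ∈ IrK p s d (zn hZ C) lam (red (rs L) f) :=
        ⟨⟨⟨f, hf, rfl, hε⟩, hd⟩, fun z => hz (zn hZ C z) z.2⟩
      refine ⟨⟨⟨_, hw⟩, ⟨me Ω (phE C) ε, mem_IrK_me (phE C) hε' fun z => phE_zn hZ C z⟩⟩, ?_⟩
      exact Subtype.ext (me_symm_me _ _)
  rw [h1]
  haveI : ∀ w : SB (insert ⊥ C) (red (rs L) b),
      Finite (IrK p s d (zk hZ (insert ⊥ C)) lam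
        (w : MonoidAlgebra (ResidueField L) (KC (insert ⊥ C)))) := fun w => finite_IrK _
  haveI : ∀ w : SB (insert ⊥ C) (red (rs L) b),
      Fintype (IrK p s d (zk hZ (insert ⊥ C)) lam
        (w : MonoidAlgebra (ResidueField L) (KC (insert ⊥ C)))) :=
    fun w => Fintype.ofFinite _
  rw [Nat.card_sigma]

/-- the summands -/
def fB (p : ℕ) (s : L →+* Ω) (d : ℕ) (A : Subgroup G) {Z : Subgroup G}
    (hZ : Z ≤ Subgroup.center G)
    (lam : Z →* Ω) (D : Set (Subgroup G)) (w : MonoidAlgebra (ResidueField L) (KC D)) : ℤ :=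
  (-1) ^ ((cut p A D).ncard - 1) * (Nat.card (IrK p s d (zk hZ D) lam w) : ℤ)

theorem fB_kck (p : ℕ) (s : L →+* Ω) (d : ℕ) (A : Subgroup G) {Z : Subgroup G}
    (hZ : Z ≤ Subgroup.center G)
    (lam : Z →* Ω) (g : G) (D₁ D₂ : Set (Subgroup G)) (h : Cj g D₁ D₂)
    (w : MonoidAlgebra (ResidueField L) (KC D₁)) :
    fB p s d A hZ lam D₂ (me _ (kck h) w) = fB p s d A hZ lam D₁ w := by
  unfold fB
  rw [card_IrK_me (kck h) w (fun z => kck_zk hZ h z)]
  have h1 : cs g '' cut p A D₁ = cut p A D₂ := cj_cut h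
  rw [← h1, Set.ncard_image_of_injective]
  exact fun P Q hPQ => by
    rw [← cs_inv_cs g P, hPQ, cs_inv_cs]

theorem sum_conj {M : Type} [AddCommMonoid M] {k : Type} [Field k] {b : MonoidAlgebra k G}
    (hb : ∀ a, b * a = a * b) {f : ∀ C : Set (Subgroup G), MonoidAlgebra k (KC C) → M}
    {g : G} {D₁ D₂ : Set (Subgroup G)} (h : Cj g D₁ D₂)
    (hf : ∀ w : MonoidAlgebra k (KC D₁), f D₂ (me k (kck h) w) = f D₁ w) :
    ∑ᶠ w : SB D₁ b, f D₁ w = ∑ᶠ w : SB D₂ b, f D₂ w := by
  refine finsum_eq_of_bijective (fun w : SB D₁ b => (⟨me k (kck h) w, SB_kck h hb w.2⟩ : SB D₂ b))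
    ⟨fun w w' hw => ?_, fun w => ?_⟩ fun w => (hf w).symm
  · exact Subtype.ext ((me k (kck h)).injective (congrArg Subtype.val hw))
  · refine ⟨⟨me k (kck h.inv) w, SB_kck h.inv hb w.2⟩, Subtype.ext ?_⟩
    exact kck_inv' h h.inv (w : MonoidAlgebra k (KC D₂))

end eq

end Pool.Agent.H373.PD
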