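import Pool.Agent.H373.PD.P2

/-!
# Dade's projective alternating sums: transfer
-/

set_option autoImplicit false
set_option linter.unusedSectionVars false
set_option linter.style.haveILetI false

open scoped BigOperators Classical

noncomputable section

namespace Pool.Agent.H373.PD

open Pool.Agent.H373.BU hiding Ind

open Pool.Agent.H373.MN

open MonoidAlgebra hiding coeff_sum

open IsLocalRing

section eq

variable {L : Type} [CommRing L] [IsDomain L] [IsDiscreteValuationRing L]
  [IsAdicComplete (maximalIdeal L) L] {Ω : Type} [Field Ω] {G : Type} [Group G] [Finite G]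

theorem gSum_eq (p : ℕ) (s : L →+* Ω) (d : ℕ) (A : Subgroup G) {Z : Subgroup G}
    (hZ : Z ≤ Subgroup.center G)
    (lam : Z →* Ω) {b : MonoidAlgebra L G} (hb : IsBlock b) :
    gSum p s d A Z lam b = chSum (pchB p A) (red (rs L) b) (fB p s d A hZ lam) := by
  unfold gSum chSum
  refine finsum_eq_of_bijective clE clE_bij fun c => ?_
  obtain ⟨g, hg⟩ : ∃ g, Cj g (insert ⊥ (c.out : Set (Subgroup G)))
      ((clE c).out : Set (Subgroup G)) := by
    have h1 : clE (p := p) (Z := A) c = Quotient.mk _ ⟨insert ⊥ (c.out : Set (Subgroup G)),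
        insert_mem c.out.2⟩ := by
      conv_lhs => rw [← Quotient.out_eq c]
      rfl
    have h2 : Quotient.mk (cjs (pchB p A)) ⟨insert ⊥ (c.out : Set (Subgroup G)),
        insert_mem c.out.2⟩ = Quotient.mk _ (clE c).out := by
      rw [Quotient.out_eq, h1]
    exact Quotient.exact h2
  rw [← sum_conj (red_isBlock hb).central hg
    (fun w => fB_kck p s d A hZ lam g _ _ hg w), card_IrZ s d hZ]
  haveI : Finite (SB (insert ⊥ (c.out : Set (Subgroup G))) (red (rs L) b)) :=
    finite_Ir fun ε h => h.1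
  haveI := Fintype.ofFinite (SB (insert ⊥ (c.out : Set (Subgroup G))) (red (rs L) b))
  rw [finsum_eq_sum_of_fintype, finsum_eq_sum_of_fintype, Nat.cast_sum, Finset.mul_sum]
  refine Finset.sum_congr rfl fun w _ => ?_
  unfold fB
  rw [cut_insert c.out.2]

end eq

section cen

variable {R X V G : Type} [CommRing R] [IsDomain R] [Group X] [Group V] [Group G] [Fintype X]
  [Fintype V] (I : Mon R X V G)

theorem single_cen {z : G} (hz : ∀ x, x * I.j z = I.j z * x) (u : R) (a : MonoidAlgebra R G) :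
    MonoidAlgebra.single (I.j z) (1 : R) * I.cen u a =
      I.cen u (MonoidAlgebra.single z (1 : R) * a) := by
  rw [I.cen_eq, I.cen_eq, Finset.mul_sum]
  refine Finset.sum_congr rfl fun q _ => ?_
  have h1 : el R (I.j z) * el R q.out = el R q.out * el R (I.j z) := by
    rw [el_mul, el_mul, hz]
  have h2 : I.io (MonoidAlgebra.single z (1 : R)) = el R (I.j z) := I.io_single z 1
  have h3 := I.ep_j u z
  rw [map_mul, h2]
  change el R (I.j z) * (el R q.out * I.ep u * I.io a * el R q.out⁻¹) = _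
  calc el R (I.j z) * (el R q.out * I.ep u * I.io a * el R q.out⁻¹)
      = (el R (I.j z) * el R q.out) * I.ep u * I.io a * el R q.out⁻¹ := by
        simp only [mul_assoc]
    _ = el R q.out * (el R (I.j z) * I.ep u) * I.io a * el R q.out⁻¹ := by
        rw [h1]
        simp only [mul_assoc]
    _ = _ := by
        rw [h3]
        simp only [mul_assoc]

end cen

section irk

variable {L : Type} [CommRing L] [IsLocalRing L] {Ω : Type} [Field Ω]

theorem IrK_comp {p : ℕ} {s : L →+* Ω} {d : ℕ} {K A B : Type} [Group K] [Group A] [Group B]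
    (ζ : A →* K) (lam : A →* Ω) (e : B ≃* A) (w : MonoidAlgebra (ResidueField L) K) :
    IrK p s d (ζ.comp e.toMonoidHom) (lam.comp e.toMonoidHom) w = IrK p s d ζ lam w := by
  ext ε
  refine and_congr_right fun _ => ⟨fun h a => ?_, fun h b => h (e b)⟩
  have := h (e.symm a)
  change MonoidAlgebra.single (ζ (e (e.symm a))) (1 : Ω) * ε = lam (e (e.symm a)) • ε at this
  rwa [MulEquiv.apply_symm_apply] at this

end irk

section one

variable {L : Type} [CommRing L] [IsDomain L] [IsLocalRing L] {p : ℕ} [hp : Fact p.Prime]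
  {Ω : Type} [Field Ω] {X V G : Type} [Group X] [Group V] [Group G]
  [Fintype X] [Fintype V] [Finite G] (I : Mon L X V G) {u : L}
  (hu : u * (Fintype.card V : L) = 1) (s : L →+* Ω) (hs : Function.Injective s)
  (hV : ¬ p ∣ Nat.card V) (hlam : ∀ v, rs L (I.lam v : L) = 1 → I.lam v = 1)

include hu hV hs in
theorem card_IrK_cen {d : ℕ} {A : Type} [Group A] {ζ : A →* G} {ζ' : A →* X}
    (hζ : ∀ a, I.j (ζ a) = ζ' a) (hz : ∀ a x, x * ζ' a = ζ' a * x) (lam : A →* Ω)
    {w : MonoidAlgebra (ResidueField L) G} (hw : IsBlock w) :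
    Nat.card (IrK p s d ζ' lam ((I.map (rs L) hlam).cen (rs L u) w)) =
      Nat.card (IrK p s d ζ lam w) := by
  have hu' := Mon.hu_om hu s
  have key : ∀ ε : MonoidAlgebra Ω G,
      (∀ a, MonoidAlgebra.single (ζ' a) (1 : Ω) * (I.om s hs).cen (s u) ε =
        lam a • (I.om s hs).cen (s u) ε) ↔
      ∀ a, MonoidAlgebra.single (ζ a) (1 : Ω) * ε = lam a • ε := by
    intro ε
    refine forall_congr' fun a => ?_
    have h1 : MonoidAlgebra.single (ζ' a) (1 : Ω) * (I.om s hs).cen (s u) ε =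
        (I.om s hs).cen (s u) (MonoidAlgebra.single (ζ a) (1 : Ω) * ε) := by
      rw [← hζ]
      refine single_cen (I.om s hs) (z := ζ a) (fun x => ?_) (s u) ε
      change x * I.j (ζ a) = I.j (ζ a) * x
      rw [hζ, hz]
    rw [h1, ← (I.om s hs).cen_smul]
    exact ⟨fun h => (I.om s hs).cen_inj hu' h, fun h => by rw [h]⟩
  symm
  refine Nat.card_congr (Equiv.ofBijective
    (fun ε => ⟨(I.om s hs).cen (s u) ε,
      I.mem_IrD_cen hu s hs hV hlam ε.2.1, (key _).mpr ε.2.2⟩) ⟨?_, ?_⟩)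
  · intro a b h
    exact Subtype.ext ((I.om s hs).cen_inj hu' (congrArg Subtype.val h))
  · rintro ⟨ε', h, h'⟩
    obtain ⟨ε, hε, h1⟩ := I.IrD_cen_surj hu s hs hV hlam hw h
    rw [← h1] at h'
    exact ⟨⟨ε, hε, (key _).mp h'⟩, Subtype.ext h1⟩

end one

section main

variable {L : Type} [CommRing L] [IsDomain L] [IsDiscreteValuationRing L]
  [IsAdicComplete (maximalIdeal L) L] {p : ℕ} [hp : Fact p.Prime] [CharP (ResidueField L) p]
  {Ω : Type} [Field Ω] {X V G : Type} [Group X] [Group V] [Group G]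
  [Fintype X] [Fintype V] [Finite G] (I : Mon L X V G) {u : L}
  (hu : u * (Fintype.card V : L) = 1) (s : L →+* Ω) (hs : Function.Injective s)
  (hV : ¬ p ∣ Nat.card V) {Z : Subgroup G} (hZ : Z ≤ Subgroup.center G) {Z' : Subgroup X}
  (hZ' : Z' ≤ Subgroup.center X) (e : Z ≃* Z') (he : ∀ z, ((e z : Z') : X) = I.j z)

include hs he in
theorem card_IrK_lev {d : ℕ} {C : Set (Subgroup G)} (hC : C.Nonempty)
    (hT : IsPGroup p (sSup C : Subgroup G)) (hlam : ∀ v, rs L (I.lam v : L) = 1 → I.lam v = 1)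
    (hu1 : rs L u * (Fintype.card V : ResidueField L) = 1) (lam : Z' →* Ω)
    {w : MonoidAlgebra (ResidueField L) (KC C)} (hw : IsBlock w) :
    Nat.card (IrK p s d (zk hZ' (I.jS C)) lam
      (((I.map (rs L) hlam).lev C hC hT hV).cen (rs L u) w)) =
      Nat.card (IrK p s d (zk hZ C) (lam.comp e.toMonoidHom) w) := by
  have hV0 : ¬ p ∣ Nat.card (I.V0 (sSup C)) :=
    fun h => hV (h.trans (Subgroup.card_subgroup_dvd_card _))
  have hVL : ∀ m : ℕ, ¬ p ∣ m → IsUnit ((m : ℕ) : L) := by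
    intro m hm
    rw [← IsLocalRing.notMem_maximalIdeal, ← IsLocalRing.residue_eq_zero_iff, map_natCast,
      CharP.cast_eq_zero_iff (ResidueField L) p]
    exact hm
  obtain ⟨u0, hu0⟩ := (isUnit_iff_exists_inv'.mp (hVL _ hV0))
  have hu0' : u0 * (Fintype.card (I.V0 (sSup C)) : L) = 1 := by
    rw [← Nat.card_eq_fintype_card, hu0]
  have hru : rs L u0 = rs L u := by
    have h1 : (Fintype.card V : ResidueField L) = (Nat.card (I.V0 (sSup C)) : ResidueField L) :=
      (I.map (rs L) hlam).card_V0 (sSup C) hT hV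
    have h2 : rs L u0 * (Nat.card (I.V0 (sSup C)) : ResidueField L) = 1 := by
      rw [← map_natCast (rs L), ← map_mul, hu0, map_one]
    have h3 : (Nat.card (I.V0 (sSup C)) : ResidueField L) ≠ 0 := by
      intro h
      rw [h, mul_zero] at h2
      exact zero_ne_one h2
    apply mul_right_cancel₀ h3
    rw [h2, ← h1, hu1]
  have hj : ∀ z : Z, (I.lev C hC hT hV).j (zk hZ C z) =
      (zk hZ' (I.jS C)).comp e.toMonoidHom z := by
    intro z
    change (I.lev C hC hT hV).j (pk C (zn hZ C z)) = pk (I.jS C) (zn hZ' (I.jS C) (e z))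
    have h1 : (I.lev C hC hT hV).j (pk C (zn hZ C z)) = pk (I.jS C)
        ((I.norC C hT hV).j (zn hZ C z)) := Mon.quo_j _ _ _ _ _ _ _ _ _
    rw [h1]
    congr 1
    exact Subtype.ext (he z).symm
  have hz : ∀ (z : Z) (x : KC (I.jS C)), x * (zk hZ' (I.jS C)).comp e.toMonoidHom z =
      (zk hZ' (I.jS C)).comp e.toMonoidHom z * x := by
    intro z x
    obtain ⟨n, rfl⟩ := pk_surj _ x
    change pk (I.jS C) n * pk (I.jS C) (zn hZ' (I.jS C) (e z)) =
      pk (I.jS C) (zn hZ' (I.jS C) (e z)) * pk (I.jS C) n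
    rw [← map_mul, ← map_mul]
    congr 1
    exact Subtype.ext (Subgroup.mem_center_iff.mp (hZ' (e z).2) (n : X))
  have h := card_IrK_cen (I.lev C hC hT hV) hu0' s hs hV0
    (fun v hv => hlam (v : V) hv) (d := d) hj hz (lam.comp e.toMonoidHom) hw
  rw [hru, IrK_comp] at h
  exact h

end main

section zp

variable {L X V G : Type} [CommRing L] [Group X] [Group V] [Group G] (I : Mon L X V G)

theorem zp_map {p : ℕ} {A : Subgroup G} {A' : Subgroup X} (hA : A.map I.j = A')
    (hA' : A' ≤ Subgroup.center X) : zp p A' = (zp p A).map I.j := by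
  subst hA
  ext x
  rw [Subgroup.mem_map]
  constructor
  · rintro ⟨⟨z, hz, rfl⟩, h2, k, hk⟩
    have h4 : (z : G) ∈ Subgroup.center G := by
      rw [Subgroup.mem_center_iff]
      intro g
      apply I.j_inj
      rw [map_mul, map_mul, Subgroup.mem_center_iff.mp h2]
    refine ⟨z, ⟨hz, h4, k, ?_⟩, rfl⟩
    apply I.j_inj
    rw [map_pow, hk, map_one]
  · rintro ⟨z, ⟨h1, h2, k, hk⟩, rfl⟩
    refine ⟨⟨z, h1, rfl⟩, hA' ⟨z, h1, rfl⟩, k, ?_⟩
    rw [← map_pow, hk, map_one]

theorem map_of_e {Z : Subgroup G} {Z' : Subgroup X} (e : Z ≃* Z')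
    (he : ∀ z, ((e z : Z') : X) = I.j z) : Z.map I.j = Z' := by
  ext x
  rw [Subgroup.mem_map]
  constructor
  · rintro ⟨z, hz, rfl⟩
    rw [← he ⟨z, hz⟩]
    exact (e ⟨z, hz⟩).2
  · intro hx
    obtain ⟨z, hz⟩ := e.surjective ⟨x, hx⟩
    exact ⟨z, z.2, by rw [← he, hz]⟩

end zp

end Pool.Agent.H373.PD
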