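import Pool.Agent.H373.PD.P3

/-!
# Dade's projective alternating sums: reproduction
-/

set_option autoImplicit false
set_option linter.unusedSectionVars false
set_option linter.style.haveILetI false

open scoped BigOperators Classical

noncomputable section

namespace Pool.Agent.H373.PD

open Pool.Agent.H373.BU hiding Ind

open Pool.Agent.H373.MN

open MonoidAlgebra hiding coeff_sum

open IsLocalRing

section defs

variable {L : Type} [CommRing L] [IsDomain L] [IsDiscreteValuationRing L]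
  {Ω : Type} [Field Ω]

theorem ReproP.dade {p : ℕ} {s : L →+* Ω} {G : Type} [Group G] {Z : Subgroup G} {Y : Type}
    [Group Y] {Z' : Subgroup Y} (h : ReproP p s G Z Y Z') (hY : ProjDade p s Y Z') :
    ProjDade p s G Z := by
  obtain ⟨e, h⟩ := h
  intro b hb hA d lam
  obtain ⟨b', hb', -, -, h1, h2⟩ := h b hb
  have h3 := hY b' hb' (h1.mpr hA) d (lam.comp e.symm.toMonoidHom)
  rw [h2] at h3
  have h4 : (lam.comp e.symm.toMonoidHom).comp e.toMonoidHom = lam := by
    ext z
    change lam (e.symm (e z)) = lam z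
    rw [MulEquiv.symm_apply_apply]
  rwa [h4] at h3

end defs

section fam

variable {p : ℕ} {L X V G : Type} [CommRing L] [Group X] [Group V] [Group G] (I : Mon L X V G)
  {A : Subgroup G} {A' : Subgroup X} (hA : A.map I.j = A') (hA' : A' ≤ Subgroup.center X)

include hA hA' in
theorem jS_pchB (C : Set (Subgroup G)) : I.jS C ∈ pchB p A' ↔ C ∈ pchB p A := by
  have hzp : zp p A' = (zp p A).map I.j := zp_map I hA hA'
  constructor
  · rintro ⟨⟨P, hP, hP'⟩, ⟨P2, hP2, hP2'⟩, h2, h3⟩
    refine ⟨?_, ?_, ?_, ?_⟩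
    · have h4 : P = ⊥ := by
        rw [← Subgroup.map_bot I.j] at hP'
        exact Subgroup.map_injective I.j_inj hP'
      rwa [← h4]
    · have h4 : P2 = zp p A := by
        rw [hzp] at hP2'
        exact Subgroup.map_injective I.j_inj hP2'
      rwa [← h4]
    · intro P hP Q hQ hne
      rcases h2.total ⟨P, hP, rfl⟩ ⟨Q, hQ, rfl⟩ with h4 | h4
      · exact Or.inl (I.map_le_iff.mp h4)
      · exact Or.inr (I.map_le_iff.mp h4)
    · intro P hP
      obtain ⟨h4, h5⟩ := h3 _ ⟨P, hP, rfl⟩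
      refine ⟨?_, ?_⟩
      · have h6 := h4.comap_of_injective I.j I.j_inj
        rwa [Subgroup.comap_map_eq_self_of_injective I.j_inj] at h6
      · rcases h5 with h5 | h5
        · left
          rw [← Subgroup.map_bot I.j] at h5
          exact Subgroup.map_injective I.j_inj h5
        · right
          rw [hzp] at h5
          exact I.map_le_iff.mp h5
  · rintro ⟨h0, h1, h2, h3⟩
    refine ⟨⟨⊥, h0, Subgroup.map_bot _⟩, ⟨_, h1, hzp.symm⟩, ?_, ?_⟩
    · rintro _ ⟨P, hP, rfl⟩ _ ⟨Q, hQ, rfl⟩ hne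
      rcases h2.total hP hQ with h4 | h4
      · exact Or.inl (I.map_le_iff.mpr h4)
      · exact Or.inr (I.map_le_iff.mpr h4)
    · rintro _ ⟨P, hP, rfl⟩
      refine ⟨(h3 P hP).1.map I.j, ?_⟩
      rcases (h3 P hP).2 with h4 | h4
      · left
        rw [h4]
        exact Subgroup.map_bot _
      · right
        rw [hzp]
        exact I.map_le_iff.mpr h4

include hA hA' in
theorem cut_jS (C : Set (Subgroup G)) : cut p A' (I.jS C) = I.jS (cut p A C) := by
  have hzp : zp p A' = (zp p A).map I.j := zp_map I hA hA'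
  ext P
  constructor
  · rintro ⟨⟨Q, hQ, rfl⟩, h⟩
    rw [hzp] at h
    exact ⟨Q, ⟨hQ, I.map_le_iff.mp h⟩, rfl⟩
  · rintro ⟨Q, ⟨hQ, h⟩, rfl⟩
    refine ⟨⟨Q, hQ, rfl⟩, ?_⟩
    rw [hzp]
    exact I.map_le_iff.mpr h

end fam

section field

variable {k : Type} [Field k] {p : ℕ} [hp : Fact p.Prime] {X V G : Type} [Group X] [Group V]
  [Group G] [Fintype X] [Fintype V] [Finite G] (I : Mon k X V G) {u : k}
  (hu : u * (Fintype.card V : k) = 1)
  {A : Subgroup G} {A' : Subgroup X} (hA : A.map I.j = A') (hA' : A' ≤ Subgroup.center X)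

include hu hA hA' in
/-- the condition for the defect groups -/
theorem above_field {b : MonoidAlgebra k G} (hb : IsBlock b) :
    (∀ D' : Subgroup X, IsPGroup p D' ∧ IsMinTr D' (I.cen u b) → zp p A' < D') ↔
      ∀ D : Subgroup G, IsPGroup p D ∧ IsMinTr D b → zp p A < D := by
  have hzp : zp p A' = (zp p A).map I.j := zp_map I hA hA'
  have hlt : ∀ D : Subgroup G, (zp p A).map I.j < D.map I.j ↔ zp p A < D := by
    intro D
    rw [lt_iff_le_not_ge, lt_iff_le_not_ge, I.map_le_iff, I.map_le_iff]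
  have hcard : ∀ P : Subgroup G, Nat.card (P.map I.j) = Nat.card P := fun P =>
    (Nat.card_congr (P.equivMapOfInjective I.j I.j_inj).toEquiv).symm
  constructor
  · intro h D hD
    have h2 := h _ ⟨hD.1.map I.j, I.cen_isMinTr hu hb hD.2⟩
    rw [hzp] at h2
    exact (hlt D).mp h2
  · intro h D' hD'
    obtain ⟨hp', hD2⟩ := hD'
    obtain ⟨P, x, hP, hP'⟩ := I.isTr_of_cen hu hb hD2.1
    have h1 : cs x⁻¹ (P.map I.j) ≤ D' := by
      intro y hy
      rw [mem_cs, inv_inv, Subgroup.mem_map] at hy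
      obtain ⟨g, hg, hgy⟩ := hy
      have h2 := hP g hg
      have h3 : x⁻¹ * I.j g * x = y := by
        rw [hgy]
        group
      rwa [h3] at h2
    have h2 : ∀ Q : Subgroup G, IsTr Q b → Nat.card D' ≤ Nat.card Q := by
      intro Q hQ
      have h3 := hD2.2 _ (I.cen_isTr hu hQ)
      rwa [hcard] at h3
    have h3 : cs x⁻¹ (P.map I.j) = D' := by
      apply Subgroup.eq_of_le_of_card_ge h1
      rw [card_cs, hcard]
      exact h2 P hP'
    have h4 : Nat.card P = Nat.card D' := by
      rw [← h3, card_cs, hcard]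
    have h5 : IsPGroup p P ∧ IsMinTr P b := by
      refine ⟨?_, hP', fun Q hQ => ?_⟩
      · have h6 : P.map I.j = cs x D' := by
          rw [← h3, cs_cs_inv]
        have h7 : IsPGroup p (P.map I.j) := by
          rw [h6]
          exact hp'.map _
        have h8 := h7.comap_of_injective I.j I.j_inj
        rwa [Subgroup.comap_map_eq_self_of_injective I.j_inj] at h8
      · rw [h4]
        exact h2 Q hQ
    have h6 := (hlt P).mpr (h P h5)
    rw [← h3, ← cs_zp x⁻¹, hzp, lt_iff_le_not_ge, cs_le, cs_le, ← lt_iff_le_not_ge]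
    exact h6

end field

section main

variable {L : Type} [CommRing L] [IsDomain L] [IsDiscreteValuationRing L]
  [IsAdicComplete (maximalIdeal L) L] {p : ℕ} [hp : Fact p.Prime] [CharP (ResidueField L) p]
  {Ω : Type} [Field Ω] {X V G : Type} [Group X] [Group V] [Group G]
  [Fintype X] [Fintype V] [Finite G] (I : Mon L X V G) {u : L}
  (hu : u * (Fintype.card V : L) = 1) (s : L →+* Ω) (hs : Function.Injective s)
  (hV : ¬ p ∣ Nat.card V) {Z : Subgroup G} (hZ : Z ≤ Subgroup.center G) {Z' : Subgroup X}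
  (hZ' : Z' ≤ Subgroup.center X) (e : Z ≃* Z') (he : ∀ z, ((e z : Z') : X) = I.j z)
  {A : Subgroup G} {A' : Subgroup X} (hA : A.map I.j = A') (hA' : A' ≤ Subgroup.center X)

include hu hs hV hZ hZ' he hA hA' in
/-- the alternating sums agree -/
theorem gSum_cen {d : ℕ} (lam : Z' →* Ω) {b : MonoidAlgebra L G} (hb : IsBlock b) :
    gSum p s d A' Z' lam (I.cen u b) = gSum p s d A Z (lam.comp e.toMonoidHom) b := by
  have hlam : ∀ v, rs L (I.lam v : L) = 1 → I.lam v = 1 := I.lam_red hV
  have hu1 : rs L u * (Fintype.card V : ResidueField L) = 1 := by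
    rw [← map_natCast (rs L), ← map_mul, hu, map_one]
  have hbr := red_isBlock hb
  rw [gSum_eq p s d A' hZ' lam (I.cen_isBlock hu hb), gSum_eq p s d A hZ _ hb,
    I.red_cen (rs L) hlam]
  refine (I.map (rs L) hlam).chSum_transfer hV hu1 (fun C hC => pch_prop (pchB_pch hC))
    (fun C hC => pch_prop (pchB_pch hC)) (fun C => jS_pchB I hA hA' C)
    (fun x C C' h hC => pchB_conj h hC) hbr.central hbr.idem
    (fun C hC g h => pch_NC (pchB_pch hC) h)
    (fun C hC g h => pch_NC (pchB_pch hC) h) _ _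
    (fun g C₁ C₂ h w _ => fB_kck p s d A hZ _ g C₁ C₂ h w)
    (fun g C₁ C₂ h w _ => fB_kck p s d A' hZ' _ g C₁ C₂ h w) ?_
  intro C hC w hw
  unfold fB
  have hC' := pch_prop (pchB_pch hC)
  have h1 := card_IrK_lev I s hs hV hZ hZ' e he (d := d) hC'.1 hC'.2 hlam hu1 lam hw
  have h2 : cut p A' ((I.map (rs L) hlam).jS C) = I.jS (cut p A C) := cut_jS I hA hA' C
  have h3 : Nat.card (IrK p s d (zk hZ' ((I.map (rs L) hlam).jS C)) lam
      (((I.map (rs L) hlam).lev C hC'.1 hC'.2 hV).cen (rs L u) w)) =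
      Nat.card (IrK p s d (zk hZ C) (lam.comp e.toMonoidHom) w) := h1
  rw [h2, I.ncard_jS, ← h3]

include hu hA hA' in
/-- the condition for the defect groups -/
theorem above_cen {b : MonoidAlgebra L G} (hb : IsBlock b) (hV : ¬ p ∣ Nat.card V) :
    Above p A' (I.cen u b) ↔ Above p A b := by
  have hlam : ∀ v, rs L (I.lam v : L) = 1 → I.lam v = 1 := I.lam_red hV
  have hu1 : rs L u * (Fintype.card V : ResidueField L) = 1 := by
    rw [← map_natCast (rs L), ← map_mul, hu, map_one]
  unfold Above IsDefect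
  rw [I.red_cen (rs L) hlam]
  exact above_field (I.map (rs L) hlam) hu1 hA hA' (red_isBlock hb)

include hZ hZ' he in
theorem reproP_of_mon (hV : ¬ p ∣ Nat.card V) {u : L} (hu : u * (Fintype.card V : L) = 1)
    (s : L →+* Ω) (hs : Function.Injective s) : ReproP p s G Z X Z' := by
  refine ⟨e, fun b hb => ?_⟩
  have hlam : ∀ v, rs L (I.lam v : L) = 1 → I.lam v = 1 := I.lam_red hV
  have hu1 : rs L u * (Fintype.card V : ResidueField L) = 1 := by
    rw [← map_natCast (rs L), ← map_mul, hu, map_one]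
  have hred := red_isBlock hb
  haveI : Nonempty I.Q := ⟨QuotientGroup.mk 1⟩
  refine ⟨I.cen u b, I.cen_isBlock hu hb, ⟨Fintype.card I.Q, Fintype.card_pos, ⟨?_⟩⟩, ?_,
    above_cen I hu (map_of_e I e he) hZ' hb hV,
    fun d lam => gSum_cen I hu s hs hV hZ hZ' e he (map_of_e I e he) hZ' lam hb⟩
  · exact ((Matrix.reindexAlgEquiv ℤ (BlockAlg hb) (Fintype.equivFin I.Q).symm).toRingEquiv).trans
      (I.blockEquiv hu hb)
  · intro D hD
    refine ⟨D.map I.j, ⟨hD.1.map I.j, ?_⟩, ⟨(D.equivMapOfInjective I.j I.j_inj).symm⟩⟩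
    rw [I.red_cen (rs L) hlam]
    exact (I.map (rs L) hlam).cen_isMinTr hu1 hred hD.2

end main

end Pool.Agent.H373.PD
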