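import Pool.Agent.H373.PD.P4
import Pool.Agent.H373.PD.P5

/-!
# The data for the wreath product with a central extension
-/

set_option autoImplicit false
set_option linter.unusedSectionVars false
set_option linter.style.haveILetI false

open scoped BigOperators Classical MatrixGroups

noncomputable section

namespace Pool.Agent.H373.PD

open Pool.Agent.H373.BU hiding Ind

open Pool.Agent.H373.MN

open MonoidAlgebra hiding coeff_sum

open IsLocalRing

section data

variable {R : Type} [CommRing R] [IsDomain R] {q : ℕ} (K : Col R PSL(2, ZMod q))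
  {G : Type} [Group G] {H : Type} [Group H] [Finite H] {Z : Subgroup G} (ι : G →* H)
  (hι : Function.Injective ι)

/-- the colouring -/
def kap (C : Subgroup H) (ω : H ⧸ C) : Bool := decide (∃ g : G, (QuotientGroup.mk (ι g) : H ⧸ C) = ω)

theorem kap_iff {C : Subgroup H} (hC : Z.map ι = C) (h : H) :
    (∀ ω, kap ι C (h • ω) = kap ι C ω) ↔ ∃ g, ι g = h := by
  constructor
  · intro h1
    have h2 := h1 (QuotientGroup.mk 1)
    have h3 : kap ι C (QuotientGroup.mk 1) = true := decide_eq_true ⟨1, by rw [map_one]⟩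
    rw [h3] at h2
    obtain ⟨g, hg⟩ := of_decide_eq_true h2
    have h4 : (QuotientGroup.mk (ι g) : H ⧸ C) = QuotientGroup.mk (h * 1) := hg
    rw [mul_one, QuotientGroup.eq, ← hC, Subgroup.mem_map] at h4
    obtain ⟨z, -, hz⟩ := h4
    exact ⟨g * z, by rw [map_mul, hz, mul_inv_cancel_left]⟩
  · rintro ⟨g₀, rfl⟩ ω
    refine decide_eq_decide.mpr ⟨?_, ?_⟩
    · rintro ⟨g, hg⟩
      refine ⟨g₀⁻¹ * g, ?_⟩
      have h1 : ι g₀ • (QuotientGroup.mk (ι (g₀⁻¹ * g)) : H ⧸ C) = ι g₀ • ω := by
        rw [← hg]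
        change (QuotientGroup.mk (ι g₀ * ι (g₀⁻¹ * g)) : H ⧸ C) = _
        rw [map_mul, map_inv, mul_inv_cancel_left]
      exact smul_left_cancel _ h1
    · rintro ⟨g, rfl⟩
      refine ⟨g₀ * g, ?_⟩
      rw [map_mul]
      rfl

/-- the data for the group `WX q H C` -/
def wMon {C : Subgroup H} [Fintype (H ⧸ C)] (hι : Function.Injective ι) (hC : Z.map ι = C) :
    Mon R (WX q H C) (K.W (kap ι C)) G :=
  K.mon (H := H) (kap ι C) ι hι (kap_iff ι hC)

end data

section main

variable {L : Type} [CommRing L] [IsDomain L] [IsDiscreteValuationRing L]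
  [IsAdicComplete (maximalIdeal L) L] {p : ℕ} [hp : Fact p.Prime] [CharP (ResidueField L) p]
  {Ω : Type} [Field Ω]

theorem reproP_WX {q : ℕ} (h : Good p q)
    (hζ : ∃ ζ : L, IsPrimitiveRoot ζ ((q - 1) / 2)) (s : L →+* Ω) (hs : Function.Injective s)
    {G : Type} [Group G] [Finite G] {Z : Subgroup G} (hZ : Z ≤ Subgroup.center G)
    {H : Type} [Group H] [Finite H] (ι : G →* H) (hι : Function.Injective ι)
    {C : Subgroup H} (hC : Z.map ι = C) (hC' : C ≤ Subgroup.center H) :
    ReproP p s G Z (WX q H C) (Subgroup.center (WX q H C)) := by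
  haveI : Fact q.Prime := ⟨h.prime⟩
  haveI : NeZero q := ⟨h.prime.ne_zero⟩
  haveI : Fintype (H ⧸ C) := Fintype.ofFinite _
  haveI := Fintype.ofFinite (WX q H C)
  obtain ⟨ζ, hζ⟩ := hζ
  have h5 := h.ndvd.2.1
  have hζ' : IsPrimitiveRoot (hζ.isUnit (by omega)).unit ((q - 1) / 2) :=
    IsPrimitiveRoot.coe_units_iff.mp (by rwa [IsUnit.unit_spec])
  obtain ⟨K, hK⟩ := exists_col h hζ'
  let I : Mon L (WX q H C) (K.W (kap ι C)) G := wMon K ι hι hC
  haveI := Fintype.ofFinite (K.W (kap ι C))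
  have hV : ¬ p ∣ Nat.card (K.W (kap ι C)) := K.card_W _ hK
  have hVu : IsUnit ((Nat.card (K.W (kap ι C)) : ℕ) : L) := by
    rw [← IsLocalRing.notMem_maximalIdeal, ← IsLocalRing.residue_eq_zero_iff, map_natCast,
      CharP.cast_eq_zero_iff (ResidueField L) p]
    exact hV
  obtain ⟨u, hu⟩ := (isUnit_iff_exists_inv'.mp hVu)
  rw [Nat.card_eq_fintype_card] at hu
  have hcen := (centralizer_bas (q := q) h.lt hC').2
  have hmap : Z.map I.j = Subgroup.center (WX q H C) := by
    have h1 : Z.map I.j = (Z.map ι).map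
        (SemidirectProduct.inr : H →* Wr PSL(2, ZMod q) (H ⧸ C) H) :=
      (Subgroup.map_map Z _ ι).symm
    have h2 := congrArg (Subgroup.map
      (SemidirectProduct.inr : H →* Wr PSL(2, ZMod q) (H ⧸ C) H)) hC
    exact h1.trans (h2.trans hcen.symm)
  let e : Z ≃* Subgroup.center (WX q H C) :=
    (Z.equivMapOfInjective I.j I.j_inj).trans (MulEquiv.subgroupCongr hmap)
  exact reproP_of_mon I hZ (le_refl _) e (fun z => rfl) hV hu s hs

end main

end Pool.Agent.H373.PD
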