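import Mathlib

/-!
# Quotients of special linear groups by central subgroups
-/

set_option autoImplicit false

open scoped Classical

namespace Pool.Agent.H373.PD

/-- The elements of the centre of `S` whose order divides `δ`. -/
def tor (S : Type) [Group S] (δ : ℕ) : Subgroup S where
  carrier := {a | a ∈ Subgroup.center S ∧ a ^ δ = 1}
  one_mem' := ⟨Subgroup.one_mem _, one_pow _⟩
  mul_mem' {a b} ha hb := ⟨Subgroup.mul_mem _ ha.1 hb.1, by
    have h : Commute a b := (Subgroup.mem_center_iff.mp ha.1 b).symm
    rw [h.mul_pow, ha.2, hb.2, one_mul]⟩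
  inv_mem' {a} ha := ⟨Subgroup.inv_mem _ ha.1, by rw [inv_pow, ha.2, inv_one]⟩

instance tor_normal (S : Type) [Group S] (δ : ℕ) : (tor S δ).Normal where
  conj_mem a ha g := by
    have h : g * a * g⁻¹ = a := by
      rw [Subgroup.mem_center_iff.mp ha.1 g, mul_inv_cancel_right]
    rw [h]
    exact ha

/-- The quotient of `SL(N, r)` by the group of the scalar matrices whose order divides `δ`. -/
abbrev HS (N r δ : ℕ) : Type :=
  Matrix.SpecialLinearGroup (Fin N) (ZMod r) ⧸ tor (Matrix.SpecialLinearGroup (Fin N) (ZMod r)) δ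

/-- The direct product of `k` groups `SL(N_i, r_i) / K_i`, where `K_i` is the group of the scalar
matrices whose order divides `δ_i`. -/
abbrev HP (k : ℕ) (N r δ : Fin k → ℕ) : Type := ∀ i, HS (N i) (r i) (δ i)

end Pool.Agent.H373.PD
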