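import Pool.Agent.H373.MN.W4
import Pool.Agent.H373.PD.Q2
import Pool.Agent.H373.PD.Q3

/-!
# Classes of groups
-/

set_option autoImplicit false
set_option linter.unusedSectionVars false

open scoped Classical MatrixGroups

noncomputable section

namespace Pool.Agent.H373.PD

open Pool.Agent.H373.MN

/-- The finite group `X` is perfect, `X / Z(X)` is (isomorphic to) a primitive permutation group, and
there is a normal subgroup `M` of `X` with `C_X(M) = Z(X)`, isomorphic to a direct power of a nonabelian
simple group, such that all normal subgroups of `X` are contained in `Z(X)` or contain `M`. -/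
def Mod1 (X : Type) [Group X] : Prop :=
  commutator X = ⊤ ∧ IsPrimitiveGroup (X ⧸ Subgroup.center X) ∧
    ∃ M : Subgroup X, M.Normal ∧ Subgroup.centralizer (M : Set X) = Subgroup.center X ∧
      (∃ (T : Type) (_ : Group T) (m : ℕ), IsSimpleGroup T ∧ ¬ Group.IsSolvable T ∧
        Nonempty (M ≃* (Fin m → T))) ∧
      ∀ N : Subgroup X, N.Normal → N ≤ Subgroup.center X ∨ M ≤ N

/-- The finite group `X` is perfect with cyclic centre, and `X / Z(X)` is (isomorphic to) a primitive
permutation group with exactly three normal subgroups. -/
def Mod3 (X : Type) [Group X] : Prop :=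
  commutator X = ⊤ ∧ IsCyclic (Subgroup.center X) ∧
    IsPrimitiveGroup (X ⧸ Subgroup.center X) ∧
    Nat.card {N : Subgroup (X ⧸ Subgroup.center X) // N.Normal} = 3

/-- `X_H = PSL(2, q) ^ (H / Z(H)) ⋊ H`, where `H` permutes the factors by left multiplication. -/
abbrev XW (q : ℕ) (H : Type) [Group H] : Type := WX q H (Subgroup.center H)

end Pool.Agent.H373.PD
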