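import Mathlib

/-!
# `PSL(n, F)` is simple and `SL(n, F)` is perfect for `n ≥ 3`
-/

set_option autoImplicit false

open Matrix Matrix.SpecialLinearGroup MulAction

open scoped commutatorElement LinearAlgebra.Projectivization

namespace Pool.Agent.H373.PD

section gen

variable {ι F : Type} [Field F] [DecidableEq ι] [Fintype ι]

theorem tsmul {i j : ι} (hij : i ≠ j) (b : F) (w : ι → F) (k : ι) :
    (transvection hij b • w) k = w k + if k = i then b * w j else 0 := by
  rw [Matrix.SpecialLinearGroup.smul_def, transvection_coe]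
  show (((1 : Matrix ι ι F) + single i j b) *ᵥ w) k = _
  rw [Matrix.add_mulVec, Matrix.one_mulVec, Matrix.single_mulVec_eq, Pi.add_apply]
  congr 1
  by_cases h : k = i
  · subst h
    simp
  · simp [h]

theorem dsmul {i j : ι} (hij : i ≠ j) (a : F) (ha : a ≠ 0) (w : ι → F) (k : ι) :
    (diag2n hij a ha • w) k = (if k = i then a else if k = j then a⁻¹ else 1) * w k := by
  rw [Matrix.SpecialLinearGroup.smul_def, diag2n_coe]
  show (diagonal _ *ᵥ w) k = _
  rw [Matrix.mulVec_diagonal]

theorem ext_smul {A B : SpecialLinearGroup ι F} (h : ∀ (w : ι → F) (k : ι), (A • w) k = (B • w) k) :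
    A = B :=
  Subtype.ext (Matrix.ext_iff_smul.2 fun w => funext fun k => h w k)

theorem diag_dec {i j : ι} (hij : i ≠ j) (a : F) (ha : a ≠ 0) :
    diag2n hij a ha = transvection hij a * transvection hij.symm (-a⁻¹) *
      transvection hij a * transvection hij (-1) * transvection hij.symm 1 *
      transvection hij (-1) := by
  apply ext_smul
  intro w k
  simp only [mul_smul, tsmul, dsmul, if_neg hij, if_neg hij.symm, if_true]
  by_cases h : k = i
  · subst h
    simp only [if_true, if_neg hij]
    field_simp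
    ring
  · by_cases h' : k = j
    · subst h'
      simp only [if_true, if_neg h]
      field_simp
      ring
    · simp only [if_neg h, if_neg h']
      ring

theorem tr_ind [Nontrivial ι] (P : SpecialLinearGroup ι F → Prop)
    (ht : ∀ (i j : ι) (h : i ≠ j) (c : F), P (transvection h c))
    (hmul : ∀ A B, P A → P B → P (A * B)) (A : SpecialLinearGroup ι F) : P A := by
  refine diagonal_transvection_induction' P _ (fun i j hij c hc => ?_) ht hmul
  rw [diag_dec hij c hc]
  refine hmul _ _ (hmul _ _ (hmul _ _ (hmul _ _ (hmul _ _ ?_ ?_) ?_) ?_) ?_) ?_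
  all_goals exact ht _ _ _ _

theorem comm_tr {i j k : ι} (hij : i ≠ j) (hik : i ≠ k) (hkj : k ≠ j) (b : F) :
    ⁅transvection hik b, transvection hkj (1 : F)⁆ = transvection hij b := by
  rw [commutatorElement_def, transvection_inv, transvection_inv]
  apply ext_smul
  intro w l
  simp only [mul_smul, tsmul, if_neg hik, if_neg hik.symm, if_neg hkj, if_neg hkj.symm,
    if_neg hij, if_neg hij.symm, if_true]
  by_cases h : l = i
  · subst h
    simp only [if_true, if_neg hik]
    ring
  · by_cases h' : l = k
    · subst h'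
      simp only [if_true, if_neg h]
      ring
    · simp only [if_neg h, if_neg h']
      ring

theorem perfect [Nontrivial ι] (h3 : ∀ i j : ι, ∃ k, k ≠ i ∧ k ≠ j) :
    commutator (SpecialLinearGroup ι F) = ⊤ := by
  refine le_antisymm le_top fun A _ => ?_
  refine tr_ind (fun A => A ∈ commutator (SpecialLinearGroup ι F)) (fun i j hij c => ?_)
    (fun A B hA hB => mul_mem hA hB) A
  obtain ⟨k, hki, hkj⟩ := h3 i j
  rw [← comm_tr hij hki.symm hkj c]
  exact Subgroup.commutator_mem_commutator (Subgroup.mem_top _) (Subgroup.mem_top _)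

theorem lineStab_top [Nontrivial ι] :
    (⨆ p : ℙ F (ι → F), lineStab p.submodule) = (⊤ : Subgroup (SpecialLinearGroup ι F)) := by
  refine le_antisymm le_top fun A _ => ?_
  refine tr_ind (fun A => A ∈ ⨆ p : ℙ F (ι → F), lineStab p.submodule) (fun i j hij c => ?_)
    (fun A B hA hB => mul_mem hA hB) A
  have h0 : (Pi.single i (1 : F) : ι → F) ≠ 0 := Pi.single_ne_zero_iff.2 one_ne_zero
  have h1 := SL2Gen.transvection_mem_lineStab hij c
  rw [← Projectivization.submodule_mk (K := F) _ h0] at h1
  exact Subgroup.mem_iSup_of_mem _ h1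

theorem iwasawaT_top [Nontrivial ι] : iSup (PSL.iwasawaT (F := F) (ι := ι)) = ⊤ := by
  have step1 : iSup (PSL.iwasawaT (F := F) (ι := ι)) =
      Subgroup.map (QuotientGroup.mk' (Subgroup.center (Matrix.SpecialLinearGroup ι F)))
        (⨆ p : ℙ F (ι → F), lineStab (F := F) (ι := ι) p.submodule) := by
    rw [Subgroup.map_iSup]
  rw [step1, lineStab_top]
  exact Subgroup.map_top_of_surjective _ (QuotientGroup.mk'_surjective _)

/-- The Iwasawa structure. -/
noncomputable def iwa [Nontrivial ι] :
    IwasawaStructure (Matrix.ProjectiveSpecialLinearGroup ι F) (ℙ F (ι → F)) where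
  T := PSL.iwasawaT
  is_comm p := by
    have hSL : IsMulCommutative (lineStab (F := F) (ι := ι) p.submodule) := by
      rw [← Projectivization.mk_rep p, Projectivization.submodule_mk]
      exact lineStab_isMulCommutative_of_span p.rep p.rep_nonzero
    exact Subgroup.map_isMulCommutative _ _
  is_conj g p := by
    obtain ⟨g_SL, rfl⟩ := QuotientGroup.mk_surjective g
    rw [Matrix.ProjectiveSpecialLinearGroup.smul_proj_mk]
    change Subgroup.map _ _ = _
    rw [PSL.smul_submodule, Matrix.SpecialLinearGroup.lineStab_smul,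
      PSL.iwasawaT_map_conj]
  is_generator := iwasawaT_top

theorem simple [Nontrivial ι] (h3 : ∀ i j : ι, ∃ k, k ≠ i ∧ k ≠ j) :
    IsSimpleGroup (Matrix.ProjectiveSpecialLinearGroup ι F) := by
  have h1 : Group.IsPerfect (SpecialLinearGroup ι F) := ⟨perfect h3⟩
  have h2 : Group.IsPerfect (Matrix.ProjectiveSpecialLinearGroup ι F) := inferInstance
  exact MulAction.IwasawaStructure.isSimpleGroup h2.commutator_eq_top iwa inferInstance

end gen

theorem third {n : ℕ} (hn : 3 ≤ n) (i j : Fin n) : ∃ k : Fin n, k ≠ i ∧ k ≠ j := by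
  have h : ({i, j} : Finset (Fin n)).card < (Finset.univ : Finset (Fin n)).card := by
    refine lt_of_le_of_lt Finset.card_le_two ?_
    rw [Finset.card_univ, Fintype.card_fin]
    omega
  obtain ⟨k, -, hk⟩ := Finset.exists_mem_notMem_of_card_lt_card h
  simp only [Finset.mem_insert, Finset.mem_singleton, not_or] at hk
  exact ⟨k, hk.1, hk.2⟩

/-- `SL(n, F)` is perfect for `n ≥ 3`. -/
theorem sl_perfect {n : ℕ} (hn : 3 ≤ n) (F : Type) [Field F] :
    commutator (Matrix.SpecialLinearGroup (Fin n) F) = ⊤ := by
  have : Nontrivial (Fin n) := Fin.nontrivial_iff_two_le.2 (by omega)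
  exact perfect (third hn)

/-- `PSL(n, F)` is simple for `n ≥ 3`. -/
theorem psl_simple {n : ℕ} (hn : 3 ≤ n) (F : Type) [Field F] :
    IsSimpleGroup (Matrix.ProjectiveSpecialLinearGroup (Fin n) F) := by
  have : Nontrivial (Fin n) := Fin.nontrivial_iff_two_le.2 (by omega)
  exact simple (third hn)

end Pool.Agent.H373.PD
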