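import Mathlib

/-!
# Monomial representations induced from central subgroups
-/

set_option autoImplicit false

open scoped Classical

namespace Pool.Agent.H373.PD

section aux

variable {G : Type} [Group G] (Z : Subgroup G) {F : Type} [Field F] (lam : Z →* Fˣ)

/-- extension by zero of the character -/
noncomputable def ext0 (g : G) : F := if h : g ∈ Z then ((lam ⟨g, h⟩ : Fˣ) : F) else 0

lemma ext0_mul (a : G) (ha : a ∈ Z) (g : G) :
    ext0 Z lam (a * g) = ((lam ⟨a, ha⟩ : Fˣ) : F) * ext0 Z lam g := by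
  unfold ext0
  by_cases h : g ∈ Z
  · rw [dif_pos h, dif_pos (Z.mul_mem ha h), ← Units.val_mul, ← map_mul]
    rfl
  · rw [dif_neg h, dif_neg (fun h' => h ((Z.mul_mem_cancel_left ha).mp h')), mul_zero]

lemma ext0_mem (a : G) (ha : a ∈ Z) : ext0 Z lam a = ((lam ⟨a, ha⟩ : Fˣ) : F) := by
  unfold ext0
  rw [dif_pos ha]

lemma ext0_notMem (a : G) (ha : a ∉ Z) : ext0 Z lam a = 0 := by
  unfold ext0
  rw [dif_neg ha]

/-- the matrix of `g` -/
noncomputable def MM (g : G) : Matrix (G ⧸ Z) (G ⧸ Z) F :=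
  fun x y => ext0 Z lam (x.out⁻¹ * g * y.out)

lemma mem_iff (x y : G ⧸ Z) (g : G) :
    x.out⁻¹ * g * y.out ∈ Z ↔ y = ((g⁻¹ * x.out : G) : G ⧸ Z) := by
  have h : y = ((g⁻¹ * x.out : G) : G ⧸ Z) ↔
      ((y.out : G) : G ⧸ Z) = ((g⁻¹ * x.out : G) : G ⧸ Z) := by
    rw [QuotientGroup.out_eq']
  rw [h, eq_comm, QuotientGroup.eq]
  have : (g⁻¹ * x.out)⁻¹ * y.out = x.out⁻¹ * g * y.out := by group
  rw [this]

lemma MM_mul [Fintype (G ⧸ Z)] (g h : G) : MM Z lam (g * h) = MM Z lam g * MM Z lam h := by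
  ext x z
  rw [Matrix.mul_apply]
  have hy : x.out⁻¹ * g * (((g⁻¹ * x.out : G) : G ⧸ Z)).out ∈ Z := (mem_iff Z x _ g).mpr rfl
  rw [Finset.sum_eq_single (((g⁻¹ * x.out : G) : G ⧸ Z))]
  · show ext0 Z lam (x.out⁻¹ * (g * h) * z.out) = ext0 Z lam _ * ext0 Z lam _
    rw [ext0_mem Z lam _ hy, ← ext0_mul Z lam _ hy]
    congr 1
    group
  · intro y _ hne
    have : ext0 Z lam (x.out⁻¹ * g * y.out) = 0 :=
      ext0_notMem Z lam _ (fun h' => hne ((mem_iff Z x y g).mp h'))
    show ext0 Z lam (x.out⁻¹ * g * y.out) * _ = 0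
    rw [this, zero_mul]
  · intro h'
    exact absurd (Finset.mem_univ _) h'

lemma MM_central (hZ : Z ≤ Subgroup.center G) [Fintype (G ⧸ Z)] (z : Z) :
    MM Z lam (z : G) = Matrix.scalar (G ⧸ Z) ((lam z : Fˣ) : F) := by
  ext x y
  have hc : x.out⁻¹ * (z : G) * y.out = (z : G) * (x.out⁻¹ * y.out) := by
    have h1 := Subgroup.mem_center_iff.mp (hZ z.2) x.out⁻¹
    rw [h1, mul_assoc]
  show ext0 Z lam (x.out⁻¹ * (z : G) * y.out) = _
  rw [hc, ext0_mul Z lam _ z.2, Matrix.scalar_apply, Matrix.diagonal_apply]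
  by_cases h : x = y
  · subst h
    rw [if_pos rfl, inv_mul_cancel, ext0_mem Z lam 1 Z.one_mem]
    have : (⟨1, Z.one_mem⟩ : Z) = 1 := rfl
    rw [this, map_one, Units.val_one, mul_one]
  · rw [if_neg h, ext0_notMem, mul_zero]
    intro h'
    apply h
    rw [← QuotientGroup.eq, QuotientGroup.out_eq', QuotientGroup.out_eq'] at h'
    exact h'

lemma MM_scalar (hZ : Z ≤ Subgroup.center G) [Fintype (G ⧸ Z)] (g : G) (c : F)
    (h : MM Z lam g = Matrix.scalar (G ⧸ Z) c) : g ∈ Z := by
  let x : G ⧸ Z := ((1 : G) : G ⧸ Z)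
  have h1 : MM Z lam g * MM Z lam g⁻¹ = 1 := by
    rw [← MM_mul, mul_inv_cancel]
    have := MM_central Z lam hZ 1
    rw [map_one, Units.val_one] at this
    rw [show ((1 : Z) : G) = 1 from rfl] at this
    rw [this, map_one]
  have hc : c ≠ 0 := by
    intro h0
    rw [h, h0, map_zero, zero_mul] at h1
    have h2 := congrFun (congrFun h1 x) x
    rw [Matrix.one_apply_eq] at h2
    exact zero_ne_one h2
  have h3 : MM Z lam g x x = c := by
    rw [h, Matrix.scalar_apply, Matrix.diagonal_apply_eq]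
  have h4 : x.out⁻¹ * g * x.out ∈ Z := by
    by_contra h5
    exact hc (h3.symm.trans (ext0_notMem Z lam _ h5))
  have h6 := Subgroup.mem_center_iff.mp (hZ h4) x.out
  have h7 : g = x.out⁻¹ * g * x.out := by
    have : x.out * (x.out⁻¹ * g * x.out) = g * x.out := by group
    rw [this] at h6
    exact mul_right_cancel h6
  rw [h7]
  exact h4

end aux

/-- The direct sum of `k` copies of the representation of `G` over `F` induced from the linear
character `lam` of the central subgroup `Z`; the determinants are `1` since `a ^ k = 1` for all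
nonzero `a`. -/
theorem exists_rep (G : Type) [Group G] [Finite G] (Z : Subgroup G)
    (hZ : Z ≤ Subgroup.center G) (F : Type) [Field F] (lam : Z →* Fˣ) (k : ℕ) (hk : 0 < k)
    (hF : ∀ a : Fˣ, a ^ k = 1) :
    ∃ ρ : G →* Matrix.SpecialLinearGroup (Fin (Z.index * k)) F,
      (∀ z : Z, ((ρ (z : G) : Matrix.SpecialLinearGroup (Fin (Z.index * k)) F) :
        Matrix (Fin (Z.index * k)) (Fin (Z.index * k)) F) =
          Matrix.scalar (Fin (Z.index * k)) ((lam z : Fˣ) : F)) ∧
      ∀ g : G, (∃ c : F, ((ρ g : Matrix.SpecialLinearGroup (Fin (Z.index * k)) F) :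
        Matrix (Fin (Z.index * k)) (Fin (Z.index * k)) F) =
          Matrix.scalar (Fin (Z.index * k)) c) → g ∈ Z := by
  have : Fintype (G ⧸ Z) := Fintype.ofFinite _
  have hcard : Fintype.card ((G ⧸ Z) × Fin k) = Z.index * k := by
    rw [Fintype.card_prod, Fintype.card_fin, Subgroup.index, Nat.card_eq_fintype_card]
  let e : (G ⧸ Z) × Fin k ≃ Fin (Z.index * k) := Fintype.equivFinOfCardEq hcard
  let N : G → Matrix (Fin (Z.index * k)) (Fin (Z.index * k)) F := fun g =>
    Matrix.reindexAlgEquiv F F e (Matrix.blockDiagonalRingHom (G ⧸ Z) (Fin k) F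
      (fun _ => MM Z lam g))
  have hNmul : ∀ g h, N (g * h) = N g * N h := by
    intro g h
    show Matrix.reindexAlgEquiv F F e _ = Matrix.reindexAlgEquiv F F e _ *
      Matrix.reindexAlgEquiv F F e _
    rw [← map_mul, ← map_mul]
    congr 2
    funext _
    exact MM_mul Z lam g h
  have hscal : ∀ c : F, Matrix.reindexAlgEquiv F F e
      (Matrix.blockDiagonalRingHom (G ⧸ Z) (Fin k) F (fun _ => Matrix.scalar (G ⧸ Z) c)) =
      Matrix.scalar (Fin (Z.index * k)) c := by
    intro c
    ext i j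
    rw [Matrix.coe_reindexAlgEquiv, Matrix.reindex_apply, Matrix.submatrix_apply,
      Matrix.blockDiagonalRingHom_apply, Matrix.blockDiagonal_apply, Matrix.scalar_apply,
      Matrix.scalar_apply, Matrix.diagonal_apply, Matrix.diagonal_apply]
    by_cases hij : i = j
    · subst hij
      simp
    · rw [if_neg hij]
      have : e.symm i ≠ e.symm j := fun h => hij (e.symm.injective h)
      by_cases h2 : (e.symm i).2 = (e.symm j).2
      · rw [if_pos h2, if_neg]
        intro h1
        exact this (Prod.ext h1 h2)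
      · rw [if_neg h2]
  have hNz : ∀ z : Z, N (z : G) = Matrix.scalar (Fin (Z.index * k)) ((lam z : Fˣ) : F) := by
    intro z
    rw [← hscal]
    show Matrix.reindexAlgEquiv F F e _ = _
    rw [MM_central Z lam hZ z]
  have hN1 : N 1 = 1 := by
    have := hNz 1
    rw [map_one, Units.val_one, map_one] at this
    exact this
  have hdet : ∀ g, (N g).det = 1 := by
    intro g
    have h1 : (N g).det = (MM Z lam g).det ^ k := by
      show (Matrix.reindexAlgEquiv F F e _).det = _
      rw [Matrix.coe_reindexAlgEquiv, Matrix.det_reindex_self,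
        Matrix.blockDiagonalRingHom_apply, Matrix.det_blockDiagonal, Finset.prod_const,
        Finset.card_univ, Fintype.card_fin]
    have h2 : (MM Z lam g).det * (MM Z lam g⁻¹).det = 1 := by
      rw [← Matrix.det_mul, ← MM_mul, mul_inv_cancel]
      have := MM_central Z lam hZ 1
      rw [map_one, Units.val_one, map_one] at this
      rw [show ((1 : Z) : G) = 1 from rfl] at this
      rw [this, Matrix.det_one]
    have h3 := hF (Units.mkOfMulEqOne _ _ h2)
    rw [h1]
    have h4 := congrArg Units.val h3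
    rw [Units.val_pow_eq_pow_val] at h4
    exact h4
  refine ⟨{ toFun := fun g => ⟨N g, hdet g⟩, map_one' := Subtype.ext hN1,
            map_mul' := fun g h => Subtype.ext (hNmul g h) }, fun z => hNz z, ?_⟩
  rintro g ⟨c, hc⟩
  have hc' : N g = Matrix.scalar (Fin (Z.index * k)) c := hc
  rw [← hscal] at hc'
  have h5 := (Matrix.reindexAlgEquiv F F e).injective hc'
  rw [Matrix.blockDiagonalRingHom_apply, Matrix.blockDiagonalRingHom_apply] at h5
  have h6 := Matrix.blockDiagonal_injective h5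
  exact MM_scalar Z lam hZ g c (congrFun h6 ⟨0, hk⟩)

end Pool.Agent.H373.PD
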