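import Pool.Agent.H373.PD.S3

/-!
# Embedding central extensions into direct products of quotients of special linear groups
-/

set_option autoImplicit false

open scoped Classical

namespace Pool.Agent.H373.PD

theorem S4a_normal {G : Type} [Group G] {Y : Subgroup G} (h : Y ≤ Subgroup.center G) :
    Y.Normal where
  conj_mem a ha g := by
    have h1 := Subgroup.mem_center_iff.1 (h ha) g
    rw [h1, mul_inv_cancel_right]
    exact ha

theorem S4a_fam {G : Type} [Group G] [Finite G] (Z : Subgroup G) (hZ : Z ≤ Subgroup.center G) :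
    ∃ (J : Type) (_ : Finite J) (_ : Nonempty J) (Y : J → Subgroup G), (∀ j, Y j ≤ Z) ∧
      (∀ j, ∃ z₀ ∈ Z, ∀ z ∈ Z, ∃ m : ℤ, (z₀ ^ m)⁻¹ * z ∈ Y j) ∧
      (∀ g, (∀ j, g ∈ Y j) → g = 1) ∧
      ∀ c : J → G, (∀ j, c j ∈ Z) → ∃ z ∈ Z, ∀ j, (c j)⁻¹ * z ∈ Y j := by
  let _ : CommGroup Z := { (inferInstance : Group Z) with
    mul_comm := fun a b => Subtype.ext (Subgroup.mem_center_iff.1 (hZ b.2) a) }
  obtain ⟨J, hJ, n, -, ⟨e⟩⟩ := CommGroup.equiv_prod_multiplicative_zmod_of_finite Z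
  have hpr : ∀ i, ∃ pr : Z →* Multiplicative (ZMod (n i)), ∀ z, pr z = e z i := fun i =>
    ⟨(Pi.evalMonoidHom _ i).comp e.toMonoidHom, fun _ => rfl⟩
  choose pr hpr using hpr
  obtain ⟨Y, hYn, hYs⟩ : ∃ Y : Option J → Subgroup G, Y none = Z ∧
      ∀ i, Y (some i) = (pr i).ker.map Z.subtype :=
    ⟨fun j => Option.elim j Z fun i => (pr i).ker.map Z.subtype, rfl, fun _ => rfl⟩
  have hmem : ∀ i (z : Z), (z : G) ∈ Y (some i) ↔ e z i = 1 := by
    intro i z
    rw [hYs, Subgroup.mem_map]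
    constructor
    · rintro ⟨w, hw, h⟩
      have : w = z := Subtype.ext h
      rw [← this, ← hpr]
      exact hw
    · intro h
      refine ⟨z, ?_, rfl⟩
      rw [MonoidHom.mem_ker, hpr]
      exact h
  have hle : ∀ j, Y j ≤ Z := by
    intro j
    cases j with
    | none => exact hYn.le
    | some i =>
      rw [hYs]
      rintro x ⟨w, -, rfl⟩
      exact w.2
  refine ⟨Option J, inferInstance, inferInstance, Y, hle, ?_, ?_, ?_⟩
  · intro j
    cases j with
    | none =>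
      refine ⟨1, Z.one_mem, fun z hz => ⟨0, ?_⟩⟩
      rw [hYn, zpow_zero, inv_one, one_mul]
      exact hz
    | some i =>
      obtain ⟨g, hg⟩ := IsCyclic.exists_generator (α := Multiplicative (ZMod (n i)))
      refine ⟨e.symm (Pi.mulSingle i g), (e.symm (Pi.mulSingle i g)).2, fun z hz => ?_⟩
      obtain ⟨m, hm⟩ := Subgroup.mem_zpowers_iff.1 (hg (e ⟨z, hz⟩ i))
      refine ⟨m, ?_⟩
      have h1 := (hmem i (((e.symm (Pi.mulSingle i g)) ^ m)⁻¹ * ⟨z, hz⟩)).2 (by
        rw [map_mul, map_inv, map_zpow, MulEquiv.apply_symm_apply, Pi.mul_apply, Pi.inv_apply,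
          Pi.pow_apply, Pi.mulSingle_eq_same, hm, inv_mul_cancel])
      exact h1
  · intro g hg
    have hgZ : g ∈ Z := hYn ▸ hg none
    have h1 : e ⟨g, hgZ⟩ = 1 := by
      funext i
      exact (hmem i ⟨g, hgZ⟩).1 (hg (some i))
    have h2 : (⟨g, hgZ⟩ : Z) = 1 := by
      rw [← map_one e] at h1
      exact e.injective h1
    exact congrArg Subtype.val h2
  · intro c hc
    refine ⟨e.symm (fun i => e ⟨c (some i), hc (some i)⟩ i), (e.symm _).2, fun j => ?_⟩
    cases j with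
    | none =>
      rw [hYn]
      exact Z.mul_mem (Z.inv_mem (hc none)) (e.symm _).2
    | some i =>
      have h1 := (hmem i ((⟨c (some i), hc (some i)⟩ : Z)⁻¹ *
        e.symm (fun i => e ⟨c (some i), hc (some i)⟩ i))).2 (by
        rw [map_mul, map_inv, MulEquiv.apply_symm_apply, Pi.mul_apply, Pi.inv_apply,
          inv_mul_cancel])
      exact h1

theorem exists_emb_pi
    (h : ∀ (G : Type) [Group G] [Finite G] (Z : Subgroup G) (_ : Z ≤ Subgroup.center G)
      (_ : IsCyclic Z), ∃ N r δ : ℕ, 3 ≤ N ∧ r.Prime ∧ 0 < δ ∧ ∃ ι : G →* HS N r δ,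
        Function.Injective ι ∧ Z.map ι = Subgroup.center (HS N r δ))
    (G : Type) [Group G] [Finite G] (Z : Subgroup G) (hZ : Z ≤ Subgroup.center G) :
    ∃ (k : ℕ) (N r δ : Fin k → ℕ), 0 < k ∧ (∀ i, 3 ≤ N i ∧ (r i).Prime ∧ 0 < δ i) ∧
      ∃ ι : G →* (∀ i, HS (N i) (r i) (δ i)), Function.Injective ι ∧
        Z.map ι = Subgroup.center (∀ i, HS (N i) (r i) (δ i)) := by
  obtain ⟨J, hJ, hJ', Y, hYZ, hcyc, hinj, hcrt⟩ := S4a_fam Z hZ
  have H : ∀ j : J, ∃ N r δ : ℕ, 3 ≤ N ∧ r.Prime ∧ 0 < δ ∧ ∃ ι : G →* HS N r δ,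
      (∀ g, ι g = 1 ↔ g ∈ Y j) ∧ Z.map ι = Subgroup.center (HS N r δ) := by
    intro j
    have : (Y j).Normal := S4a_normal ((hYZ j).trans hZ)
    have hc : Z.map (QuotientGroup.mk' (Y j)) ≤ Subgroup.center (G ⧸ Y j) := by
      rintro x ⟨z, hz, rfl⟩
      rw [Subgroup.mem_center_iff]
      intro g
      obtain ⟨g, rfl⟩ := QuotientGroup.mk'_surjective (Y j) g
      rw [← map_mul, ← map_mul, Subgroup.mem_center_iff.1 (hZ hz) g]
    have hcy : IsCyclic (Z.map (QuotientGroup.mk' (Y j))) := by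
      obtain ⟨z₀, hz₀, h0⟩ := hcyc j
      refine ⟨⟨⟨QuotientGroup.mk' (Y j) z₀, Subgroup.mem_map_of_mem _ hz₀⟩, ?_⟩⟩
      rintro ⟨x, z, hz, rfl⟩
      obtain ⟨m, hm⟩ := h0 z hz
      refine ⟨m, Subtype.ext ?_⟩
      show (QuotientGroup.mk' (Y j) z₀) ^ m = QuotientGroup.mk' (Y j) z
      rw [← map_zpow]
      exact QuotientGroup.eq.2 hm
    obtain ⟨N, r, δ, hN, hr, hδ, ι, hι, hιc⟩ := h (G ⧸ Y j) (Z.map (QuotientGroup.mk' (Y j)))
      hc hcy
    refine ⟨N, r, δ, hN, hr, hδ, ι.comp (QuotientGroup.mk' (Y j)), fun g => ?_, ?_⟩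
    · rw [MonoidHom.comp_apply, map_eq_one_iff ι hι]
      exact QuotientGroup.eq_one_iff g
    · rw [← Subgroup.map_map]
      exact hιc
  choose N r δ hN hr hδ ι hι hιc using H
  let E : Fin (Nat.card J) ≃ J := (Finite.equivFin J).symm
  refine ⟨Nat.card J, fun i => N (E i), fun i => r (E i), fun i => δ (E i), Nat.card_pos,
    fun i => ⟨hN _, hr _, hδ _⟩, MonoidHom.pi fun i => ι (E i), ?_, ?_⟩
  · rw [injective_iff_map_eq_one]
    intro g hg
    apply hinj
    intro j
    rw [← hι]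
    have h1 := congrFun hg (E.symm j)
    have h2 : ι (E (E.symm j)) g = 1 := h1
    rwa [E.apply_symm_apply] at h2
  · apply le_antisymm
    · rintro x ⟨z, hz, rfl⟩
      rw [Subgroup.mem_center_iff]
      intro y
      funext i
      have h1 : ι (E i) z ∈ Subgroup.center (HS (N (E i)) (r (E i)) (δ (E i))) := by
        rw [← hιc]
        exact ⟨z, hz, rfl⟩
      exact Subgroup.mem_center_iff.1 h1 (y i)
    · intro x hx
      have h1 : ∀ i, ∃ c ∈ Z, ι (E i) c = x i := by
        intro i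
        have h2 : x i ∈ Subgroup.center (HS (N (E i)) (r (E i)) (δ (E i))) := by
          rw [Subgroup.mem_center_iff]
          intro y
          have h3 := congrFun (Subgroup.mem_center_iff.1 hx (Pi.mulSingle i y)) i
          rw [Pi.mul_apply, Pi.mul_apply, Pi.mulSingle_eq_same] at h3
          exact h3
        rw [← hιc] at h2
        obtain ⟨c, hc, h3⟩ := h2
        exact ⟨c, hc, h3⟩
      choose c hc hcx using h1
      obtain ⟨z, hz, hzc⟩ := hcrt (fun j => c (E.symm j)) (fun j => hc _)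
      refine ⟨z, hz, ?_⟩
      funext i
      show ι (E i) z = x i
      rw [← hcx]
      have h4 := hzc (E i)
      rw [← hι, E.symm_apply_apply, map_mul, map_inv, inv_mul_eq_one] at h4
      exact h4.symm

theorem perfect_pi
    (h1 : ∀ (n r : ℕ) [Fact r.Prime], 3 ≤ n →
      commutator (Matrix.SpecialLinearGroup (Fin n) (ZMod r)) = ⊤)
    (k : ℕ) (N r δ : Fin k → ℕ) (hN : ∀ i, 3 ≤ N i ∧ (r i).Prime) :
    commutator (∀ i, HS (N i) (r i) (δ i)) = ⊤ := by
  have hq : ∀ i, commutator (HS (N i) (r i) (δ i)) = ⊤ := by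
    intro i
    have : Fact (r i).Prime := ⟨(hN i).2⟩
    have h2 := h1 (N i) (r i) (hN i).1
    rw [eq_top_iff]
    intro x _
    obtain ⟨y, rfl⟩ := QuotientGroup.mk'_surjective
      (tor (Matrix.SpecialLinearGroup (Fin (N i)) (ZMod (r i))) (δ i)) x
    have h3 : y ∈ commutator (Matrix.SpecialLinearGroup (Fin (N i)) (ZMod (r i))) := by
      rw [h2]
      exact Subgroup.mem_top y
    have h4 : (commutator (Matrix.SpecialLinearGroup (Fin (N i)) (ZMod (r i)))).map
        (QuotientGroup.mk' (tor (Matrix.SpecialLinearGroup (Fin (N i)) (ZMod (r i))) (δ i))) ≤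
        commutator (HS (N i) (r i) (δ i)) := by
      rw [commutator, Subgroup.map_commutator]
      exact Subgroup.commutator_mono le_top le_top
    exact h4 ⟨y, h3, rfl⟩
  rw [eq_top_iff]
  intro x _
  apply Subgroup.pi_mem_of_mulSingle_mem
  intro i
  have h3 : x i ∈ commutator (HS (N i) (r i) (δ i)) := by
    rw [hq]
    exact Subgroup.mem_top _
  have h4 : (commutator (HS (N i) (r i) (δ i))).map
      (MonoidHom.mulSingle (fun i => HS (N i) (r i) (δ i)) i) ≤
      commutator (∀ i, HS (N i) (r i) (δ i)) := by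
    rw [commutator, Subgroup.map_commutator]
    exact Subgroup.commutator_mono le_top le_top
  exact h4 ⟨x i, h3, rfl⟩

end Pool.Agent.H373.PD
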