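import Pool.Agent.H373.PD.S3

/-!
# `SL(N, r) / K` modulo its centre is simple, and the centre is cyclic (helper139)
-/

set_option autoImplicit false

open scoped Classical

namespace Pool.Agent.H373.PD

theorem simple_quot
    (h2 : ∀ (n r : ℕ) [Fact r.Prime], 3 ≤ n →
      IsSimpleGroup (Matrix.ProjectiveSpecialLinearGroup (Fin n) (ZMod r)))
    (h1 : ∀ (n r : ℕ) [Fact r.Prime], 3 ≤ n →
      commutator (Matrix.SpecialLinearGroup (Fin n) (ZMod r)) = ⊤)
    (N r δ : ℕ) (hN : 3 ≤ N) (hr : r.Prime) :
    IsSimpleGroup (HS N r δ ⧸ Subgroup.center (HS N r δ)) ∧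
      IsCyclic (Subgroup.center (HS N r δ)) := by
  have : Fact r.Prime := ⟨hr⟩
  have hsimp := h2 N r hN
  have hperf := h1 N r hN
  have hS : ∀ A : Matrix.SpecialLinearGroup (Fin N) (ZMod r),
      QuotientGroup.mk' (tor (Matrix.SpecialLinearGroup (Fin N) (ZMod r)) δ) A ∈
        Subgroup.center (HS N r δ) ↔
      A ∈ Subgroup.center (Matrix.SpecialLinearGroup (Fin N) (ZMod r)) := by
    intro A
    constructor
    · intro hh
      apply perf hperf
      intro B
      have h3 := Subgroup.mem_center_iff.1 hh (QuotientGroup.mk' _ B)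
      have h4 : QuotientGroup.mk' (tor (Matrix.SpecialLinearGroup (Fin N) (ZMod r)) δ)
          (A * B * A⁻¹ * B⁻¹) = 1 := by
        rw [map_mul, map_mul, map_mul, map_inv, map_inv, ← h3]
        group
      exact ((QuotientGroup.eq_one_iff _).1 h4).1
    · intro hA
      rw [Subgroup.mem_center_iff]
      intro h
      obtain ⟨B, rfl⟩ := QuotientGroup.mk'_surjective _ h
      rw [← map_mul, ← map_mul, Subgroup.mem_center_iff.1 hA B]
  constructor
  · let f : Matrix.SpecialLinearGroup (Fin N) (ZMod r) →*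
        HS N r δ ⧸ Subgroup.center (HS N r δ) :=
      (QuotientGroup.mk' (Subgroup.center (HS N r δ))).comp (QuotientGroup.mk' _)
    have hf : Function.Surjective f :=
      (QuotientGroup.mk'_surjective _).comp (QuotientGroup.mk'_surjective _)
    have hk : f.ker = Subgroup.center (Matrix.SpecialLinearGroup (Fin N) (ZMod r)) := by
      ext A
      rw [MonoidHom.mem_ker]
      show QuotientGroup.mk' (Subgroup.center (HS N r δ)) (QuotientGroup.mk' _ A) = 1 ↔ _
      rw [QuotientGroup.mk'_apply, QuotientGroup.eq_one_iff]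
      exact hS A
    have e1 : Matrix.SpecialLinearGroup (Fin N) (ZMod r) ⧸ f.ker ≃*
        HS N r δ ⧸ Subgroup.center (HS N r δ) := QuotientGroup.quotientKerEquivOfSurjective f hf
    have e2 : Matrix.SpecialLinearGroup (Fin N) (ZMod r) ⧸ f.ker ≃*
        Matrix.ProjectiveSpecialLinearGroup (Fin N) (ZMod r) :=
      QuotientGroup.quotientMulEquivOfEq hk
    exact (e1.symm.trans e2).isSimpleGroup
  · have : Nonempty (Fin N) := ⟨⟨0, by omega⟩⟩
    have : NeZero (Fintype.card (Fin N)) := ⟨Fintype.card_ne_zero⟩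
    have : NeZero (max (Fintype.card (Fin N)) 1) := ⟨by omega⟩
    have hc : IsCyclic (Subgroup.center (Matrix.SpecialLinearGroup (Fin N) (ZMod r))) :=
      isCyclic_of_surjective
        (Matrix.SpecialLinearGroup.center_equiv_rootsOfUnity (n := Fin N) (R := ZMod r)).symm
        (MulEquiv.surjective _)
    let g : Subgroup.center (Matrix.SpecialLinearGroup (Fin N) (ZMod r)) →*
        Subgroup.center (HS N r δ) :=
      ((QuotientGroup.mk' (tor (Matrix.SpecialLinearGroup (Fin N) (ZMod r)) δ)).comp
        (Subgroup.center (Matrix.SpecialLinearGroup (Fin N) (ZMod r))).subtype).codRestrict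
        (Subgroup.center (HS N r δ)) (fun z => (hS z).2 z.2)
    refine isCyclic_of_surjective g ?_
    rintro ⟨h, hh⟩
    obtain ⟨A, rfl⟩ := QuotientGroup.mk'_surjective _ h
    exact ⟨⟨A, (hS A).1 hh⟩, rfl⟩

end Pool.Agent.H373.PD
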