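import Pool.Agent.H373.PD.P6
import Pool.Agent.H373.PD.Q4
import Pool.Agent.H373.PD.S1
import Pool.Agent.H373.PD.S2
import Pool.Agent.H373.PD.S4a
import Pool.Agent.H373.PD.S4b

/-!
# The classes of groups
-/

set_option autoImplicit false
set_option linter.unusedSectionVars false
set_option linter.style.haveILetI false

open scoped BigOperators Classical MatrixGroups

noncomputable section

namespace Pool.Agent.H373.PD

open Pool.Agent.H373.BU hiding Ind

open Pool.Agent.H373.MN

open IsLocalRing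

theorem sl_perfect' (n r : ℕ) [Fact r.Prime] (hn : 3 ≤ n) :
    commutator (Matrix.SpecialLinearGroup (Fin n) (ZMod r)) = ⊤ := sl_perfect hn (ZMod r)

theorem psl_simple' (n r : ℕ) [Fact r.Prime] (hn : 3 ≤ n) :
    IsSimpleGroup (Matrix.ProjectiveSpecialLinearGroup (Fin n) (ZMod r)) := psl_simple hn (ZMod r)

theorem emb_cyc (G : Type) [Group G] [Finite G] (Z : Subgroup G) (hZ : Z ≤ Subgroup.center G)
    (hc : IsCyclic Z) : ∃ N r δ : ℕ, 3 ≤ N ∧ r.Prime ∧ 0 < δ ∧ ∃ ι : G →* HS N r δ,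
      Function.Injective ι ∧ Z.map ι = Subgroup.center (HS N r δ) := by
  haveI := hc
  exact exists_emb sl_perfect' (fun G _ _ Z hZ F _ lam k hk hF => exists_rep G Z hZ F lam k hk hF)
    G Z hZ

theorem emb_pi (G : Type) [Group G] [Finite G] (Z : Subgroup G) (hZ : Z ≤ Subgroup.center G) :
    ∃ (k : ℕ) (N r δ : Fin k → ℕ), 0 < k ∧ (∀ i, 3 ≤ N i ∧ (r i).Prime ∧ 0 < δ i) ∧
      ∃ ι : G →* HP k N r δ, Function.Injective ι ∧
        Z.map ι = Subgroup.center (HP k N r δ) :=
  exists_emb_pi emb_cyc G Z hZ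

section struct

variable {p q : ℕ} (h : Good p q)

theorem finite_HS {N r δ : ℕ} (hr : r.Prime) : Finite (HS N r δ) := by
  haveI : Fact r.Prime := ⟨hr⟩
  haveI : NeZero r := ⟨hr.ne_zero⟩
  haveI : Finite (Matrix.SpecialLinearGroup (Fin N) (ZMod r)) := inferInstance
  exact inferInstance

theorem finite_HP {k : ℕ} {N r δ : Fin k → ℕ} (hr : ∀ i, 3 ≤ N i ∧ (r i).Prime) :
    Finite (HP k N r δ) := by
  haveI : ∀ i, Finite (HS (N i) (r i) (δ i)) := fun i => finite_HS (hr i).2
  exact inferInstance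

include h in
theorem mod1_WX {H : Type} [Group H] [Finite H] (hH : commutator H = ⊤) :
    Mod1 (WX q H (Subgroup.center H)) := by
  haveI : Fact q.Prime := ⟨h.prime⟩
  refine ⟨perfect_WX h.lt hH, primitive_WX h.lt (le_refl _), bas q H _, bas_normal,
    ?_, ⟨PSL(2, ZMod q), inferInstance, _, simple_psl h.lt, not_solvable_psl h.lt,
      bas_equiv.1⟩, fun N hN => normal_WX h.lt (le_refl _) N hN⟩
  have h1 := centralizer_bas (q := q) h.lt (le_refl (Subgroup.center H))
  rw [h1.1, h1.2]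

include h in
theorem mod1_HP {k : ℕ} {N r δ : Fin k → ℕ} (hr : ∀ i, 3 ≤ N i ∧ (r i).Prime) :
    Mod1 (WX q (HP k N r δ) (Subgroup.center (HP k N r δ))) := by
  haveI := finite_HP (δ := δ) hr
  exact mod1_WX h (perfect_pi sl_perfect' k N r δ hr)

theorem perfect_HS {N r δ : ℕ} (hN : 3 ≤ N) (hr : r.Prime) : commutator (HS N r δ) = ⊤ := by
  haveI : Fact r.Prime := ⟨hr⟩
  haveI : Group.IsPerfect (Matrix.SpecialLinearGroup (Fin N) (ZMod r)) :=
    ⟨sl_perfect' N r hN⟩
  haveI : Group.IsPerfect (HS N r δ) := inferInstance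
  exact this.commutator_eq_top

include h in
theorem mod3_HS {N r δ : ℕ} (hN : 3 ≤ N) (hr : r.Prime) :
    Mod3 (WX q (HS N r δ) (Subgroup.center (HS N r δ))) := by
  haveI : Fact q.Prime := ⟨h.prime⟩
  haveI := finite_HS (N := N) (δ := δ) hr
  obtain ⟨h1, h2⟩ := simple_quot psl_simple' sl_perfect' N r δ hN hr
  have hcen := (centralizer_bas (q := q) h.lt (le_refl (Subgroup.center (HS N r δ)))).2
  refine ⟨perfect_WX h.lt (perfect_HS hN hr), ?_, primitive_WX h.lt (le_refl _),
    three_WX h.lt (le_refl _) inferInstance h1⟩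
  rw [hcen]
  haveI := h2
  exact isCyclic_of_surjective ((SemidirectProduct.inr : HS N r δ →*
    Wr PSL(2, ZMod q) (HS N r δ ⧸ Subgroup.center (HS N r δ)) (HS N r δ)).subgroupMap
      (Subgroup.center (HS N r δ))) (MonoidHom.subgroupMap_surjective _ _)

include h in
theorem core_mod [Fact p.Prime] {H : Type} [Group H] [Finite H]
    (N : Subgroup (WX q H (Subgroup.center H))) (hN : N.Normal) (hp : IsPGroup p N) :
    N ≤ Subgroup.center (WX q H (Subgroup.center H)) := by
  haveI : Fact q.Prime := ⟨h.prime⟩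
  exact core_WX h.lt (le_refl _) N hN hp

end struct

end Pool.Agent.H373.PD
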