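import Pool.Agent.H373.PD.P7
import Pool.Agent.H373.PD.Q6

/-!
# Dade's conjecture for groups with central `O_p(G)`
-/

set_option autoImplicit false
set_option linter.unusedSectionVars false
set_option linter.style.haveILetI false

open scoped BigOperators Classical MatrixGroups

noncomputable section

namespace Pool.Agent.H373.PD

open Pool.Agent.H373.BU hiding Ind

open Pool.Agent.H373.MN

open MonoidAlgebra hiding coeff_sum

open IsLocalRing

section op

variable {p : ℕ} {G : Type} [Group G]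

theorem zp_normal {Z : Subgroup G} : (zp p Z).Normal where
  conj_mem a ha g := by
    rw [Subgroup.mem_center_iff.mp (zp_center ha) g, mul_inv_cancel_right]
    exact ha

theorem op_eq (h : Op p G ≤ Subgroup.center G) : zp p (Op p G) = Op p G := by
  apply le_antisymm zp_le
  have h1 : Op p G ≤ zp p (Subgroup.center G) := by
    refine sSup_le ?_
    rintro N ⟨hN, hpN⟩ x hx
    have h2 : x ∈ Subgroup.center G := h ((le_sSup ⟨hN, hpN⟩ : N ≤ Op p G) hx)
    obtain ⟨k, hk⟩ := hpN ⟨x, hx⟩
    exact ⟨h2, h2, k, congrArg Subtype.val hk⟩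
  intro x hx
  exact ⟨hx, h hx, (h1 hx).2.2⟩

theorem op_center (h : ∀ N : Subgroup G, N.Normal → IsPGroup p N → N ≤ Subgroup.center G)
    (hp : IsPGroup p (Subgroup.center G)) : Op p G = Subgroup.center G :=
  le_antisymm (sSup_le fun N hN => h N hN.1 hN.2) (le_sSup ⟨inferInstance, hp⟩)

theorem pchO_eq (h : Op p G ≤ Subgroup.center G) : pchO p G = pchZ p (Op p G) := by
  unfold pchO pchZ
  rw [op_eq h]

end op

section eq

variable {L : Type} [CommRing L] [IsLocalRing L] {Ω : Type} [Field Ω] {G : Type} [Group G]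

theorem IrZ_bot (p : ℕ) (s : L →+* Ω) (d : ℕ) (C : Set (Subgroup G)) (b : MonoidAlgebra L G) :
    IrZ p s d ⊥ 1 C b = IrC p s d C b := by
  ext ε
  refine ⟨fun h => h.1, fun h => ⟨h, fun n hn => ?_⟩⟩
  have h1 : n = 1 := Subtype.ext (Subgroup.mem_bot.mp hn)
  subst h1
  rw [MonoidHom.one_apply, one_smul]
  exact one_mul ε

theorem dadeO_eq (p : ℕ) (s : L →+* Ω) (d : ℕ) (h : Op p G ≤ Subgroup.center G)
    (b : MonoidAlgebra L G) : dadeO p s d b = gSum p s d (Op p G) ⊥ 1 b := by
  unfold dadeO gSum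
  rw [pchO_eq h]
  refine finsum_congr fun c => ?_
  rw [IrZ_bot]

end eq

section main

variable {L : Type} [CommRing L] [IsDomain L] [IsDiscreteValuationRing L]
  [IsAdicComplete (maximalIdeal L) L] {p : ℕ} [hp : Fact p.Prime] [CharP (ResidueField L) p]
  {Ω : Type} [Field Ω] {X V G : Type} [Group X] [Group V] [Group G]
  [Fintype X] [Fintype V] [Finite G] (I : Mon L X V G)

theorem reproO_of_mon (hV : ¬ p ∣ Nat.card V) {u : L} (hu : u * (Fintype.card V : L) = 1)
    (s : L →+* Ω) (hs : Function.Injective s) (hG : Op p G ≤ Subgroup.center G)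
    (hX : Op p X ≤ Subgroup.center X) (hA : (Op p G).map I.j = Op p X) : ReproO p s G X := by
  intro b hb
  have hlam : ∀ v, rs L (I.lam v : L) = 1 → I.lam v = 1 := I.lam_red hV
  have hu1 : rs L u * (Fintype.card V : ResidueField L) = 1 := by
    rw [← map_natCast (rs L), ← map_mul, hu, map_one]
  have hred := red_isBlock hb
  haveI : Nonempty I.Q := ⟨QuotientGroup.mk 1⟩
  have hab := above_cen I hu hA hX hb hV
  refine ⟨I.cen u b, I.cen_isBlock hu hb, ⟨Fintype.card I.Q, Fintype.card_pos, ⟨?_⟩⟩, ?_,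
    ?_, fun d => ?_⟩
  · exact ((Matrix.reindexAlgEquiv ℤ (BlockAlg hb) (Fintype.equivFin I.Q).symm).toRingEquiv).trans
      (I.blockEquiv hu hb)
  · intro D hD
    refine ⟨D.map I.j, ⟨hD.1.map I.j, ?_⟩, ⟨(D.equivMapOfInjective I.j I.j_inj).symm⟩⟩
    rw [I.red_cen (rs L) hlam]
    exact (I.map (rs L) hlam).cen_isMinTr hu1 hred hD.2
  · unfold Above at hab
    rw [op_eq hG, op_eq hX] at hab
    exact hab
  · have hb1 : (⊥ : Subgroup G).map I.j = ⊥ := Subgroup.map_bot _
    let e : (⊥ : Subgroup G) ≃* (⊥ : Subgroup X) :=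
      ((⊥ : Subgroup G).equivMapOfInjective I.j I.j_inj).trans (MulEquiv.subgroupCongr hb1)
    rw [dadeO_eq p s d hX, dadeO_eq p s d hG,
      gSum_cen I hu s hs hV bot_le bot_le e (fun z => rfl) hA hX 1 hb]
    rfl

end main

end Pool.Agent.H373.PD
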