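import Pool.Agent.H373.MN.W5
import Pool.Agent.H373.PD.Q4
import Pool.Agent.H373.PD.Q6

/-!
# Families of groups
-/

set_option autoImplicit false
set_option linter.unusedSectionVars false

open scoped Classical MatrixGroups

noncomputable section

namespace Pool.Agent.H373.PD

open Pool.Agent.H373.BU Pool.Agent.H373.MN IsLocalRing

/-- The properties of the groups of the three families. (1) `X_n = PSL(2, q) ^ (n (n - 1)) ⋊ A_n`,
`n ≥ 5`, has exactly three normal subgroups (see `ThreeNormal`), is a primitive permutation group, and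
`O_p(X_n) = 1`. (2) The groups `X_H` for direct products `H` of `k` groups `SL(N_i, r_i) / K_i` belong
to the class `Mod1` and `O_p(X_H) ≤ Z(X_H)`. (3) The groups `X_H` for `H = SL(N, r) / K` belong to the
class `Mod3` and `O_p(X_H) ≤ Z(X_H)`. -/
def FamO (p q : ℕ) : Prop :=
  (∀ n, 5 ≤ n → ThreeNormal p q n (XP n q) ∧ IsPrimitiveGroup (XP n q) ∧ Op p (XP n q) = ⊥) ∧
  (∀ (k : ℕ) (N r δ : Fin k → ℕ), (∀ i, 3 ≤ N i ∧ (r i).Prime) →
    Mod1 (XW q (HP k N r δ)) ∧ Op p (XW q (HP k N r δ)) ≤ Subgroup.center _) ∧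
  ∀ N r δ : ℕ, 3 ≤ N → r.Prime →
    Mod3 (XW q (HS N r δ)) ∧ Op p (XW q (HS N r δ)) ≤ Subgroup.center _

section

variable {L : Type} [CommRing L] [IsDomain L] [IsDiscreteValuationRing L] {W : Type} [Field W]

/-- Let `G` be a finite group with `O_p(G) ≤ Z(G)`. The blocks of `G` and Dade's sums are reproduced by
`X_n` for `n ≥ |G| ^ 2 + 3 |G| + 5` if `O_p(G) = 1`, by `X_H` for a group `H = SL(N, r) / K` if `O_p(G)`
is cyclic, and by `X_H` for a direct product `H` of such groups in general; moreover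
`O_p(X_H) = Z(X_H)`. -/
def ReproAllO (p q : ℕ) (s : L →+* W) : Prop :=
  ∀ (G : Type) [Group G] [Finite G], Op p G ≤ Subgroup.center G →
    (Op p G = ⊥ → ∀ n : ℕ, Nat.card G ^ 2 + 3 * Nat.card G + 5 ≤ n → ReproO p s G (XP n q)) ∧
    (IsCyclic (Op p G) → ∃ N r δ : ℕ, 3 ≤ N ∧ r.Prime ∧
      Op p (XW q (HS N r δ)) = Subgroup.center _ ∧ ReproO p s G (XW q (HS N r δ))) ∧
    ∃ (k : ℕ) (N r δ : Fin k → ℕ), 0 < k ∧ (∀ i, 3 ≤ N i ∧ (r i).Prime) ∧
      Op p (XW q (HP k N r δ)) = Subgroup.center _ ∧ ReproO p s G (XW q (HP k N r δ))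

end

end Pool.Agent.H373.PD
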